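import Pool.Agent.Helper64.AF.Quad2

/-!
A fourfold with an imaginary quadratic field of endomorphisms: every form is in the complex span of
powers of the polarisation and of Weil forms, if there is a non-zero Weil class.
-/

namespace Pool.Agent.Helper64

open Module NumberField LieAlgebra Pool.Agent.Helper7 Pool.Agent.Helper24 Pool.Agent.Helper30.AF
open Pool.Agent.GPC (Emb)

attribute [local instance 100] LieRing.ofAssociativeRing

set_option linter.unusedSectionVars false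

section family

variable {I : Type} [Fintype I] [DecidableEq I] (n : I → ℕ)
  {κ : I → Type} [∀ i, Fintype (κ i)] [∀ i, DecidableEq (κ i)] {ϖ : ℂ}
  (P : ∀ i, PData (κ i) ϖ)
  {K : Type} [Field K] [NumberField K]
  (F : ∀ i, UF (P i) K 4)
  (i : I) (hI : ∀ j, j = i) (m : Fin (n i)) (hm : ∀ m', m' = m)
  (J : Module.End ℂ (HW κ n)) {z : ℂ} (hz : z ≠ 0) (x : K)
  (hJ : ∀ u, J (slotL n i m u) = slotL n i m ((F i).ρ x u))
  (σ : K →+* ℂ) (hσ : ∀ σ', σ' = σ ∨ σ' = ComplexEmbedding.conjugate σ)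
  (hσ' : ComplexEmbedding.conjugate σ ≠ σ)
  (hx : σ x = z) (hx' : ComplexEmbedding.conjugate σ x = -z)
  (hκ : Fintype.card (κ i) = 8)
  (hJJ : ∀ u, J (J u) = z ^ 2 • u) (d : ℚ) (hd : 0 < d) (hzd : z ^ 2 = -(d : ℂ))
  (hJQ : ∀ u, IsRatP n P u → IsRatP n P (J u))
  (w : (HW κ n) [⋀^Fin (2 * 2)]→ₗ[ℂ] ℂ)
  (hbal : ∀ v r s, w (Function.update v r (J (v r))) = w (Function.update v s (J (v s))))
  (hw0 : w ≠ 0) (hϖ : ϖ ≠ 0)
  (hBw : ∀ v : Fin (2 * 2) → HW κ n, (∀ r, IsRatP n P (v r)) → ∃ q : ℚ, w v = ϖ ^ 2 * q)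
  (hAw : ∀ v : Fin (2 * 2) → HW κ n, (∀ r i m j, IsAlgebraic ℚ (v r i m j)) →
      IsAlgebraic ℚ (w v))
  (hsimple : ∀ f, IsDRB (P i) (P i) f → ∃ x, ∀ v, f v = (F i).ρ x v)
  {k : ℕ} (α : (HW κ n) [⋀^Fin (2 * k)]→ₗ[ℂ] ℂ) (hα0 : α ≠ 0)
  (hB : ∀ v : Fin (2 * k) → HW κ n, (∀ r, IsRatP n P (v r)) → ∃ q : ℚ, α v = ϖ ^ k * q)
  (hA : ∀ v : Fin (2 * k) → HW κ n, (∀ r i m j, IsAlgebraic ℚ (v r i m j)) →
      IsAlgebraic ℚ (α v))

include hI hm hz hJ hσ hσ' hx hx' hκ hJJ hd hzd hJQ hbal hw0 hϖ hBw hAw hsimple hα0 hB hA in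
theorem quad_basis : ∃ B : Basis Ix ℂ (HW κ n), SlInv B α ∧ IsStd B (om n P i m) 1 ∧
    (∀ c : Ix, c.2 = 0 → J (B c) = z • B c) ∧ (∀ c : Ix, c.2 = 1 → J (B c) = -z • B c) := by
  classical
  have hr : ∀ i : I, 0 < (fun _ : I => 4) i := fun _ => by norm_num
  -- the product
  obtain ⟨a, ha⟩ : ∃ a, a = (α : MultilinearMap ℂ (fun _ : Fin (2 * k) => HW κ n) ℂ) := ⟨_, rfl⟩
  obtain ⟨b, hb⟩ : ∃ b, b = (w : MultilinearMap ℂ (fun _ : Fin (2 * 2) => HW κ n) ℂ) := ⟨_, rfl⟩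
  have ha0 : a ≠ 0 := by
    rw [ha]
    intro h
    apply hα0
    ext v
    exact congrArg (fun g => g v) h
  have hb0 : b ≠ 0 := by
    rw [hb]
    intro h
    apply hw0
    ext v
    exact congrArg (fun g => g v) h
  obtain ⟨M, hM⟩ : ∃ M, M = pairForm a b := ⟨_, rfl⟩
  have hBM : ∀ v : Fin (2 * (k + 2)) → HW κ n, (∀ r, IsRatP n P (v r)) →
      ∃ q : ℚ, M v = ϖ ^ (k + 2) * q := by
    intro v hv
    obtain ⟨q1, h1⟩ := hB (fun i => v (pairE k 2 (.inl i))) (fun i => hv _)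
    obtain ⟨q2, h2⟩ := hBw (fun i => v (pairE k 2 (.inr i))) (fun i => hv _)
    refine ⟨q1 * q2, ?_⟩
    rw [hM, pairForm_apply, ha, hb]
    show α _ * w _ = _
    rw [h1, h2, pow_add]
    push_cast
    ring
  have hAM : ∀ v : Fin (2 * (k + 2)) → HW κ n, (∀ r i m j, IsAlgebraic ℚ (v r i m j)) →
      IsAlgebraic ℚ (M v) := by
    intro v hv
    rw [hM, pairForm_apply, ha, hb]
    exact (hA _ (fun r i m j => hv _ i m j)).mul (hAw _ (fun r i m j => hv _ i m j))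
  -- the symmetries
  have hirr : LieModule.IsIrreducible ℂ (LL n P F M) (Vs n P F M ⟨i, σ⟩) :=
    Vs_irr n P F M hϖ hBM hAM ⟨i, σ⟩ (hr i)
  have htr := LL_trivialRadical n P F M hϖ hBM hAM hr
  have hk : IsKilling ℂ (LL n P F M) := inferInstance
  have cc : ComplexEmbedding.conjugate (ComplexEmbedding.conjugate σ) = σ :=
    Helper24.conj_conj σ
  have hmul : ∀ X, IsInv n P M X → ∃ c', c' = 4 * ch P F ⟨i, σ⟩ X ∧
      c' = 4 * ch P F ⟨i, ComplexEmbedding.conjugate σ⟩ X ∧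
      actForm (lift n X.1) a = (((k + 2 : ℕ) : ℂ) * X.2 - c') • a := by
    intro X hX
    have h0 := hX.form
    rw [hM] at h0
    obtain ⟨c', h1, h2⟩ := eigen_of_pair (lift n X.1) a b ha0 hb0 _ h0
    rw [hb] at h2
    refine ⟨c', weil_mult4 n P F i hI m hm M J hz x hJ σ hσ hx hx' hJJ d hd hzd hJQ
      w hbal hw0 (ϖ ^ 2) (pow_ne_zero _ hϖ) hBw X hX c' h2,
      weil_mult4 n P F i hI m hm M J (neg_ne_zero.mpr hz) x hJ (ComplexEmbedding.conjugate σ)
      (fun σ' => by rw [cc]; exact (hσ σ').symm) hx' (by rw [cc, hx, neg_neg])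
      (fun u => by rw [hJJ, neg_sq]) d hd (by rw [neg_sq, hzd]) hJQ
      w hbal hw0 (ϖ ^ 2) (pow_ne_zero _ hϖ) hBw X hX c' h2, h1⟩
  have hch : ∀ X, IsInv n P M X → 2 * ch P F ⟨i, σ⟩ X = X.2 := by
    intro X hX
    obtain ⟨c', h1, h2, -⟩ := hmul X hX
    have h3 : ch P F ⟨i, σ⟩ X + ch P F ⟨i, ComplexEmbedding.conjugate σ⟩ X = X.2 :=
      ch_conj n P F M hr ⟨i, σ⟩ X hX
    linear_combination h3 + (h2 - h1) / 4
  have hns := not_selfdual n P F i M hϖ hBM hAM σ hσ' hch hsimple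
  have hp := bp_pair n P F M hr i σ
  obtain ⟨b', D⟩ := exists_db (bp n P F M i σ (ComplexEmbedding.conjugate σ))
    (fun u h => bp_ndl n P F M i σ u h) (fun v h => bp_ndr n P F M i σ _ rfl v h)
    (bV n P F M ⟨i, σ⟩)
  obtain ⟨B, hBdef⟩ : ∃ B, B = BQ n P F i hI m hm M σ hσ' hκ b' D := ⟨_, rfl⟩
  refine ⟨B, ?_, ?_, ?_, ?_⟩
  · intro Z hZ v
    obtain ⟨g, hg⟩ := sl_four D (fun a u v => bp_inv n P F M hr i σ a u v)
      (fun u h => bp_ndl n P F M i σ u h) (fun v h => bp_ndr n P F M i σ _ rfl v h) hns Z hZ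
    obtain ⟨X, hX, hgX, hX2, hXc⟩ := perfect_lift n P F M hk g
    obtain ⟨c', h1, -, h2⟩ := hmul X hX
    rw [hXc, mul_zero] at h1
    rw [h1, hX2, mul_zero, sub_zero, zero_smul, ha] at h2
    have h3 := lift_BQ n P F i hI m hm M σ hσ' hκ b' D hr X hX hXc
    have h4 : mx (bp n P F M i σ (ComplexEmbedding.conjugate σ)) (bV n P F M ⟨i, σ⟩) b'
        (elL n P F M X hX) = Z := by
      rw [← hgX]
      funext a i
      exact hg a i
    rw [h4, ← hBdef] at h3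
    have h5 := congrArg (fun g => g v) h2
    simp only [actForm_apply, _root_.zero_apply] at h5
    rw [h3] at h5
    exact h5
  · rw [hBdef]
    exact omQ_std n P F i hI m hm M σ hσ' hκ b' D
  · rintro ⟨a, ε⟩ hε
    obtain rfl : ε = 0 := hε
    rw [hBdef, BQ_apply, ua_zero, hJ, (F i).rho_e, map_smul, hx]
  · rintro ⟨a, ε⟩ hε
    obtain rfl : ε = 1 := hε
    rw [hBdef, BQ_apply, ← ua_one_proj, J_proj4 n P F i m J x hJ, hx']

end family

end Pool.Agent.Helper64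

namespace Pool.Agent.GPC

open Module NumberField LieAlgebra Pool.Agent.Helper7 Pool.Agent.Helper64

section product

variable {I : Type} [Fintype I] (A : I → AbVar) (n : I → ℕ)

/-- M10b: Weil type with `End(A) ⊗ ℚ = K` imaginary quadratic, dimension four. -/
theorem quad_four (i : I) (hI : ∀ j, j = i) (hn : n i = 1) (K : Type) [Field K] [NumberField K]
    [NumberField.IsCMField K] (ρ : K → (A i).H1 → (A i).H1) (C : (A i).IsHermMult K ρ)
    (hK : finrank ℚ K = 2) (hg : (A i).g = 4)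
    (hw : ∃ w : Form A n (2 * 2), w ≠ 0 ∧ IsWeilClass A n 2 w ∧ IsGrothendieck A n 2 w) (k : ℕ)
    (α : Form A n (2 * k)) (hα : IsGrothendieck A n k α) : IsDivisorialWeil A n k α := by
  classical
  obtain ⟨w, hw0, ⟨⟨-, hdim⟩, -, d, J, hJ, hbal⟩, hw1, hw2⟩ := hw
  obtain ⟨hα1, hα2⟩ := id hα
  obtain ⟨hd, hJE, hJJ, -, -⟩ := id hJ
  refine Pool.Agent.Helper28.isDivisorialWeil_of_span A n k α hα ?_
  by_cases hα0 : α = 0
  · rw [hα0]; exact Submodule.zero_mem _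
  -- the structures
  have hF : ∀ i', ∃ F : UF (pData (A i')) K 4, ∀ f : Module.End ℂ (A i').H1,
      IsDRB (pData (A i')) (pData (A i')) f → ∃ x, ∀ v, f v = F.ρ x v := by
    intro i'
    obtain rfl := hI i'
    obtain ⟨F, hF1, -⟩ := nonempty_UFh (A i') K ρ C 4 (by rw [hK, hg])
    refine ⟨F, fun f hf => ?_⟩
    obtain ⟨x, hx⟩ := C.centralizer f (isEnd_of_isDRB _ f hf) (fun x hx v => by
      obtain ⟨q, rfl⟩ := real_rat hK x hx
      have h5 : ∀ w, ρ (q : K) w = (q : ℂ) • w := by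
        intro w
        rw [← hF1]
        have h6 := rho_ratsmul F.ρ q (1 : K)
        rw [map_one, Rat.smul_one_eq_cast] at h6
        exact congrArg (fun g => g w) h6
      rw [h5, h5, map_smul])
    exact ⟨x, fun v => by rw [hx, hF1]⟩
  choose F hsimple using hF
  obtain ⟨m, hm⟩ : ∃ m : Fin (n i), ∀ m', m' = m := by
    refine ⟨⟨0, by omega⟩, fun m' => Fin.ext ?_⟩
    have := m'.2
    show m'.1 = 0
    omega
  have hκ : Fintype.card (Fin (A i).g ⊕ Fin (A i).g) = 8 := by rw [card_index, hg]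
  have hlin : IsLinearMap ℂ (fun u : (A i).H1 =>
      (J (slotL n (κ := fun i => Fin (A i).g ⊕ Fin (A i).g) i m u)) i m) :=
    ⟨fun u v => by rw [map_add, hJE.linear.map_add]; rfl,
      fun c u => by rw [map_smul, hJE.linear.map_smul]; rfl⟩
  have hend : (A i).IsEnd (fun u : (A i).H1 =>
      (J (slotL n (κ := fun i => Fin (A i).g ⊕ Fin (A i).g) i m u)) i m) :=
    ⟨hlin, fun v hv => hJE.betti _ (slotL_cases A n i m v (fun j u => (A j).IsBetti u)
        (fun j => isBetti_zero' _) hv) i m,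
      fun v hv => hJE.deRham _ (slotL_cases A n i m v (fun j u => (A j).IsDeRham u)
        (fun j => isDeRham_zero' _) hv) i m,
      fun v hv => hJE.hodge _ (slotL_cases A n i m v (fun j u => (A j).IsFil u)
        (fun _ _ => rfl) hv) i m⟩
  obtain ⟨x, hx⟩ := hsimple i (IsLinearMap.mk' _ hlin) (isDRB_of_isEnd _ _ hend)
  obtain ⟨Jl, hJl⟩ : ∃ Jl : Module.End ℂ (H1 A n), ∀ v, Jl v = J v :=
    ⟨IsLinearMap.mk' _ hJE.linear, fun _ => rfl⟩
  have hJp : ∀ u, Jl (slotL n i m u) = slotL n i m ((F i).ρ x u) := by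
    intro u
    rw [hJl, ← hx]
    exact (slot_all n i hI m hm _).symm
  have sqz : ∀ ν : K →+* ℂ, (ν x) ^ 2 = -(d : ℂ) := by
    intro ν
    have h1 := hJJ (slotL n i m ((F i).e ν 0))
    rw [← hJl, ← hJl, hJp, hJp, (F i).rho_e, map_smul, (F i).rho_e, smul_smul, map_smul,
      ← pow_two] at h1
    have h2 := congrArg (fun v : H1 A n => v i m) h1
    simp only [Pi.smul_apply] at h2
    have h3 : (slotL n (κ := fun i => Fin (A i).g ⊕ Fin (A i).g) i m
        ((F i).e ν 0)) i m = (F i).e ν 0 := Pool.Agent.Helper7.slotL_self A n i _ _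
    rw [h3, ← sub_eq_zero, ← sub_smul, smul_eq_zero] at h2
    exact sub_eq_zero.mp (h2.resolve_right (Pool.Agent.Helper24.e_ne (F i) ν 0))
  obtain ⟨σ⟩ : Nonempty (K →+* ℂ) := inferInstance
  obtain ⟨z, hz⟩ : ∃ z, z = σ x := ⟨_, rfl⟩
  have hzd : z ^ 2 = -(d : ℂ) := by rw [hz]; exact sqz σ
  have hzc := conj_of_sq hd hzd
  have hd0 : (d : ℂ) ≠ 0 := by exact_mod_cast hd.ne'
  have hz0 : z ≠ 0 := by
    rintro h0
    rw [h0] at hzd
    apply hd0
    have := congrArg Neg.neg hzd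
    simpa using this.symm
  have hne' : ∀ ν : K →+* ℂ, ComplexEmbedding.conjugate ν ≠ ν := fun ν hν =>
    IsTotallyComplex.complexEmbedding_not_isReal ν (ComplexEmbedding.isReal_iff.mpr hν)
  have hϖ := Complex.two_pi_I_ne_zero
  have hQB : ∀ v : HW (fun i => Fin (A i).g ⊕ Fin (A i).g) n,
      IsRatP n (fun i => pData (A i)) v → IsBetti A n v := fun v hv i m =>
    (mem_pData_Q _ _).mp (hv i m)
  obtain ⟨B, hBinv, hBstd, hB0, hB1⟩ := quad_basis (κ := fun i => Fin (A i).g ⊕ Fin (A i).g) n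
    (fun i => pData (A i)) F i hI m hm Jl hz0 x hJp σ
    (fun σ' => Pool.Agent.Helper24.emb_two hK σ σ') (hne' σ) hz.symm
    (by rw [ComplexEmbedding.conjugate_coe_eq, ← hz, hzc]) hκ
    (fun u => by rw [hJl, hJl, hJJ, hzd]) d hd hzd
    (fun u hu i m => by
      rw [mem_pData_Q, hJl]
      exact hJE.betti u (hQB u hu) i m)
    w (fun v r s => by rw [hJl, hJl]; exact hbal v r s) hw0 hϖ
    (fun v hv => hw2 v (fun r => hQB _ (hv r))) hw1 (hsimple i) α hα0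
    (fun v hv => hα2 v (fun r => hQB _ (hv r))) hα1
  have hmem : (wedge fun _ : Fin k => om n (fun i => pData (A i)) i m) ∈
      Submodule.span ℂ ({w | ∃ γ : Fin k → (H1 A n →ₗ[ℂ] H1 A n →ₗ[ℂ] ℂ),
      (∀ a, γ a ∈ GW n (fun i => pData (A i))) ∧ w = wedge γ} ∪ WeilForms A n k) :=
    Submodule.subset_span (Or.inl ⟨_, fun a => om_mem n (fun i => pData (A i)) i m, rfl⟩)
  by_cases hk : k = 2
  · subst hk
    obtain ⟨c, c0, c1, hc⟩ := hBinv.span_of_four hBstd one_ne_zero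
    rw [hc]
    refine Submodule.add_mem _ (Submodule.smul_mem _ _ hmem)
      (Submodule.add_mem _ (Submodule.smul_mem _ _ (Submodule.subset_span (Or.inr ?_)))
        (Submodule.smul_mem _ _ (Submodule.subset_span (Or.inr ?_))))
    · refine ⟨⟨rfl, hdim⟩, d, J, hJ, fun v r1 r2 => ?_⟩
      have hL := LP_eigen (B := B) 0 Jl z hB0 (-z) (fun c hc => hB1 c (by
        have hcase : ∀ x : Fin 2, x ≠ 0 → x = 1 := by decide
        exact hcase _ hc))
      rw [← hJl, ← hJl, dtL_update _ _ z hL, dtL_update _ _ z hL]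
    · refine ⟨⟨rfl, hdim⟩, d, J, hJ, fun v r1 r2 => ?_⟩
      have hL := LP_eigen (B := B) 1 Jl (-z) hB1 z (fun c hc => hB0 c (by
        have hcase : ∀ x : Fin 2, x ≠ 1 → x = 0 := by decide
        exact hcase _ hc))
      rw [← hJl, ← hJl, dtL_update _ _ (-z) hL, dtL_update _ _ (-z) hL]
  · obtain ⟨c, hc⟩ := hBinv.span_of_ne hBstd one_ne_zero hk
    rw [hc]
    exact Submodule.smul_mem _ _ hmem

end product

end Pool.Agent.GPC
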