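import Pool.Agent.Helper64.AF.Quat5
import Pool.Agent.Helper28.AF.SpanC

/-!
Type III fourfolds over an imaginary quadratic field.
-/

namespace Pool.Agent.GPC

open Module

/-- M6: type III fourfold. -/
theorem quat_four {I : Type} [Fintype I] (A : I → AbVar) (n : I → ℕ) (i : I) (hI : ∀ j, j = i)
    (hn : n i = 1) (K : Type) [Field K] [NumberField K]
    [NumberField.IsCMField K] (ρ : K → (A i).H1 → (A i).H1) (j : (A i).H1 → (A i).H1) (b : K)
    (C : (A i).IsQuatMult K ρ j b) (hK : finrank ℚ K = 2) (hg : (A i).g = 4) (k : ℕ)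
    (α : Form A n (2 * k)) (hα : IsGrothendieck A n k α) : IsDivisorialWeil A n k α := by
  classical
  exact Helper28.isDivisorialWeil_of_span A n k α hα
    (Helper64.quat_four_span A n i hI hn K ρ j b C hK hg k α hα)

end Pool.Agent.GPC
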