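import Mathlib

/-!
Alternating forms on `ℂ^4 ⊗ ℂ^2` which are invariant under the orthogonal Lie algebra of the first
factor: values on the vectors of a basis.
-/

namespace Pool.Agent.Helper64

open Module Finset

/-- index of the basis vectors -/
abbrev Ix : Type := Fin 4 × Fin 2

section alt

variable {V : Type*} [AddCommGroup V] [Module ℂ V] (B : Basis Ix ℂ V)

/-- the rotation in the plane `(a, b)`, on both copies -/
noncomputable def rot (a b : Fin 4) : Module.End ℂ V :=
  B.constr ℂ (fun c => if c.1 = a then B (b, c.2) else if c.1 = b then - B (a, c.2) else 0)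

lemma rot_apply (a b : Fin 4) (c : Ix) : rot B a b (B c) =
    if c.1 = a then B (b, c.2) else if c.1 = b then - B (a, c.2) else 0 := by
  rw [rot, Basis.constr_basis]

variable {m : ℕ} (α : V [⋀^Fin m]→ₗ[ℂ] ℂ)

/-- value on basis vectors -/
noncomputable def vb (t : Fin m → Ix) : ℂ := α (fun r => B (t r))

/-- invariance under the rotations -/
def RotInv : Prop := ∀ a b : Fin 4, a ≠ b → ∀ v : Fin m → V,
  ∑ r, α (Function.update v r (rot B a b (v r))) = 0

lemma vb_eq_zero (t : Fin m → Ix) (r s : Fin m) (hrs : r ≠ s) (h : t r = t s) : vb B α t = 0 :=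
  α.map_eq_zero_of_eq _ (by rw [h]) hrs

lemma vb_perm (t : Fin m → Ix) (π : Equiv.Perm (Fin m)) :
    vb B α (t ∘ π) = ((Equiv.Perm.sign π : ℤ) : ℂ) * vb B α t := by
  have h := α.map_perm (fun r => B (t r)) π
  rw [Units.smul_def, zsmul_eq_mul] at h
  exact h

variable {B α} in
lemma RotInv.sum (h : RotInv B α) (a b : Fin 4) (hab : a ≠ b) (t : Fin m → Ix) :
    ∑ r, (if (t r).1 = a then vb B α (Function.update t r (b, (t r).2)) else
      if (t r).1 = b then - vb B α (Function.update t r (a, (t r).2)) else 0) = 0 := by
  refine (Finset.sum_congr rfl fun r _ => ?_).trans (h a b hab (fun r => B (t r)))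
  have hu : ∀ c : Ix, Function.update (fun r => B (t r)) r (B c) =
      fun r' => B (Function.update t r c r') := by
    intro c
    funext r'
    by_cases hr : r' = r
    · subst hr; rw [Function.update_self, Function.update_self]
    · rw [Function.update_of_ne hr, Function.update_of_ne hr]
  rw [rot_apply]
  split_ifs with h1 h2
  · rw [hu]; rfl
  · have h3 : Function.update (fun r => B (t r)) r (-B (a, (t r).2)) =
        Function.update (fun r => B (t r)) r ((-1 : ℂ) • B (a, (t r).2)) := by
      rw [neg_one_smul]
    rw [h3, AlternatingMap.map_update_smul, hu]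
    simp only [smul_eq_mul, neg_mul, one_mul]
    rfl
  · exact (α.map_coord_zero (m := Function.update (fun r => B (t r)) r 0) r
      (Function.update_self r 0 (fun r => B (t r)))).symm

variable {B α} in
/-- an index which occurs once, and another one which does not occur -/
lemma RotInv.r1a (h : RotInv B α) {a b : Fin 4} (hab : a ≠ b) (t : Fin m → Ix) (r : Fin m)
    (hr : (t r).1 = a) (ha : ∀ r', r' ≠ r → (t r').1 ≠ a) (hb : ∀ r', (t r').1 ≠ b) :
    vb B α t = 0 := by
  have h1 := h.sum a b hab (Function.update t r (b, (t r).2))
  rw [Finset.sum_eq_single r] at h1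
  · rw [Function.update_self, if_neg (Ne.symm hab), if_pos rfl, neg_eq_zero,
      Function.update_idem] at h1
    rw [← h1]
    congr 1
    rw [← hr]
    exact (Function.update_eq_self r t).symm
  · intro r' _ hr'
    rw [Function.update_of_ne hr', if_neg (ha r' hr'), if_neg (hb r')]
  · intro h2; exact absurd (Finset.mem_univ _) h2

variable {B α} in
/-- an index which occurs once, and another one which occurs twice -/
lemma RotInv.r1b (h : RotInv B α) {a b : Fin 4} (hab : a ≠ b) (t : Fin m → Ix)
    (r p q : Fin m) (hpq : p ≠ q)
    (hr : (t r).1 = a) (hp : (t p).1 = b) (hq : (t q).1 = b)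
    (ha : ∀ r', r' ≠ r → (t r').1 ≠ a) (hb : ∀ r', r' ≠ p → r' ≠ q → (t r').1 ≠ b)
    (hε : (t p).2 = (t r).2) (hε' : (t q).2 ≠ (t r).2) : vb B α t = 0 := by
  have hqr : q ≠ r := by rintro rfl; exact hab (hr.symm.trans hq)
  have hpr : p ≠ r := by rintro rfl; exact hab (hr.symm.trans hp)
  have h1 := h.sum a b hab (Function.update t q (a, (t q).2))
  rw [Finset.sum_eq_single q] at h1
  · rw [Function.update_self, if_pos rfl, Function.update_idem] at h1
    rw [← h1]
    congr 1
    rw [← hq]
    exact (Function.update_eq_self q t).symm
  · intro r' _ hr'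
    rw [Function.update_of_ne hr']
    by_cases h2 : r' = r
    · subst h2
      rw [if_pos hr]
      refine vb_eq_zero B α _ r' p (Ne.symm hpr) ?_
      rw [Function.update_self, Function.update_of_ne hpr, Function.update_of_ne hpq, ← hε, ← hp]
    · rw [if_neg (ha r' h2)]
      by_cases h3 : r' = p
      · subst h3
        rw [if_pos hp, neg_eq_zero]
        refine vb_eq_zero B α _ r' r hpr ?_
        rw [Function.update_self, Function.update_of_ne (Ne.symm hpr),
          Function.update_of_ne (Ne.symm hqr), hε, ← hr]
      · rw [if_neg (hb r' h3 hr')]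
  · intro h2; exact absurd (Finset.mem_univ _) h2

variable {B α} in
/-- a pair of slots can be moved to another index -/
lemma RotInv.r2 (h : RotInv B α) {a b : Fin 4} (hab : a ≠ b) (t : Fin m → Ix)
    (p q : Fin m) (hpq : p ≠ q) (hp : (t p).1 = b) (hq : (t q).1 = b)
    (ha : ∀ r', (t r').1 ≠ a) (hb : ∀ r', r' ≠ p → r' ≠ q → (t r').1 ≠ b) :
    vb B α t = vb B α (Function.update (Function.update t q (a, (t q).2)) p (a, (t p).2)) := by
  have h1 := h.sum a b hab (Function.update t q (a, (t q).2))
  rw [Finset.sum_eq_add q p (Ne.symm hpq)] at h1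
  · rw [Function.update_self, if_pos rfl, Function.update_idem, Function.update_of_ne hpq,
      if_neg (ha p), if_pos hp] at h1
    have h2 : Function.update t q (b, (t q).2) = t := by
      rw [← hq]; exact Function.update_eq_self q t
    simp only [h2] at h1
    linear_combination h1
  · rintro r' _ ⟨h3, h4⟩
    rw [Function.update_of_ne h3, if_neg (ha r'), if_neg (hb r' h4 h3)]
  · intro h2; exact absurd (Finset.mem_univ _) h2
  · intro h2; exact absurd (Finset.mem_univ _) h2

variable {B α} in
/-- two indices which occur once: exchange of the second components -/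
lemma RotInv.r3 (h : RotInv B α) {a b : Fin 4} (hab : a ≠ b) (t : Fin m → Ix)
    (r s : Fin m) (hrs : r ≠ s) (hr : (t r).1 = b) (hs : (t s).1 = a)
    (ha : ∀ r', r' ≠ s → (t r').1 ≠ a) (hb : ∀ r', r' ≠ r → (t r').1 ≠ b) :
    vb B α t = vb B α (Function.update (Function.update t r (b, (t s).2)) s (a, (t r).2)) := by
  have h1 := h.sum a b hab (Function.update t r (a, (t r).2))
  rw [Finset.sum_eq_add r s hrs] at h1
  · rw [Function.update_self, if_pos rfl, Function.update_idem, Function.update_of_ne hrs.symm,
      if_pos hs] at h1
    have h2 : Function.update t r (b, (t r).2) = t := by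
      rw [← hr]; exact Function.update_eq_self r t
    simp only [h2] at h1
    -- exchange the two slots
    have h3 := vb_perm B α (Function.update (Function.update t r (b, (t s).2)) s (a, (t r).2))
      (Equiv.swap r s)
    have h4 : (Function.update (Function.update t r (b, (t s).2)) s (a, (t r).2)) ∘
        (Equiv.swap r s) = Function.update (Function.update t r (a, (t r).2)) s (b, (t s).2) := by
      funext r'
      rw [Function.comp_apply]
      by_cases h5 : r' = r
      · subst h5
        rw [Equiv.swap_apply_left, Function.update_self, Function.update_of_ne hrs,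
          Function.update_self]
      · by_cases h6 : r' = s
        · subst h6
          rw [Equiv.swap_apply_right, Function.update_self, Function.update_of_ne hrs,
            Function.update_self]
        · rw [Equiv.swap_apply_of_ne_of_ne h5 h6, Function.update_of_ne h6,
            Function.update_of_ne h5, Function.update_of_ne h6, Function.update_of_ne h5]
    rw [h4, Equiv.Perm.sign_swap hrs] at h3
    push_cast at h3
    linear_combination h1 - h3
  · rintro r' _ ⟨h3, h4⟩
    rw [Function.update_of_ne h3, if_neg (ha r' h4), if_neg (hb r' h3)]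
  · intro h2; exact absurd (Finset.mem_univ _) h2
  · intro h2; exact absurd (Finset.mem_univ _) h2

end alt

end Pool.Agent.Helper64
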