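import Pool.Agent.Helper64.AF.Alt
import Pool.Agent.Helper7.Wedge

/-!
Alternating forms on `ℂ^4 ⊗ ℂ^2` which are invariant under the orthogonal Lie algebra of the first
factor: the part which comes from powers of the invariant two-form.
-/

namespace Pool.Agent.Helper64

open Module Finset Pool.Agent.Helper7

section tuples

/-- the tuple of the pairs `(f c, 0), (f c, 1)` -/
def sI {k : ℕ} (f : Fin k → Fin 4) (r : Fin (2 * k)) : Ix :=
  (f ⟨r.1 / 2, by omega⟩, ⟨r.1 % 2, by omega⟩)

lemma sI_lo {k : ℕ} (f : Fin k → Fin 4) (c : Fin k) : sI f (lo c) = (f c, 0) := by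
  have h1 : (2 * c.1) / 2 = c.1 := by omega
  have h2 : (2 * c.1) % 2 = 0 := by omega
  simp only [sI, lo, h1, h2]
  rfl

lemma sI_hi {k : ℕ} (f : Fin k → Fin 4) (c : Fin k) : sI f (hi c) = (f c, 1) := by
  have h1 : (2 * c.1 + 1) / 2 = c.1 := by omega
  have h2 : (2 * c.1 + 1) % 2 = 1 := by omega
  simp only [sI, hi, h1, h2]
  rfl

lemma hi_ne_lo {k : ℕ} (a b : Fin k) : hi a ≠ lo b := fun h => lo_ne_hi b a h.symm

lemma sI_injective {k : ℕ} (f : Fin k → Fin 4) (hf : Function.Injective f) :
    Function.Injective (sI f) := by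
  intro r s h
  obtain ⟨a, rfl | rfl⟩ := eq_lo_or_hi r <;> obtain ⟨b, rfl | rfl⟩ := eq_lo_or_hi s <;>
    simp only [sI_lo, sI_hi, Prod.mk.injEq] at h
  · rw [hf h.1]
  · exact absurd h.2 (by decide)
  · exact absurd h.2 (by decide)
  · rw [hf h.1]

lemma sI_update {k : ℕ} (f : Fin k → Fin 4) (c : Fin k) (a : Fin 4) :
    sI (Function.update f c a) =
      Function.update (Function.update (sI f) (hi c) (a, 1)) (lo c) (a, 0) := by
  funext r
  obtain ⟨b, rfl | rfl⟩ := eq_lo_or_hi r
  · rw [sI_lo]
    by_cases h : b = c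
    · subst h; rw [Function.update_self, Function.update_self]
    · rw [Function.update_of_ne h, Function.update_of_ne (fun h' => h (lo_inj h')),
        Function.update_of_ne (lo_ne_hi b c), sI_lo]
  · rw [sI_hi, Function.update_of_ne (hi_ne_lo b c)]
    by_cases h : b = c
    · subst h; rw [Function.update_self, Function.update_self]
    · rw [Function.update_of_ne h, Function.update_of_ne (fun h' => h (hi_inj h')), sI_hi]

lemma sI_swap {k : ℕ} (f : Fin k → Fin 4) (c c' : Fin k) :
    sI (f ∘ Equiv.swap c c') =
      sI f ∘ (Equiv.swap (lo c) (lo c') * Equiv.swap (hi c) (hi c') : Equiv.Perm (Fin (2 * k))) := by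
  have hl : ∀ b, (Equiv.swap (lo c) (lo c') * Equiv.swap (hi c) (hi c') :
      Equiv.Perm (Fin (2 * k))) (lo b) = lo (Equiv.swap c c' b) := by
    intro b
    rw [Equiv.Perm.mul_apply, Equiv.swap_apply_of_ne_of_ne (lo_ne_hi b c) (lo_ne_hi b c')]
    by_cases h : b = c
    · subst h; rw [Equiv.swap_apply_left, Equiv.swap_apply_left]
    · by_cases h' : b = c'
      · subst h'; rw [Equiv.swap_apply_right, Equiv.swap_apply_right]
      · rw [Equiv.swap_apply_of_ne_of_ne h h', Equiv.swap_apply_of_ne_of_ne
          (fun e => h (lo_inj e)) (fun e => h' (lo_inj e))]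
  have hh : ∀ b, (Equiv.swap (lo c) (lo c') * Equiv.swap (hi c) (hi c') :
      Equiv.Perm (Fin (2 * k))) (hi b) = hi (Equiv.swap c c' b) := by
    intro b
    rw [Equiv.Perm.mul_apply]
    by_cases h : b = c
    · subst h
      rw [Equiv.swap_apply_left, Equiv.swap_apply_left,
        Equiv.swap_apply_of_ne_of_ne (hi_ne_lo _ _) (hi_ne_lo _ _)]
    · by_cases h' : b = c'
      · subst h'
        rw [Equiv.swap_apply_right, Equiv.swap_apply_right,
          Equiv.swap_apply_of_ne_of_ne (hi_ne_lo _ _) (hi_ne_lo _ _)]
      · rw [Equiv.swap_apply_of_ne_of_ne h h', Equiv.swap_apply_of_ne_of_ne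
          (fun e => h (hi_inj e)) (fun e => h' (hi_inj e)),
          Equiv.swap_apply_of_ne_of_ne (hi_ne_lo _ _) (hi_ne_lo _ _)]
  funext r
  obtain ⟨b, rfl | rfl⟩ := eq_lo_or_hi r
  · rw [Function.comp_apply, hl, sI_lo, sI_lo, Function.comp_apply]
  · rw [Function.comp_apply, hh, sI_hi, sI_hi, Function.comp_apply]

/-- the number of slots with a given index -/
def mul4 {m : ℕ} (t : Fin m → Ix) (a : Fin 4) : ℕ := (univ.filter fun r => (t r).1 = a).card

lemma mul4_le {m : ℕ} (t : Fin m → Ix) (ht : Function.Injective t) (a : Fin 4) :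
    mul4 t a ≤ 2 := by
  have h1 : ((univ.filter fun r => (t r).1 = a).image fun r => (t r).2).card = mul4 t a := by
    refine Finset.card_image_of_injOn fun r hr s hs h => ht (Prod.ext ?_ h)
    rw [Finset.mem_coe, Finset.mem_filter] at hr hs
    rw [hr.2, hs.2]
  rw [← h1]
  exact (Finset.card_le_univ _).trans (by simp)

lemma mul4_sum {m : ℕ} (t : Fin m → Ix) : ∑ a, mul4 t a = m := by
  have h := Finset.card_eq_sum_card_fiberwise (f := fun r => (t r).1) (s := (univ : Finset (Fin m)))
    (t := univ) (fun _ _ => Finset.mem_univ _)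
  rw [Finset.card_univ, Fintype.card_fin] at h
  exact h.symm

/-- a tuple without repetition in which no index occurs exactly once is a permutation of pairs -/
lemma exists_pairs {k : ℕ} (t : Fin (2 * k) → Ix) (ht : Function.Injective t)
    (h1 : ∀ a, mul4 t a ≠ 1) : ∃ (f : Fin k → Fin 4) (π : Equiv.Perm (Fin (2 * k))),
      Function.Injective f ∧ t = sI f ∘ π := by
  classical
  obtain ⟨S, hS⟩ : ∃ S : Finset (Fin 4), S = univ.filter fun a => mul4 t a ≠ 0 := ⟨_, rfl⟩
  have hmem : ∀ r, (t r).1 ∈ S := by
    intro r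
    rw [hS, Finset.mem_filter]
    refine ⟨Finset.mem_univ _, ?_⟩
    rw [mul4, Finset.card_ne_zero]
    exact ⟨r, by simp⟩
  have hcard : S.card = k := by
    have h2 := mul4_sum t
    have h3 : ∑ a, mul4 t a = ∑ a ∈ S, 2 := by
      rw [hS, Finset.sum_filter]
      refine Finset.sum_congr rfl fun a _ => ?_
      have h4 := mul4_le t ht a
      have h5 := h1 a
      split_ifs with h6
      · omega
      · omega
    rw [h3, Finset.sum_const, smul_eq_mul] at h2
    omega
  obtain ⟨f, hf⟩ : ∃ f : Fin k → Fin 4, f = S.orderEmbOfFin hcard := ⟨_, rfl⟩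
  have hfi : Function.Injective f := by
    rw [hf]; exact (S.orderEmbOfFin hcard).injective
  have hfr : ∀ a ∈ S, ∃ c, f c = a := by
    intro a ha
    have h2 := S.range_orderEmbOfFin hcard
    have h3 : a ∈ Set.range (S.orderEmbOfFin hcard) := by rw [h2]; exact ha
    rw [hf]
    exact h3
  have hex : ∀ r, ∃ s, sI f s = t r := by
    intro r
    obtain ⟨c, hc⟩ := hfr _ (hmem r)
    generalize t r = x at hc ⊢
    obtain ⟨a, ε⟩ := x
    fin_cases ε
    · exact ⟨lo c, by rw [sI_lo, hc]; rfl⟩
    · exact ⟨hi c, by rw [sI_hi, hc]; rfl⟩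
  choose π hπ using hex
  have hπi : Function.Injective π := by
    intro r s h
    apply ht
    rw [← hπ r, ← hπ s, h]
  refine ⟨f, Equiv.ofBijective π (Finite.injective_iff_bijective.mp hπi), hfi, ?_⟩
  funext r
  exact (hπ r).symm

end tuples

section alt

variable {V : Type*} [AddCommGroup V] [Module ℂ V] (B : Basis Ix ℂ V)
  {k : ℕ} (α : V [⋀^Fin (2 * k)]→ₗ[ℂ] ℂ)

variable {B α} in
lemma vb_move (h : RotInv B α) (f : Fin k → Fin 4) (hf : Function.Injective f) (c : Fin k)
    (a : Fin 4) (ha : ∀ c', f c' ≠ a) :
    vb B α (sI (Function.update f c a)) = vb B α (sI f) := by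
  have h1 := h.r2 (a := a) (b := f c) (fun e => ha c e.symm) (sI f) (lo c) (hi c) (lo_ne_hi c c)
    (by rw [sI_lo]) (by rw [sI_hi]) (by
      intro r'
      obtain ⟨b, rfl | rfl⟩ := eq_lo_or_hi r'
      · rw [sI_lo]; exact ha b
      · rw [sI_hi]; exact ha b) (by
      intro r' h1 h2 h3
      obtain ⟨b, rfl | rfl⟩ := eq_lo_or_hi r'
      · rw [sI_lo] at h3
        exact h1 (by rw [hf h3])
      · rw [sI_hi] at h3
        exact h2 (by rw [hf h3]))
  rw [h1, sI_update, sI_lo, sI_hi]

lemma vb_swap (f : Fin k → Fin 4) (c c' : Fin k) (hcc : c ≠ c') :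
    vb B α (sI (f ∘ Equiv.swap c c')) = vb B α (sI f) := by
  rw [sI_swap, vb_perm, Equiv.Perm.sign_mul, Equiv.Perm.sign_swap (fun e => hcc (lo_inj e)),
    Equiv.Perm.sign_swap (fun e => hcc (hi_inj e))]
  simp

variable {B α} in
/-- the values on tuples of pairs are all the same -/
lemma vb_sI_eq (h : RotInv B α) (g : Fin k → Fin 4) (hg : Function.Injective g) :
    ∀ (N : ℕ) (f : Fin k → Fin 4), Function.Injective f →
      (univ.filter fun c => f c ≠ g c).card ≤ N → vb B α (sI f) = vb B α (sI g) := by
  intro N
  induction N with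
  | zero =>
    intro f _ hN
    have h1 : f = g := by
      funext c
      by_contra hc
      have h2 : c ∈ univ.filter fun c => f c ≠ g c := by simp [hc]
      rw [Nat.le_zero, Finset.card_eq_zero] at hN
      rw [hN] at h2
      exact absurd h2 (Finset.notMem_empty c)
    rw [h1]
  | succ N ih =>
    intro f hf hN
    by_cases hfg : f = g
    · rw [hfg]
    obtain ⟨c, hc⟩ := Function.ne_iff.mp hfg
    have hcm : c ∈ univ.filter fun c => f c ≠ g c := by simp [hc]
    by_cases hex : ∃ c', f c' = g c
    · obtain ⟨c', hc'⟩ := hex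
      have hcc : c ≠ c' := by rintro rfl; exact hc hc'
      rw [← vb_swap B α f c c' hcc]
      refine ih _ (hf.comp (Equiv.injective _)) ?_
      have hsub : (univ.filter fun b => (f ∘ Equiv.swap c c') b ≠ g b) ⊆
          (univ.filter fun b => f b ≠ g b).erase c := by
        intro b hb
        rw [Finset.mem_filter] at hb
        rw [Finset.mem_erase, Finset.mem_filter]
        have hbc : b ≠ c := by
          rintro rfl
          apply hb.2
          rw [Function.comp_apply, Equiv.swap_apply_left, hc']
        refine ⟨hbc, Finset.mem_univ _, ?_⟩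
        by_cases hbc' : b = c'
        · subst hbc'
          rw [hc']
          exact fun e => hcc (hg e)
        · have h3 := hb.2
          rwa [Function.comp_apply, Equiv.swap_apply_of_ne_of_ne hbc hbc'] at h3
      have h4 := Finset.card_le_card hsub
      rw [Finset.card_erase_of_mem hcm] at h4
      omega
    · push Not at hex
      rw [← vb_move h f hf c (g c) hex]
      refine ih _ ?_ ?_
      · intro x y hxy
        by_cases hx : x = c
        · by_cases hy : y = c
          · rw [hx, hy]
          · rw [hx, Function.update_self, Function.update_of_ne hy] at hxy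
            exact absurd hxy.symm (hex y)
        · by_cases hy : y = c
          · rw [hy, Function.update_self, Function.update_of_ne hx] at hxy
            exact absurd hxy (hex x)
          · rw [Function.update_of_ne hx, Function.update_of_ne hy] at hxy
            exact hf hxy
      · have hsub : (univ.filter fun b => Function.update f c (g c) b ≠ g b) ⊆
            (univ.filter fun b => f b ≠ g b).erase c := by
          intro b hb
          rw [Finset.mem_filter] at hb
          rw [Finset.mem_erase, Finset.mem_filter]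
          have hbc : b ≠ c := by
            rintro rfl
            apply hb.2
            rw [Function.update_self]
          refine ⟨hbc, Finset.mem_univ _, ?_⟩
          have h3 := hb.2
          rwa [Function.update_of_ne hbc] at h3
        have h4 := Finset.card_le_card hsub
        rw [Finset.card_erase_of_mem hcm] at h4
        omega

end alt

end Pool.Agent.Helper64
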