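import Pool.Agent.Helper64.AF.Alt2

/-!
The powers of the invariant two-form.
-/

namespace Pool.Agent.Helper64

open Module Finset Pool.Agent.Helper7

section sign

/-- slots as pairs -/
def eP (k : ℕ) : Fin k × Fin 2 ≃ Fin (2 * k) where
  toFun c := ⟨2 * c.1.1 + c.2.1, by omega⟩
  invFun r := (⟨r.1 / 2, by omega⟩, ⟨r.1 % 2, by omega⟩)
  left_inv c := by
    refine Prod.ext (Fin.ext ?_) (Fin.ext ?_)
    · show (2 * c.1.1 + c.2.1) / 2 = c.1.1
      omega
    · show (2 * c.1.1 + c.2.1) % 2 = c.2.1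
      omega
  right_inv r := by
    refine Fin.ext ?_
    show 2 * (r.1 / 2) + r.1 % 2 = r.1
    omega

lemma eP_lo {k : ℕ} (c : Fin k) : eP k (c, 0) = lo c := Fin.ext rfl

lemma eP_hi {k : ℕ} (c : Fin k) : eP k (c, 1) = hi c := Fin.ext rfl

/-- the two-form on `Fin 2` -/
def J2 (ε δ : Fin 2) : ℤ := if ε = δ then 0 else if ε = 0 then 1 else -1

lemma J2_perm (ρ : Equiv.Perm (Fin 2)) : J2 (ρ 0) (ρ 1) = (Equiv.Perm.sign ρ : ℤ) := by
  revert ρ
  decide

/-- permutations which respect the pairs -/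
lemma sign_pairs {k : ℕ} (π : Equiv.Perm (Fin k × Fin 2))
    (h : ∀ c, (π (c, 0)).1 = (π (c, 1)).1) :
    (Equiv.Perm.sign π : ℤ) * ∏ c, J2 (π (c, 0)).2 (π (c, 1)).2 = 1 := by
  classical
  have h1 : ∀ c ε, (π (c, ε)).1 = (π (c, 0)).1 := by
    intro c ε
    fin_cases ε
    · rfl
    · exact (h c).symm
  have hρi : ∀ c, Function.Injective fun ε => (π (c, ε)).2 := by
    intro c ε δ hεδ
    have h2 : π (c, ε) = π (c, δ) := Prod.ext ((h1 c ε).trans (h1 c δ).symm) hεδ
    exact (Prod.mk.inj (π.injective h2)).2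
  obtain ⟨ρ, hρ⟩ : ∃ ρ : Fin k → Equiv.Perm (Fin 2), ∀ c ε, ρ c ε = (π (c, ε)).2 :=
    ⟨fun c => Equiv.ofBijective _ (Finite.injective_iff_bijective.mp (hρi c)), fun c ε => rfl⟩
  have hτi : Function.Injective fun c => (π (c, 0)).1 := by
    intro c d hcd
    have h2 : π (d, 0) = π (c, (ρ c).symm (π (d, 0)).2) := by
      refine Prod.ext ?_ ?_
      · rw [h1 c]; exact hcd.symm
      · rw [← hρ c, Equiv.apply_symm_apply]
    exact (Prod.mk.inj (π.injective h2)).1.symm
  obtain ⟨τ, hτ⟩ : ∃ τ : Equiv.Perm (Fin k), ∀ c, τ c = (π (c, 0)).1 :=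
    ⟨Equiv.ofBijective _ (Finite.injective_iff_bijective.mp hτi), fun c => rfl⟩
  have h2 : π = (Equiv.prodCongrLeft fun _ : Fin 2 => τ) * Equiv.prodCongrRight ρ := by
    ext1 ⟨c, ε⟩
    rw [Equiv.Perm.mul_apply, Equiv.prodCongrRight_apply, Equiv.prodCongrLeft_apply]
    refine Prod.ext ?_ ?_
    · rw [h1, hτ]
    · exact (hρ c ε).symm
  have h3 : Equiv.Perm.sign π = ∏ c, Equiv.Perm.sign (ρ c) := by
    rw [h2, Equiv.Perm.sign_mul, Equiv.Perm.sign_prodCongrLeft, Equiv.Perm.sign_prodCongrRight,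
      Fin.prod_univ_two, Int.units_mul_self, one_mul]
  have h4 : ∀ c, J2 (π (c, 0)).2 (π (c, 1)).2 = (Equiv.Perm.sign (ρ c) : ℤ) := by
    intro c
    rw [← hρ, ← hρ, J2_perm]
  rw [Finset.prod_congr rfl fun c _ => h4 c, h3, ← Units.coe_prod, ← Units.val_mul,
    Int.units_mul_self, Units.val_one]

end sign

section alt

variable {V : Type*} [AddCommGroup V] [Module ℂ V] (B : Basis Ix ℂ V)
  (ω : V →ₗ[ℂ] V →ₗ[ℂ] ℂ) (w : ℂ)

/-- the invariant two-form in coordinates -/
def IsStd : Prop := ∀ c d : Ix, ω (B c) (B d) = if c.1 = d.1 then (J2 c.2 d.2 : ℂ) * w else 0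

variable {B ω w}

lemma vb_wedge {k : ℕ} (t : Fin (2 * k) → Ix) : vb B (wedge fun _ : Fin k => ω) t =
    ∑ π : Equiv.Perm (Fin (2 * k)), ((Equiv.Perm.sign π : ℤ) : ℂ) *
      ∏ a, ω (B (t (π (lo a)))) (B (t (π (hi a)))) := wedge_apply _ _

/-- powers of the two-form vanish on tuples with an index which occurs once -/
lemma wedge_single (h : IsStd B ω w) {k : ℕ} (t : Fin (2 * k) → Ix) (a : Fin 4)
    (ha : mul4 t a = 1) : vb B (wedge fun _ : Fin k => ω) t = 0 := by
  rw [vb_wedge]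
  refine Finset.sum_eq_zero fun π _ => ?_
  rw [mul4, Finset.card_eq_one] at ha
  obtain ⟨r, hr⟩ := ha
  have hr1 : ∀ s, (t s).1 = a ↔ s = r := by
    intro s
    have h2 : s ∈ univ.filter (fun r => (t r).1 = a) ↔ s ∈ ({r} : Finset _) := by rw [hr]
    simpa using h2
  have h3 : (t r).1 = a := (hr1 r).mpr rfl
  obtain ⟨c, hc⟩ := eq_lo_or_hi (π.symm r)
  have h4 : ω (B (t (π (lo c)))) (B (t (π (hi c)))) = 0 := by
    rw [h, if_neg]
    intro h5
    rcases hc with hc | hc
    · have h6 : π (lo c) = r := by rw [← hc, Equiv.apply_symm_apply]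
      rw [h6, h3] at h5
      have h7 := (hr1 _).mp h5.symm
      rw [← h6] at h7
      exact hi_ne_lo c c (π.injective h7)
    · have h6 : π (hi c) = r := by rw [← hc, Equiv.apply_symm_apply]
      rw [h6, h3] at h5
      have h7 := (hr1 _).mp h5
      rw [← h6] at h7
      exact lo_ne_hi c c (π.injective h7)
  rw [Finset.prod_eq_zero (Finset.mem_univ c) h4, mul_zero]

/-- powers of the two-form do not vanish on tuples of pairs -/
lemma wedge_pairs (h : IsStd B ω w) (k : ℕ) :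
    ∃ N : ℕ, N ≠ 0 ∧ ∀ f : Fin k → Fin 4, Function.Injective f →
      vb B (wedge fun _ : Fin k => ω) (sI f) = N * w ^ k := by
  classical
  obtain ⟨Good, hGood⟩ : ∃ Good : Equiv.Perm (Fin (2 * k)) → Prop, Good = fun π =>
    ∀ c, ((eP k).symm (π (lo c))).1 = ((eP k).symm (π (hi c))).1 := ⟨_, rfl⟩
  refine ⟨(univ.filter Good).card, ?_, ?_⟩
  · rw [Finset.card_ne_zero]
    refine ⟨1, ?_⟩
    rw [Finset.mem_filter, hGood]
    refine ⟨Finset.mem_univ _, fun c => ?_⟩
    rw [Equiv.Perm.one_apply, Equiv.Perm.one_apply, ← eP_lo, ← eP_hi, Equiv.symm_apply_apply,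
      Equiv.symm_apply_apply]
  · intro f hf
    rw [vb_wedge]
    have hS : ∀ r, sI f r = (f ((eP k).symm r).1, ((eP k).symm r).2) := fun r => rfl
    have key : ∀ π : Equiv.Perm (Fin (2 * k)), ((Equiv.Perm.sign π : ℤ) : ℂ) *
        ∏ a, ω (B (sI f (π (lo a)))) (B (sI f (π (hi a)))) = if Good π then w ^ k else 0 := by
      intro π
      split_ifs with hg
      · rw [hGood] at hg
        obtain ⟨π', hπ'⟩ : ∃ π' : Equiv.Perm (Fin k × Fin 2),
          π' = ((eP k).trans π).trans (eP k).symm := ⟨_, rfl⟩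
        have h1 : ∀ x, π' x = (eP k).symm (π (eP k x)) := fun x => by rw [hπ']; rfl
        have h2 : Equiv.Perm.sign π' = Equiv.Perm.sign π := by
          rw [hπ']
          exact Equiv.Perm.sign_trans_trans_symm π (eP k)
        have h3 := sign_pairs π' (fun c => by
          rw [h1, h1, eP_lo, eP_hi]; exact hg c)
        have h4 : ∀ c, ω (B (sI f (π (lo c)))) (B (sI f (π (hi c)))) =
            ((J2 (π' (c, 0)).2 (π' (c, 1)).2 : ℤ) : ℂ) * w := by
          intro c
          rw [h, hS, hS, if_pos (by rw [hg c]), h1, h1, eP_lo, eP_hi]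
        rw [Finset.prod_congr rfl fun c _ => h4 c, Finset.prod_mul_distrib, Finset.prod_const,
          Finset.card_univ, Fintype.card_fin, ← mul_assoc]
        have h5 : ((Equiv.Perm.sign π : ℤ) : ℂ) *
            ∏ c, ((J2 (π' (c, 0)).2 (π' (c, 1)).2 : ℤ) : ℂ) = 1 := by
          rw [h2] at h3
          exact_mod_cast h3
        rw [h5, one_mul]
      · rw [hGood] at hg
        push Not at hg
        obtain ⟨c, hc⟩ := hg
        rw [Finset.prod_eq_zero (Finset.mem_univ c), mul_zero]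
        rw [h, hS, hS, if_neg]
        intro h5
        exact hc (hf h5)
    rw [Finset.sum_congr rfl fun π _ => key π, ← Finset.sum_filter, Finset.sum_const, nsmul_eq_mul]

end alt

end Pool.Agent.Helper64
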