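import Pool.Agent.Helper64.AF.Alt3

/-!
Invariant alternating forms on `ℂ^4 ⊗ ℂ^2`: powers of the two-form and determinants.
-/

namespace Pool.Agent.Helper64

open Module Finset Pool.Agent.Helper7

section common

variable {V : Type*} [AddCommGroup V] [Module ℂ V] {B : Basis Ix ℂ V}
  {ω : V →ₗ[ℂ] V →ₗ[ℂ] ℂ} {w : ℂ} {k : ℕ} {α : V [⋀^Fin (2 * k)]→ₗ[ℂ] ℂ}

/-- an index occurs once and another one does not -/
lemma RotInv.other (h : RotInv B α) (t : Fin (2 * k) → Ix) (ht : Function.Injective t)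
    (a b : Fin 4) (ha : mul4 t a = 1) (hb : mul4 t b ≠ 1) : vb B α t = 0 := by
  have hab : a ≠ b := by rintro rfl; exact hb ha
  rw [mul4, Finset.card_eq_one] at ha
  obtain ⟨r, hr⟩ := ha
  have hr1 : ∀ s, (t s).1 = a ↔ s = r := by
    intro s
    have h2 : s ∈ univ.filter (fun r => (t r).1 = a) ↔ s ∈ ({r} : Finset _) := by rw [hr]
    simpa using h2
  have hra : (t r).1 = a := (hr1 r).mpr rfl
  have ha' : ∀ r', r' ≠ r → (t r').1 ≠ a := fun r' h1 h2 => h1 ((hr1 r').mp h2)
  have hle := mul4_le t ht b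
  rcases Nat.lt_or_ge (mul4 t b) 1 with h0 | h1
  · have h0' : mul4 t b = 0 := by omega
    rw [mul4, Finset.card_eq_zero] at h0'
    refine h.r1a hab t r hra ha' fun r' hr' => ?_
    have h2 : r' ∈ univ.filter (fun r => (t r).1 = b) := by simp [hr']
    rw [h0'] at h2
    exact absurd h2 (Finset.notMem_empty _)
  · have h2 : mul4 t b = 2 := by omega
    rw [mul4, Finset.card_eq_two] at h2
    obtain ⟨p, q, hpq, hS⟩ := h2
    have hb1 : ∀ s, (t s).1 = b ↔ s = p ∨ s = q := by
      intro s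
      have h3 : s ∈ univ.filter (fun r => (t r).1 = b) ↔ s ∈ ({p, q} : Finset _) := by rw [hS]
      simpa using h3
    have hp := (hb1 p).mpr (Or.inl rfl)
    have hq := (hb1 q).mpr (Or.inr rfl)
    have hne : (t p).2 ≠ (t q).2 := fun e => hpq (ht (Prod.ext (hp.trans hq.symm) e))
    have hcase : ∀ x y z : Fin 2, x ≠ y → (x = z ∧ y ≠ z) ∨ (y = z ∧ x ≠ z) := by decide
    rcases hcase _ _ (t r).2 hne with ⟨h3, h4⟩ | ⟨h3, h4⟩
    · exact h.r1b hab t r p q hpq hra hp hq ha' (fun r' h5 h6 h7 => by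
        rcases (hb1 r').mp h7 with h8 | h8
        · exact h5 h8
        · exact h6 h8) h3 h4
    · exact h.r1b hab t r q p hpq.symm hra hq hp ha' (fun r' h5 h6 h7 => by
        rcases (hb1 r').mp h7 with h8 | h8
        · exact h6 h8
        · exact h5 h8) h3 h4

lemma bijective_of_mul4 {m : ℕ} (t : Fin m → Ix) (h : ∀ a, mul4 t a = 1) :
    Function.Bijective fun r => (t r).1 := by
  constructor
  · intro r s hrs
    have h1 := h (t r).1
    rw [mul4, Finset.card_eq_one] at h1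
    obtain ⟨x, hx⟩ := h1
    have h2 : ∀ s, (t s).1 = (t r).1 → s = x := by
      intro s hs
      have h3 : s ∈ univ.filter (fun r' => (t r').1 = (t r).1) := by simp [hs]
      rw [hx] at h3
      exact Finset.mem_singleton.mp h3
    rw [h2 r rfl, h2 s hrs.symm]
  · intro a
    have h1 : mul4 t a ≠ 0 := by rw [h a]; exact one_ne_zero
    rw [mul4, Finset.card_ne_zero] at h1
    obtain ⟨r, hr⟩ := h1
    exact ⟨r, (Finset.mem_filter.mp hr).2⟩

lemma mul4_of_bijective {m : ℕ} (t : Fin m → Ix) (h : Function.Bijective fun r => (t r).1)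
    (a : Fin 4) : mul4 t a = 1 := by
  obtain ⟨r, hr⟩ := h.2 a
  rw [mul4, Finset.card_eq_one]
  refine ⟨r, ?_⟩
  ext s
  rw [Finset.mem_filter, Finset.mem_singleton]
  constructor
  · rintro ⟨-, hs⟩
    exact h.1 (hs.trans hr.symm)
  · rintro rfl
    exact ⟨Finset.mem_univ _, hr⟩

/-- apart from the tuples with four different indices an invariant form is a multiple of a power
of the two-form -/
theorem common (h : RotInv B α) (hω : IsStd B ω w) (hw : w ≠ 0) : ∃ c : ℂ,
    ∀ t, Function.Injective t → ¬ Function.Bijective (fun r => (t r).1) →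
      vb B α t = c * vb B (wedge fun _ : Fin k => ω) t := by
  obtain ⟨N, hN, hNf⟩ := wedge_pairs hω k
  have hne : ((N : ℂ) * w ^ k) ≠ 0 := mul_ne_zero (by exact_mod_cast hN) (pow_ne_zero _ hw)
  by_cases hk : k ≤ 4
  · have hf0 : Function.Injective (Fin.castLE hk) := Fin.castLE_injective hk
    refine ⟨vb B α (sI (Fin.castLE hk)) / (N * w ^ k), fun t ht hb => ?_⟩
    by_cases h1 : ∃ a, mul4 t a = 1
    · obtain ⟨a, ha⟩ := h1
      rw [wedge_single hω t a ha, mul_zero]
      by_cases h2 : ∀ b, mul4 t b = 1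
      · exact absurd (bijective_of_mul4 t h2) hb
      · push Not at h2
        obtain ⟨b, hb'⟩ := h2
        exact h.other t ht a b ha hb'
    · push Not at h1
      obtain ⟨f, π, hf, rfl⟩ := exists_pairs t ht h1
      rw [vb_perm, vb_perm, hNf f hf, vb_sI_eq h _ hf0 _ f hf le_rfl]
      field_simp
  · refine ⟨0, fun t ht _ => ?_⟩
    have h1 := Fintype.card_le_of_injective t ht
    rw [Fintype.card_fin, Fintype.card_prod, Fintype.card_fin, Fintype.card_fin] at h1
    omega

/-- invariant forms in the degrees different from four -/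
theorem span_of_ne (h : RotInv B α) (hω : IsStd B ω w) (hw : w ≠ 0) (hk : k ≠ 2) :
    ∃ c : ℂ, α = c • wedge fun _ : Fin k => ω := by
  obtain ⟨c, hc⟩ := common h hω hw
  refine ⟨c, Basis.ext_alternating B fun t ht => ?_⟩
  refine (hc t ht fun hb => hk ?_).trans ?_
  · have h1 := Fintype.card_of_bijective hb
    rw [Fintype.card_fin, Fintype.card_fin] at h1
    omega
  · rfl

end common

section det

/-- the slots of a form of degree four -/
def e0 : Fin 4 ≃ Fin (2 * 2) := finCongr rfl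

variable {V : Type*} [AddCommGroup V] [Module ℂ V]

/-- pull-back of the determinant -/
noncomputable def dtL (L : V →ₗ[ℂ] (Fin 4 → ℂ)) : V [⋀^Fin (2 * 2)]→ₗ[ℂ] ℂ :=
  ((Matrix.detRowAlternating (R := ℂ) (n := Fin 4)).compLinearMap L).domDomCongr e0

lemma dtL_apply (L : V →ₗ[ℂ] (Fin 4 → ℂ)) (v : Fin (2 * 2) → V) :
    dtL L v = Matrix.detRowAlternating (fun i => L (v (e0 i))) := rfl

lemma dtL_update (L : V →ₗ[ℂ] (Fin 4 → ℂ)) (J : V → V) (μ : ℂ) (hJ : ∀ v, L (J v) = μ • L v)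
    (v : Fin (2 * 2) → V) (r : Fin (2 * 2)) :
    dtL L (Function.update v r (J (v r))) = μ * dtL L v := by
  rw [dtL_apply, dtL_apply]
  have h1 : (fun i => L (Function.update v r (J (v r)) (e0 i))) =
      Function.update (fun i => L (v (e0 i))) (e0.symm r) (μ • L (v r)) := by
    funext i
    by_cases hi : e0 i = r
    · subst hi
      rw [Function.update_self, Equiv.symm_apply_apply, Function.update_self, hJ]
    · rw [Function.update_of_ne hi, Function.update_of_ne]
      rintro rfl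
      exact hi (e0.apply_symm_apply r)
  rw [h1, AlternatingMap.map_update_smul, smul_eq_mul]
  congr 2
  have h2 : L (v r) = (fun i => L (v (e0 i))) (e0.symm r) := by
    show L (v r) = L (v (e0 (e0.symm r)))
    rw [Equiv.apply_symm_apply]
  rw [h2, Function.update_eq_self]

variable (B : Basis Ix ℂ V)

/-- the linear map `v ⊗ (x, y) ↦ (x + τ y) v` -/
noncomputable def LT (τ : ℂ) : V →ₗ[ℂ] (Fin 4 → ℂ) :=
  B.constr ℂ (fun c => τ ^ c.2.1 • Pi.single c.1 1)

lemma LT_apply (τ : ℂ) (c : Ix) : LT B τ (B c) = τ ^ c.2.1 • Pi.single c.1 1 := by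
  rw [LT, Basis.constr_basis]

lemma vb_dtL (τ : ℂ) (t : Fin (2 * 2) → Ix) : vb B (dtL (LT B τ)) t =
    (∏ i : Fin 4, τ ^ (t (e0 i)).2.1) *
      Matrix.detRowAlternating (fun i => Pi.single (M := fun _ => ℂ) (t (e0 i)).1 1) := by
  rw [vb, dtL_apply]
  have h1 : (fun i => LT B τ (B (t (e0 i)))) =
      fun i => τ ^ (t (e0 i)).2.1 • (Pi.single (t (e0 i)).1 1 : Fin 4 → ℂ) := by
    funext i
    rw [LT_apply]
  rw [h1]
  exact (Matrix.detRowAlternating (R := ℂ) (n := Fin 4)).toMultilinearMap.map_smul_univ _ _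

lemma vb_dtL_zero (τ : ℂ) (t : Fin (2 * 2) → Ix) (h : ¬ Function.Bijective fun r => (t r).1) :
    vb B (dtL (LT B τ)) t = 0 := by
  have h1 : ¬ Function.Injective fun r => (t r).1 := fun h2 =>
    h ((Fintype.bijective_iff_injective_and_card _).mpr ⟨h2, by simp⟩)
  rw [Function.Injective] at h1
  push Not at h1
  obtain ⟨r, s, hrs, hne⟩ := h1
  rw [vb_dtL, AlternatingMap.map_eq_zero_of_eq _ _ (i := e0.symm r) (j := e0.symm s) ?_ ?_,
    mul_zero]
  · rw [Equiv.apply_symm_apply, Equiv.apply_symm_apply, hrs]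
  · exact fun e => hne (e0.symm.injective e)

/-- the tuples with four different indices in the standard order -/
def tE (p : Fin 4 → Fin 2) (r : Fin (2 * 2)) : Ix := (e0.symm r, p (e0.symm r))

lemma vb_dtL_tE (τ : ℂ) (p : Fin 4 → Fin 2) :
    vb B (dtL (LT B τ)) (tE p) = τ ^ (∑ i, (p i).1) := by
  rw [vb_dtL]
  have h1 : ∀ i, tE p (e0 i) = (i, p i) := fun i => by
    rw [tE, Equiv.symm_apply_apply]
  have h2 : (fun i => Pi.single (M := fun _ : Fin 4 => ℂ) (tE p (e0 i)).1 (1 : ℂ)) =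
      (1 : Matrix (Fin 4) (Fin 4) ℂ) := by
    funext i
    rw [h1]
    funext j
    rw [Matrix.one_apply, Pi.single_apply]
    by_cases hij : i = j
    · rw [if_pos hij, if_pos hij.symm]
    · rw [if_neg hij, if_neg (Ne.symm hij)]
  rw [h2]
  have h3 : Matrix.detRowAlternating (1 : Matrix (Fin 4) (Fin 4) ℂ) = 1 := Matrix.det_one
  rw [h3, mul_one, ← Finset.prod_pow_eq_pow_sum]
  exact Finset.prod_congr rfl fun i _ => by rw [h1]

lemma exists_tE (t : Fin (2 * 2) → Ix) (h : Function.Bijective fun r => (t r).1) :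
    ∃ (p : Fin 4 → Fin 2) (π : Equiv.Perm (Fin (2 * 2))), t = tE p ∘ π := by
  obtain ⟨π, hπ⟩ : ∃ π : Equiv.Perm (Fin (2 * 2)), ∀ r, π r = e0 (t r).1 :=
    ⟨(Equiv.ofBijective _ h).trans e0, fun r => rfl⟩
  refine ⟨fun a => (t (π.symm (e0 a))).2, π, ?_⟩
  funext r
  rw [Function.comp_apply, tE]
  refine Prod.ext ?_ ?_
  · show (t r).1 = e0.symm (π r)
    rw [hπ, Equiv.symm_apply_apply]
  · show (t r).2 = (t (π.symm (e0 (e0.symm (π r))))).2
    rw [Equiv.apply_symm_apply, Equiv.symm_apply_apply]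

/-- sorted patterns -/
def pN (n : ℕ) (a : Fin 4) : Fin 2 := if a.1 < n then 1 else 0

lemma sort_pattern (p : Fin 4 → Fin 2) : ∃ σ : Equiv.Perm (Fin 4), p ∘ σ = pN (∑ i, (p i).1) := by
  revert p
  decide

variable {B}
variable {α : V [⋀^Fin (2 * 2)]→ₗ[ℂ] ℂ}

lemma vb_tE_swap (h : RotInv B α) (p : Fin 4 → Fin 2) (a b : Fin 4) (hab : a ≠ b) :
    vb B α (tE (p ∘ Equiv.swap a b)) = vb B α (tE p) := by
  have h1 : ∀ r, (tE p r).1 = e0.symm r := fun r => rfl
  have hne : e0 b ≠ e0 a := fun e => hab (e0.injective e.symm)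
  have h2 := h.r3 hab (tE p) (e0 b) (e0 a) hne (by rw [h1, Equiv.symm_apply_apply])
    (by rw [h1, Equiv.symm_apply_apply])
    (fun r' hr' e => hr' (by rw [← e, h1, Equiv.apply_symm_apply]))
    (fun r' hr' e => hr' (by rw [← e, h1, Equiv.apply_symm_apply]))
  rw [h2]
  congr 1
  funext r
  by_cases hra : r = e0 a
  · subst hra
    rw [Function.update_self, tE, tE, Equiv.symm_apply_apply, Function.comp_apply,
      Equiv.swap_apply_left, Equiv.symm_apply_apply]
  · rw [Function.update_of_ne hra]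
    by_cases hrb : r = e0 b
    · subst hrb
      rw [Function.update_self, tE, tE, Equiv.symm_apply_apply, Function.comp_apply,
        Equiv.swap_apply_right, Equiv.symm_apply_apply]
    · rw [Function.update_of_ne hrb, tE, tE, Function.comp_apply,
        Equiv.swap_apply_of_ne_of_ne (fun e => hra (by rw [← e, Equiv.apply_symm_apply]))
          (fun e => hrb (by rw [← e, Equiv.apply_symm_apply]))]

lemma vb_tE_perm (h : RotInv B α) (σ : Equiv.Perm (Fin 4)) :
    ∀ p : Fin 4 → Fin 2, vb B α (tE (p ∘ σ)) = vb B α (tE p) := by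
  induction σ using Equiv.Perm.swap_induction_on with
  | one => intro p; rfl
  | swap_mul f x y hxy ih =>
    intro p
    have h1 : p ∘ (Equiv.swap x y * f : Equiv.Perm (Fin 4)) = (p ∘ Equiv.swap x y) ∘ f := rfl
    rw [h1, ih, vb_tE_swap h p x y hxy]

lemma exists_vandermonde (τ : Fin 5 → ℂ) (hτ : Function.Injective τ) (y : Fin 5 → ℂ) :
    ∃ d : Fin 5 → ℂ, ∀ n : Fin 5, ∑ i, d i * τ i ^ n.1 = y n := by
  have h1 : (Matrix.vandermonde τ).det ≠ 0 := Matrix.det_vandermonde_ne_zero_iff.mpr hτ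
  refine ⟨Matrix.vecMul y (Matrix.vandermonde τ)⁻¹, fun n => ?_⟩
  have h2 : Matrix.vecMul (Matrix.vecMul y (Matrix.vandermonde τ)⁻¹) (Matrix.vandermonde τ) = y := by
    rw [Matrix.vecMul_vecMul, Matrix.nonsing_inv_mul _ (isUnit_iff_ne_zero.mpr h1),
      Matrix.vecMul_one]
  have h3 := congrFun h2 n
  rw [← h3]
  rfl

variable {ω : V →ₗ[ℂ] V →ₗ[ℂ] ℂ} {w : ℂ}

/-- invariant forms of degree four -/
theorem span_of_four (h : RotInv B α) (hω : IsStd B ω w) (hw : w ≠ 0) (τ : Fin 5 → ℂ)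
    (hτ : Function.Injective τ) :
    ∃ (c : ℂ) (d : Fin 5 → ℂ), α = c • (wedge fun _ : Fin 2 => ω) + ∑ i, d i • dtL (LT B (τ i)) := by
  obtain ⟨c, hc⟩ := common h hω hw
  obtain ⟨d, hd⟩ := exists_vandermonde τ hτ (fun n => vb B α (tE (pN n.1)))
  refine ⟨c, d, Basis.ext_alternating B fun t ht => ?_⟩
  have hsum : (c • (wedge fun _ : Fin 2 => ω) + ∑ i, d i • dtL (LT B (τ i)))
      (fun r => B (t r)) = c * vb B (wedge fun _ : Fin 2 => ω) t +
        ∑ i, d i * vb B (dtL (LT B (τ i))) t := by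
    let ev : (V [⋀^Fin (2 * 2)]→ₗ[ℂ] ℂ) →+ ℂ :=
      { toFun := fun ω => ω (fun r => B (t r)), map_zero' := rfl, map_add' := fun _ _ => rfl }
    have hs : (∑ i, d i • dtL (LT B (τ i))) (fun r => B (t r)) =
        ∑ i, d i * vb B (dtL (LT B (τ i))) t :=
      map_sum ev (fun i => d i • dtL (LT B (τ i))) univ
    rw [AlternatingMap.add_apply, hs]
    rfl
  rw [hsum]
  by_cases hb : Function.Bijective fun r => (t r).1
  · rw [wedge_single hω t 0 (mul4_of_bijective t hb 0), mul_zero, zero_add]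
    obtain ⟨p, π, rfl⟩ := exists_tE t hb
    obtain ⟨σ, hσ⟩ := sort_pattern p
    have hn : (∑ i, (p i).1) < 5 := by
      have h1 : ∑ i, (p i).1 ≤ ∑ i : Fin 4, 1 := Finset.sum_le_sum fun i _ => by omega
      simp only [Finset.sum_const, Finset.card_univ, Fintype.card_fin, smul_eq_mul] at h1
      omega
    have h2 : vb B α (tE p) = ∑ i, d i * τ i ^ (∑ i, (p i).1) := by
      rw [← vb_tE_perm h σ p, hσ]
      exact (hd ⟨_, hn⟩).symm
    show vb B α (tE p ∘ π) = _
    rw [vb_perm, h2, Finset.mul_sum]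
    refine Finset.sum_congr rfl fun i _ => ?_
    rw [vb_perm, vb_dtL_tE]
    ring
  · rw [Finset.sum_eq_zero fun i _ => by rw [vb_dtL_zero B (τ i) t hb, mul_zero], add_zero]
    exact hc t ht hb

end det

end Pool.Agent.Helper64
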