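import Pool.Agent.Helper64.AF.Quat4

/-!
Type III fourfolds over an imaginary quadratic field: every Grothendieck class is in the complex
span of the powers of the polarisation and of the Weil forms.
-/

namespace Pool.Agent.Helper64

open Module NumberField Pool.Agent.Helper7 Pool.Agent.Helper24 Pool.Agent.Helper8.D
open Pool.Agent.GPC

set_option linter.unusedSectionVars false

variable {I : Type} [Fintype I] [DecidableEq I] (A : I → AbVar) (n : I → ℕ)
  {K : Type} [Field K] [NumberField K] [IsCMField K]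
  (F : ∀ i, QF (pData (A i)) K 4)

section det

variable (i : I) (hI : ∀ j, j = i) (m : Fin (n i)) (hm : ∀ m', m' = m)
  (hκ : Fintype.card (Fin (A i).g ⊕ Fin (A i).g) = 8)
  (σ : K →+* ℂ) (Q Q' : Matrix (Fin 4) (Fin 4) ℂ) (h1 : Q * Q' = 1)
  (hS : (F i).sf σ = Q.transpose * Q)

/-- the determinants are eigenvectors for the Weil structures -/
lemma LT_NJ (x : K) (c : ℂ) (hxc : σ x = c) (hcx : (F i).cc x = -x) (b0 p q s : ℚ)
    (hb : (F i).b = (b0 : K)) (e1 : p - q * (s * b0) = 1) (e2 : q * b0 = s * b0 * (1 + p))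
    (v : H1 A n) :
    LT (BB n (fun i => pData (A i)) F i hI m hm hκ σ Q Q' h1 hS) ((s * b0 : ℚ) : ℂ)
      (lift n (NJ A F x p q) v) =
    c • LT (BB n (fun i => pData (A i)) F i hI m hm hκ σ Q Q' h1 hS) ((s * b0 : ℚ) : ℂ) v := by
  obtain ⟨B, hB⟩ : ∃ B, B = BB n (fun i => pData (A i)) F i hI m hm hκ σ Q Q' h1 hS := ⟨_, rfl⟩
  rw [← hB]
  have hBa : ∀ c, B c = slotL n i m (ub (F i) σ Q' c) := fun c => by rw [hB, BB_apply]
  have hjx : ∀ w, (F i).ρ x ((F i).j w) = - (F i).j ((F i).ρ x w) := by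
    intro w
    rw [(F i).jρ, hcx, rho_neg, neg_neg]
  have hN0 : ∀ a, lift n (NJ A F x p q) (B (a, 0)) =
      ((p : ℂ) * c) • B (a, 0) - ((q : ℂ) * c) • B (a, 1) := by
    intro a
    rw [hBa, hBa, lift_slot, ub_zero, ub_one, NJ_apply, hjx, rho_uu, hxc, map_smul, smul_neg,
      map_add, map_neg, map_smul, map_smul, map_smul, map_smul, smul_smul, smul_smul,
      ← sub_eq_add_neg]
  have hN1 : ∀ a, lift n (NJ A F x p q) (B (a, 1)) =
      -(((p : ℂ) * c) • B (a, 1)) + ((q : ℂ) * b0 * c) • B (a, 0) := by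
    intro a
    have hjj : ∀ w, (F i).j ((F i).j w) = (b0 : ℂ) • w := by
      intro w
      rw [(F i).jj, hb, rho_cast]
    rw [hBa, hBa, lift_slot, ub_zero, ub_one, NJ_apply, hjx, rho_uu, hxc, map_smul, hjj, map_smul,
      rho_uu, hxc, smul_neg, map_add, map_neg]
    simp only [map_smul, smul_smul]
    congr 2
    ring
  have key : (LT B ((s * b0 : ℚ) : ℂ)) ∘ₗ (lift n (NJ A F x p q)) =
      c • LT B ((s * b0 : ℚ) : ℂ) := by
    refine B.ext fun d => ?_
    obtain ⟨a, ε⟩ := d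
    have hcase : ∀ x : Fin 2, x = 0 ∨ x = 1 := by decide
    have e1' : (p : ℂ) - q * (s * b0) = 1 := by exact_mod_cast e1
    have e2' : (q : ℂ) * b0 = s * b0 * (1 + p) := by exact_mod_cast e2
    rcases hcase ε with rfl | rfl
    · rw [LinearMap.comp_apply, hN0, map_sub, map_smul, map_smul, LinearMap.smul_apply, LT_apply,
        LT_apply]
      show ((p : ℂ) * c) • ((((s * b0 : ℚ) : ℂ)) ^ 0 • (Pi.single a 1 : Fin 4 → ℂ)) -
        ((q : ℂ) * c) • ((((s * b0 : ℚ) : ℂ)) ^ 1 • (Pi.single a 1 : Fin 4 → ℂ)) =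
        c • ((((s * b0 : ℚ) : ℂ)) ^ 0 • (Pi.single a 1 : Fin 4 → ℂ))
      rw [smul_smul, smul_smul, smul_smul, ← sub_smul]
      congr 1
      push_cast
      linear_combination c * e1'
    · rw [LinearMap.comp_apply, hN1, map_add, map_neg, map_smul, map_smul, LinearMap.smul_apply,
        LT_apply, LT_apply]
      show -(((p : ℂ) * c) • ((((s * b0 : ℚ) : ℂ)) ^ 1 • (Pi.single a 1 : Fin 4 → ℂ))) +
        ((q : ℂ) * b0 * c) • ((((s * b0 : ℚ) : ℂ)) ^ 0 • (Pi.single a 1 : Fin 4 → ℂ)) =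
        c • ((((s * b0 : ℚ) : ℂ)) ^ 1 • (Pi.single a 1 : Fin 4 → ℂ))
      rw [smul_smul, smul_smul, smul_smul, ← neg_smul, ← add_smul]
      congr 1
      push_cast
      linear_combination c * e2'
  exact congrArg (fun g => g v) key

end det

/-- distinct parameters -/
lemma exists_params (b0 : ℚ) (hb0 : b0 ≠ 0) : ∃ s : Fin 5 → ℚ, Function.Injective s ∧
    ∀ r, 1 - (s r) ^ 2 * b0 ≠ 0 := by
  obtain ⟨N, hN⟩ := exists_nat_gt (1 / |b0|)
  have hb : 0 < |b0| := abs_pos.mpr hb0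
  rw [div_lt_iff₀ hb] at hN
  refine ⟨fun r => (N + 1 + r.1 : ℕ), fun r r' h => ?_, fun r h => ?_⟩
  · have h' : ((N + 1 + r.1 : ℕ) : ℚ) = ((N + 1 + r'.1 : ℕ) : ℚ) := h
    have h1 : N + 1 + r.1 = N + 1 + r'.1 := by exact_mod_cast h'
    exact Fin.ext (by omega)
  · have h1 : |(((N + 1 + r.1 : ℕ) : ℚ)) ^ 2 * b0| = 1 := by
      have h2 : (((N + 1 + r.1 : ℕ) : ℚ)) ^ 2 * b0 = 1 := by linear_combination -h
      rw [h2, abs_one]
    rw [abs_mul, abs_of_nonneg (by positivity)] at h1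
    have h3 : (N : ℚ) ≤ ((N + 1 + r.1 : ℕ) : ℚ) ^ 2 := by
      have h4 : N ≤ (N + 1 + r.1) ^ 2 :=
        le_trans (by omega) (Nat.le_self_pow two_ne_zero (N + 1 + r.1))
      exact_mod_cast h4
    nlinarith

/-- every Grothendieck class is in the span of powers of the polarisation and Weil forms -/
theorem quat_span (hd : finrank ℚ K = 2) (i : I) (hI : ∀ j, j = i) (hn : n i = 1)
    (hg : (A i).g = 4) (hcc : ∀ x, (F i).cc x = cmConj K x) (k : ℕ) (α : Form A n (2 * k))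
    (hα : IsGrothendieck A n k α) :
    α ∈ Submodule.span ℂ ({w | ∃ γ : Fin k → (H1 A n →ₗ[ℂ] H1 A n →ₗ[ℂ] ℂ),
      (∀ a, γ a ∈ GW n (fun i => pData (A i))) ∧ w = wedge γ} ∪ WeilForms A n k) := by
  obtain ⟨m, hm⟩ : ∃ m : Fin (n i), ∀ m', m' = m := by
    refine ⟨⟨0, by omega⟩, fun m' => Fin.ext ?_⟩
    have := m'.2
    show m'.1 = 0
    omega
  have hκ : Fintype.card (Fin (A i).g ⊕ Fin (A i).g) = 8 := by rw [card_index, hg]
  obtain ⟨σ⟩ : Nonempty (K →+* ℂ) := inferInstance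
  obtain ⟨Q, Q', h1, -, hS⟩ := exists_sqrt ((F i).sf σ) ((F i).sf_symm σ) ((F i).sf_det σ)
  obtain ⟨hα1, hα2⟩ := hα
  have hϖ := Complex.two_pi_I_ne_zero
  have hB : ∀ v : Fin (2 * k) → HW (fun i => Fin (A i).g ⊕ Fin (A i).g) n,
      (∀ r, IsRatP n (fun i => pData (A i)) (v r)) →
      ∃ q : ℚ, α v = (2 * Real.pi * Complex.I) ^ k * q := by
    intro v hv
    apply hα2
    intro r i m
    exact (mem_pData_Q _ _).mp (hv r i m)
  have hA : ∀ v : Fin (2 * k) → HW (fun i => Fin (A i).g ⊕ Fin (A i).g) n,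
      (∀ r i m j, IsAlgebraic ℚ (v r i m j)) → IsAlgebraic ℚ (α v) := hα1
  have hinv : RotInv (BB n (fun i => pData (A i)) F i hI m hm hκ σ Q Q' h1 hS) α :=
    rotInv n (fun i => pData (A i)) α F i hI m hm hκ σ Q Q' h1 hS hϖ hB hA
  have hstd := om_std n (fun i => pData (A i)) F i hI m hm hκ σ Q Q' h1 hS
  have hmem : (wedge fun _ : Fin k => om n (fun i => pData (A i)) i m) ∈
      Submodule.span ℂ ({w | ∃ γ : Fin k → (H1 A n →ₗ[ℂ] H1 A n →ₗ[ℂ] ℂ),
      (∀ a, γ a ∈ GW n (fun i => pData (A i))) ∧ w = wedge γ} ∪ WeilForms A n k) :=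
    Submodule.subset_span (Or.inl ⟨_, fun a => om_mem n (fun i => pData (A i)) i m, rfl⟩)
  by_cases hk : k = 2
  · subst hk
    obtain ⟨x, d, c, hd0, hx, -, hxc, hcx⟩ := exists_sqrt_neg hd σ
    rw [← hcc] at hcx
    obtain ⟨b0, hb⟩ := real_rat hd (F i).b (by rw [← hcc]; exact (F i).cc_b)
    have hb0 : b0 ≠ 0 := by
      rintro rfl
      exact (F i).b_ne (by rw [hb, Rat.cast_zero])
    obtain ⟨s, hs, hs1⟩ := exists_params b0 hb0
    obtain ⟨e, f, hef⟩ := span_of_four hinv hstd (by norm_num) (fun r => ((s r * b0 : ℚ) : ℂ))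
      (fun r r' h => hs (mul_right_cancel₀ hb0 (by
        have h' : ((s r * b0 : ℚ) : ℂ) = ((s r' * b0 : ℚ) : ℂ) := h
        exact_mod_cast h')))
    rw [hef]
    refine Submodule.add_mem _ (Submodule.smul_mem _ _ hmem)
      (Submodule.sum_mem _ fun r _ => Submodule.smul_mem _ _ (Submodule.subset_span (Or.inr ?_)))
    have hr := hs1 r
    have hgsum : ∑ j, n j * (A j).g = 4 := by
      rw [Finset.sum_eq_single i (fun j _ hj => absurd (hI j) hj)
        (fun h => absurd (Finset.mem_univ _) h), hn, hg]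
    refine ⟨⟨rfl, hgsum⟩, d, lift n (NJ A F x ((1 + s r ^ 2 * b0) / (1 - s r ^ 2 * b0))
      (2 * s r / (1 - s r ^ 2 * b0))), ?_, fun v r1 r2 => ?_⟩
    · refine isWeilStructure_NJ A n F hd i hI hn hg hcc x d b0 _ _ hd0 hx hcx hb ?_
      field_simp
      ring
    · have hL := LT_NJ A n F i hI m hm hκ σ Q Q' h1 hS x c hxc hcx b0
        ((1 + s r ^ 2 * b0) / (1 - s r ^ 2 * b0)) (2 * s r / (1 - s r ^ 2 * b0)) (s r) hb
        (by field_simp; ring) (by field_simp; ring)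
      rw [dtL_update _ _ c hL, dtL_update _ _ c hL]
  · obtain ⟨c, hc⟩ := span_of_ne hinv hstd (by norm_num) hk
    rw [hc]
    exact Submodule.smul_mem _ _ hmem

/-- the factors of type III -/
theorem exists_QF4' (A : AbVar) (ρ : K → A.H1 → A.H1) (j : A.H1 → A.H1) (b : K)
    (C : A.IsQuatMult K ρ j b) (hK : finrank ℚ K = 2) (hg : A.g = 4) :
    ∃ F : QF (pData A) K 4, ∀ x, F.cc x = cmConj K x := by
  obtain ⟨F⟩ := exists_QF4 A ρ j b C hK hg
  refine ⟨F, fun x => ?_⟩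
  obtain ⟨σ⟩ : Nonempty (K →+* ℂ) := inferInstance
  apply σ.injective
  rw [F.hcc]
  exact (IsCMField.complexEmbedding_complexConj K σ x).symm

/-- module M6 up to the rational descent -/
theorem quat_four_span {I : Type} [Fintype I] [DecidableEq I] (A : I → AbVar) (n : I → ℕ) (i : I)
    (hI : ∀ j, j = i) (hn : n i = 1) (K : Type) [Field K] [NumberField K] [IsCMField K]
    (ρ : K → (A i).H1 → (A i).H1) (j : (A i).H1 → (A i).H1) (b : K)
    (C : (A i).IsQuatMult K ρ j b) (hK : finrank ℚ K = 2) (hg : (A i).g = 4) (k : ℕ)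
    (α : Form A n (2 * k)) (hα : IsGrothendieck A n k α) :
    α ∈ Submodule.span ℂ ({w | ∃ γ : Fin k → (H1 A n →ₗ[ℂ] H1 A n →ₗ[ℂ] ℂ),
      (∀ a, γ a ∈ GW n (fun i => pData (A i))) ∧ w = wedge γ} ∪ WeilForms A n k) := by
  classical
  have hF : ∀ i', ∃ F : QF (pData (A i')) K 4, ∀ x, F.cc x = cmConj K x := by
    intro i'
    obtain rfl := hI i'
    exact exists_QF4' (A i') ρ j b C hK hg
  choose F hcc using hF
  exact quat_span A n F hK i hI hn hg (hcc i) k α hα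

end Pool.Agent.Helper64
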