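import Pool.Agent.Helper30.AF.Alt22
import Pool.Agent.Helper7.O.Orth5
import Pool.Agent.Helper7.WeylLite

/-!
An irreducible module of dimension four which is not self-dual: the image of the Lie algebra is the
full special linear Lie algebra.
-/

open Module LieAlgebra LieModule

namespace Pool.Agent.Helper64

open Pool.Agent.Helper7 Pool.Agent.Helper8 Pool.Agent.Helper30.AF

set_option linter.unusedSectionVars false

/-- a representation by matrices of size four -/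
structure Rep4 (L : Type*) [LieRing L] [LieAlgebra ℂ L] where
  m : L →ₗ[ℂ] (Fin 4 → Fin 4 → ℂ)
  br : ∀ x y a i, m ⁅x, y⁆ a i = ∑ c, m x a c * m y c i - ∑ c, m y a c * m x c i

/-- the action of a matrix on the exterior square -/
def cpd (X : Fin 4 → Fin 4 → ℂ) (w : Fin 6 → ℂ) : Fin 6 → ℂ :=
  ![(X 0 0 + X 1 1) * w 0 + X 1 2 * w 1 + X 1 3 * w 2 - X 0 2 * w 3 - X 0 3 * w 4,
    X 2 1 * w 0 + (X 0 0 + X 2 2) * w 1 + X 2 3 * w 2 + X 0 1 * w 3 - X 0 3 * w 5,
    X 3 1 * w 0 + X 3 2 * w 1 + (X 0 0 + X 3 3) * w 2 + X 0 1 * w 4 + X 0 2 * w 5,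
    - X 2 0 * w 0 + X 1 0 * w 1 + (X 1 1 + X 2 2) * w 3 + X 2 3 * w 4 - X 1 3 * w 5,
    - X 3 0 * w 0 + X 1 0 * w 2 + X 3 2 * w 3 + (X 1 1 + X 3 3) * w 4 + X 1 2 * w 5,
    - X 3 0 * w 1 + X 2 0 * w 2 - X 3 1 * w 3 + X 2 1 * w 4 + (X 2 2 + X 3 3) * w 5]

/-- the exterior product of two vectors -/
def wdg (u v : Fin 4 → ℂ) : Fin 6 → ℂ :=
  ![u 0 * v 1 - u 1 * v 0, u 0 * v 2 - u 2 * v 0, u 0 * v 3 - u 3 * v 0, u 1 * v 2 - u 2 * v 1,
    u 1 * v 3 - u 3 * v 1, u 2 * v 3 - u 3 * v 2]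

/-- the quadratic form -/
def b6 (x y : Fin 6 → ℂ) : ℂ :=
  x 0 * y 5 - x 1 * y 4 + x 2 * y 3 + x 3 * y 2 - x 4 * y 1 + x 5 * y 0

/-- the duality -/
def dot6 (x y : Fin 6 → ℂ) : ℂ :=
  x 0 * y 0 + x 1 * y 1 + x 2 * y 2 + x 3 * y 3 + x 4 * y 4 + x 5 * y 5

lemma cpd_add (X Y : Fin 4 → Fin 4 → ℂ) (w : Fin 6 → ℂ) :
    cpd (X + Y) w = cpd X w + cpd Y w := by
  funext r
  fin_cases r <;> simp [cpd] <;> ring

lemma cpd_smul (c : ℂ) (X : Fin 4 → Fin 4 → ℂ) (w : Fin 6 → ℂ) :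
    cpd (c • X) w = c • cpd X w := by
  funext r
  fin_cases r <;> simp [cpd] <;> ring

lemma cpd_add' (X : Fin 4 → Fin 4 → ℂ) (v w : Fin 6 → ℂ) :
    cpd X (v + w) = cpd X v + cpd X w := by
  funext r
  fin_cases r <;> simp [cpd] <;> ring

lemma cpd_smul' (c : ℂ) (X : Fin 4 → Fin 4 → ℂ) (w : Fin 6 → ℂ) :
    cpd X (c • w) = c • cpd X w := by
  funext r
  fin_cases r <;> simp [cpd] <;> ring

lemma cpd_br (X Y Z : Fin 4 → Fin 4 → ℂ)
    (h : ∀ a i, Z a i = ∑ c, X a c * Y c i - ∑ c, Y a c * X c i) (w : Fin 6 → ℂ) :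
    cpd X (cpd Y w) = cpd Z w + cpd Y (cpd X w) := by
  simp only [Fin.sum_univ_four] at h
  funext r
  fin_cases r <;> simp [cpd, h] <;> ring

lemma b6_cpd (X : Fin 4 → Fin 4 → ℂ) (x y : Fin 6 → ℂ) :
    b6 (cpd X x) y + b6 x (cpd X y) = (X 0 0 + X 1 1 + X 2 2 + X 3 3) * b6 x y := by
  simp [cpd, b6]
  ring

lemma cpd_wdg (X : Fin 4 → Fin 4 → ℂ) (u v : Fin 4 → ℂ) :
    cpd X (wdg u v) = wdg (fun a => ∑ c, X a c * u c) v + wdg u (fun a => ∑ c, X a c * v c) := by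
  simp only [Fin.sum_univ_four]
  funext r
  fin_cases r <;> simp [cpd, wdg] <;> ring

lemma dot6_cpd (X : Fin 4 → Fin 4 → ℂ) (x y : Fin 6 → ℂ) :
    dot6 (cpd X x) y = dot6 x (cpd (fun a i => X i a) y) := by
  simp [cpd, dot6]
  ring

section module

variable {L : Type*} [LieRing L] [LieAlgebra ℂ L] (R : Rep4 L)

/-- the exterior square -/
def W6 (_ : Rep4 L) : Type := Fin 6 → ℂ

instance : AddCommGroup (W6 R) := inferInstanceAs (AddCommGroup (Fin 6 → ℂ))
instance : Module ℂ (W6 R) := inferInstanceAs (Module ℂ (Fin 6 → ℂ))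
instance : FiniteDimensional ℂ (W6 R) := inferInstanceAs (FiniteDimensional ℂ (Fin 6 → ℂ))

instance : Bracket L (W6 R) := ⟨fun g w => cpd (R.m g) w⟩

lemma W6_lie (g : L) (w : W6 R) : ⁅g, w⁆ = cpd (R.m g) w := rfl

instance : LieRingModule L (W6 R) where
  add_lie x y w := by
    rw [W6_lie, W6_lie, W6_lie, map_add]
    exact cpd_add _ _ _
  lie_add x v w := cpd_add' _ _ _
  leibniz_lie x y w := cpd_br (R.m x) (R.m y) (R.m ⁅x, y⁆) (R.br x y) w

instance : LieModule ℂ L (W6 R) where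
  smul_lie c x w := by
    rw [W6_lie, W6_lie, map_smul]
    exact cpd_smul _ _ _
  lie_smul c x w := cpd_smul' _ _ _

lemma finrank_W6 : finrank ℂ (W6 R) = 6 := by
  have h : finrank ℂ (Fin 6 → ℂ) = 6 := by simp
  exact h

/-- the form on the exterior square -/
def bW : W6 R →ₗ[ℂ] W6 R →ₗ[ℂ] ℂ :=
  LinearMap.mk₂ ℂ (fun x y => b6 x y)
    (fun x x' y => by
      show b6 (fun i => x i + x' i) y = b6 x y + b6 x' y
      simp only [b6]; ring)
    (fun c x y => by
      show b6 (fun i => c * x i) y = c * b6 x y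
      simp only [b6]; ring)
    (fun x y y' => by
      show b6 x (fun i => y i + y' i) = b6 x y + b6 x y'
      simp only [b6]; ring)
    (fun c x y => by
      show b6 x (fun i => c * y i) = c * b6 x y
      simp only [b6]; ring)

lemma bW_apply (x y : W6 R) : bW R x y = b6 x y := rfl

lemma bW_orth (htr : ∀ g, R.m g 0 0 + R.m g 1 1 + R.m g 2 2 + R.m g 3 3 = 0) :
    Orth L (bW R) where
  symm x y := by
    simp only [bW_apply, b6]; ring
  nd x hx := by
    have h : ∀ s : Fin 6, b6 x (Pi.single s 1) = 0 := fun s => hx (Pi.single s 1 : Fin 6 → ℂ)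
    funext r
    show x r = 0
    have h0 := h 0
    have h1 := h 1
    have h2 := h 2
    have h3 := h 3
    have h4 := h 4
    have h5 := h 5
    simp [b6] at h0 h1 h2 h3 h4 h5
    fin_cases r <;> assumption
  inv g x y := by
    rw [bW_apply, bW_apply, W6_lie, W6_lie]
    have h := b6_cpd (R.m g) x y
    rw [htr, zero_mul] at h
    linear_combination h

/-- submodules of the exterior square are images of equivariant maps -/
lemma exists_equiv [FiniteDimensional ℂ L] [LieAlgebra.IsKilling ℂ L]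
    (N : LieSubmodule ℂ L (W6 R)) (w0 : W6 R) (hw0 : w0 ∈ N) (h0 : w0 ≠ 0) :
    ∃ (T : W6 R →ₗ[ℂ] W6 R) (c : ℂ), (∀ w, T w ∈ N) ∧ T w0 = c • w0 ∧ c ≠ 0 ∧
      ∀ (x : L) w, T ⁅x, w⁆ = ⁅x, T w⁆ := by
  obtain ⟨φ, hφ⟩ : ∃ φ : W6 R →ₗ[ℂ] ℂ, φ w0 ≠ 0 := by
    by_contra hcon
    push Not at hcon
    exact h0 ((Module.forall_dual_apply_eq_zero_iff ℂ w0).mp hcon)
  let M : LieSubmodule ℂ L (W6 R →ₗ[ℂ] W6 R) :=
    { carrier := {T | (∀ w, T w ∈ N) ∧ ∃ c : ℂ, ∀ w ∈ N, T w = c • w}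
      add_mem' := by
        rintro S T ⟨h1, c, h2⟩ ⟨h3, d, h4⟩
        refine ⟨fun w => N.add_mem (h1 w) (h3 w), c + d, fun w hw => ?_⟩
        rw [LinearMap.add_apply, h2 w hw, h4 w hw, add_smul]
      zero_mem' := ⟨fun w => N.zero_mem, 0, fun w hw => by
        rw [LinearMap.zero_apply, zero_smul]⟩
      smul_mem' := by
        rintro c T ⟨h1, d, h2⟩
        refine ⟨fun w => N.smul_mem c (h1 w), c * d, fun w hw => ?_⟩
        rw [LinearMap.smul_apply, h2 w hw, mul_smul]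
      lie_mem := by
        rintro x T ⟨h1, c, h2⟩
        refine ⟨fun w => ?_, 0, fun w hw => ?_⟩
        · rw [LieHom.lie_apply]
          exact N.sub_mem (N.lie_mem (h1 w)) (h1 _)
        · rw [LieHom.lie_apply, h2 w hw, h2 _ (N.lie_mem hw), lie_smul, sub_self, zero_smul] }
  let f : M →ₗ[ℂ] ℂ :=
    { toFun := fun T => φ (T.1 w0)
      map_add' := fun S T => map_add φ _ _
      map_smul' := fun c T => map_smul φ _ _ }
  have hf : f ≠ 0 := by
    obtain ⟨g, hg⟩ := LinearMap.exists_leftInverse_of_injective N.toSubmodule.subtype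
      (Submodule.ker_subtype _)
    have hg' : ∀ w (hw : w ∈ N), ((g w : N.toSubmodule) : W6 R) = w := by
      intro w hw
      have h1 := LinearMap.congr_fun hg ⟨w, hw⟩
      have h2 : g w = ⟨w, hw⟩ := h1
      rw [h2]
    intro h1
    apply hφ
    have h2 : f ⟨N.toSubmodule.subtype ∘ₗ g, fun w => (g w).2, 1, fun w hw => by
      rw [one_smul]; exact hg' w hw⟩ = φ w0 := by
      show φ ((g w0 : N.toSubmodule) : W6 R) = φ w0
      rw [hg' w0 hw0]
    rw [← h2, h1]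
    rfl
  obtain ⟨T, hT1, hT2⟩ := weyl_lite (L := L) _ M le_rfl f (by
    intro x T
    obtain ⟨T, h1, c, h2⟩ := T
    show φ ((⁅x, T⁆ : W6 R →ₗ[ℂ] W6 R) w0) = 0
    rw [LieHom.lie_apply, h2 w0 hw0, h2 _ (N.lie_mem hw0), lie_smul, sub_self, map_zero]) hf
  obtain ⟨T, h1, c, h2⟩ := T
  refine ⟨T, c, h1, h2 w0 hw0, ?_, fun x w => ?_⟩
  · rintro rfl
    apply hT2
    show φ (T w0) = 0
    rw [h2 w0 hw0, zero_smul, map_zero]
  · have h3 := congrArg (fun S : M => S.1 w) (hT1 x)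
    have h4 : (⁅x, T⁆ : W6 R →ₗ[ℂ] W6 R) w = 0 := h3
    rw [LieHom.lie_apply, sub_eq_zero] at h4
    exact h4.symm

end module

section main

variable {L : Type*} [LieRing L] [LieAlgebra ℂ L] [FiniteDimensional ℂ L]
    [LieAlgebra.IsKilling ℂ L] {V V' : Type*} [AddCommGroup V] [Module ℂ V] [LieRingModule L V]
    [LieModule ℂ L V] [FiniteDimensional ℂ V]
    [AddCommGroup V'] [Module ℂ V'] [LieRingModule L V'] [LieModule ℂ L V']
    [FiniteDimensional ℂ V'] {β : V →ₗ[ℂ] V' →ₗ[ℂ] ℂ}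
    {b : Basis (Fin 4) ℂ V} {b' : Basis (Fin 4) ℂ V'} (D : DB β b b')

include D in
/-- the representation by matrices -/
lemma mx_br (x y : L) (a i : Fin 4) : mx β b b' ⁅x, y⁆ a i =
    ∑ c, mx β b b' x a c * mx β b b' y c i - ∑ c, mx β b b' y a c * mx β b b' x c i := by
  have h1 : ∀ x y : L, β ⁅x, ⁅y, b i⁆⁆ (b' a) = ∑ c, mx β b b' x a c * mx β b b' y c i := by
    intro x y
    rw [D.lie y i, lie_sum, map_sum, LinearMap.sum_apply]
    refine Finset.sum_congr rfl fun c _ => ?_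
    rw [lie_smul, map_smul, LinearMap.smul_apply, smul_eq_mul, mul_comm]
    rfl
  rw [mx, lie_lie, map_sub, LinearMap.sub_apply, h1, h1]

/-- the representation by matrices -/
noncomputable def repR : Rep4 L where
  m := { toFun := fun g => mx β b b' g
         map_add' := fun x y => by
          funext a i
          show β ⁅x + y, b i⁆ (b' a) = β ⁅x, b i⁆ (b' a) + β ⁅y, b i⁆ (b' a)
          rw [add_lie, map_add, LinearMap.add_apply]
         map_smul' := fun c x => by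
          funext a i
          show β ⁅c • x, b i⁆ (b' a) = c • β ⁅x, b i⁆ (b' a)
          rw [smul_lie, map_smul, LinearMap.smul_apply] }
  br x y a i := mx_br D x y a i

lemma cpd_negT (X : Fin 4 → Fin 4 → ℂ) (w : Fin 6 → ℂ) :
    cpd (fun a c => - X c a) w = - cpd (fun a c => X c a) w := by
  funext r
  fin_cases r <;> simp [cpd] <;> ring

lemma wdg_add1 (u u' v : Fin 4 → ℂ) : wdg (u + u') v = wdg u v + wdg u' v := by
  funext r
  fin_cases r <;> simp [wdg] <;> ring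

lemma wdg_smul1 (c : ℂ) (u v : Fin 4 → ℂ) : wdg (c • u) v = c • wdg u v := by
  funext r
  fin_cases r <;> simp [wdg] <;> ring

lemma wdg_add2 (u v v' : Fin 4 → ℂ) : wdg u (v + v') = wdg u v + wdg u v' := by
  funext r
  fin_cases r <;> simp [wdg] <;> ring

lemma wdg_smul2 (c : ℂ) (u v : Fin 4 → ℂ) : wdg u (c • v) = c • wdg u v := by
  funext r
  fin_cases r <;> simp [wdg] <;> ring

lemma wdg_swap (u v : Fin 4 → ℂ) : wdg u v = - wdg v u := by
  funext r
  fin_cases r <;> simp [wdg] <;> ring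

lemma dot6_add1 (x x' y : Fin 6 → ℂ) : dot6 (x + x') y = dot6 x y + dot6 x' y := by
  simp only [dot6, Pi.add_apply]; ring

lemma dot6_smul1 (c : ℂ) (x y : Fin 6 → ℂ) : dot6 (c • x) y = c * dot6 x y := by
  simp only [dot6, Pi.smul_apply, smul_eq_mul]; ring

lemma dot6_add2 (x y y' : Fin 6 → ℂ) : dot6 x (y + y') = dot6 x y + dot6 x y' := by
  simp only [dot6, Pi.add_apply]; ring

lemma dot6_smul2 (c : ℂ) (x y : Fin 6 → ℂ) : dot6 x (c • y) = c * dot6 x y := by
  simp only [dot6, Pi.smul_apply, smul_eq_mul]; ring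

lemma dot6_neg1 (x y : Fin 6 → ℂ) : dot6 (-x) y = - dot6 x y := by
  simp only [dot6, Pi.neg_apply]; ring

lemma dot6_neg2 (x y : Fin 6 → ℂ) : dot6 x (-y) = - dot6 x y := by
  simp only [dot6, Pi.neg_apply]; ring

/-- pairing with products of two vectors -/
noncomputable def Qd (b' : Basis (Fin 4) ℂ V') (x : Fin 6 → ℂ) : V' →ₗ[ℂ] V' →ₗ[ℂ] ℂ :=
  LinearMap.mk₂ ℂ (fun u v => dot6 x (wdg (b'.equivFun u) (b'.equivFun v)))
    (fun u u' v => by rw [map_add, wdg_add1, dot6_add2])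
    (fun c u v => by rw [map_smul, wdg_smul1, dot6_smul2]; rfl)
    (fun u v v' => by rw [map_add, wdg_add2, dot6_add2])
    (fun c u v => by rw [map_smul, wdg_smul2, dot6_smul2]; rfl)

lemma Qd_apply (b' : Basis (Fin 4) ℂ V') (x : Fin 6 → ℂ) (u v : V') :
    Qd b' x u v = dot6 x (wdg (b'.equivFun u) (b'.equivFun v)) := rfl

lemma Qd_add (b' : Basis (Fin 4) ℂ V') (x y : Fin 6 → ℂ) : Qd b' (x + y) = Qd b' x + Qd b' y := by
  refine LinearMap.ext fun u => LinearMap.ext fun v => ?_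
  rw [LinearMap.add_apply, LinearMap.add_apply, Qd_apply, Qd_apply, Qd_apply, dot6_add1]

lemma Qd_smul (b' : Basis (Fin 4) ℂ V') (c : ℂ) (x : Fin 6 → ℂ) : Qd b' (c • x) = c • Qd b' x := by
  refine LinearMap.ext fun u => LinearMap.ext fun v => ?_
  rw [LinearMap.smul_apply, LinearMap.smul_apply, Qd_apply, Qd_apply, dot6_smul1]; rfl

/-- the four-linear form of an endomorphism of the exterior square -/
noncomputable def PhT (b : Basis (Fin 4) ℂ V) (b' : Basis (Fin 4) ℂ V')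
    (T : (Fin 6 → ℂ) →ₗ[ℂ] (Fin 6 → ℂ)) : V →ₗ[ℂ] V →ₗ[ℂ] V' →ₗ[ℂ] V' →ₗ[ℂ] ℂ :=
  LinearMap.mk₂ ℂ (fun u v => Qd b' (T (wdg (b.equivFun u) (b.equivFun v))))
    (fun u u' v => by rw [map_add, wdg_add1, map_add, Qd_add])
    (fun c u v => by rw [map_smul, wdg_smul1, map_smul, Qd_smul])
    (fun u v v' => by rw [map_add, wdg_add2, map_add, Qd_add])
    (fun c u v => by rw [map_smul, wdg_smul2, map_smul, Qd_smul])

lemma PhT_apply (b : Basis (Fin 4) ℂ V) (b' : Basis (Fin 4) ℂ V')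
    (T : (Fin 6 → ℂ) →ₗ[ℂ] (Fin 6 → ℂ)) (u v : V) (u' v' : V') : PhT b b' T u v u' v' =
      dot6 (T (wdg (b.equivFun u) (b.equivFun v))) (wdg (b'.equivFun u') (b'.equivFun v')) := rfl

include D in
lemma equivFun_lie (x : L) (u : V) :
    b.equivFun ⁅x, u⁆ = fun a => ∑ c, mx β b b' x a c * b.equivFun u c := by
  funext a
  rw [Basis.equivFun_apply, D.repr]
  conv_lhs => rw [← b.sum_equivFun u]
  rw [lie_sum, map_sum, LinearMap.sum_apply]
  refine Finset.sum_congr rfl fun c _ => ?_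
  rw [lie_smul, map_smul, LinearMap.smul_apply, smul_eq_mul, mul_comm]
  rfl

include D in
lemma equivFun_lie' (hβ : ∀ (x : L) u v, β ⁅x, u⁆ v + β u ⁅x, v⁆ = 0) (x : L) (u : V') :
    b'.equivFun ⁅x, u⁆ = fun a => ∑ c, (-mx β b b' x c a) * b'.equivFun u c := by
  funext a
  rw [Basis.equivFun_apply, D.repr']
  have h1 : β (b a) ⁅x, u⁆ = - β ⁅x, b a⁆ u := by linear_combination hβ x (b a) u
  rw [h1]
  conv_lhs => rw [← b'.sum_equivFun u]
  rw [map_sum, ← Finset.sum_neg_distrib]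
  refine Finset.sum_congr rfl fun c _ => ?_
  rw [map_smul, smul_eq_mul, neg_mul, mul_comm]
  rfl

/-- first components of the pairs -/
def pa : Fin 6 → Fin 4 := ![0, 0, 0, 1, 1, 2]

/-- second components of the pairs -/
def pb : Fin 6 → Fin 4 := ![1, 2, 3, 2, 3, 3]

lemma wdg_pair (r : Fin 6) : wdg (Pi.single (pa r) 1) (Pi.single (pb r) 1) = Pi.single r 1 := by
  funext s
  fin_cases r <;> fin_cases s <;> simp [wdg, pa, pb]

lemma dot6_single (x : Fin 6 → ℂ) (r : Fin 6) : dot6 x (Pi.single r 1) = x r := by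
  fin_cases r <;> simp [dot6]

lemma pair_delta (r s : Fin 6) : ((if pa r = pa s then 1 else 0) * (if pb r = pb s then 1 else 0) -
    (if pa r = pb s then 1 else 0) * (if pb r = pa s then 1 else 0) : ℂ) =
      if r = s then 1 else 0 := by
  fin_cases r <;> fin_cases s <;> simp [pa, pb]

variable [LieModule.IsIrreducible ℂ L V]

include D in
/-- the exterior square is irreducible -/
theorem W6_irr (hβ : ∀ (x : L) u v, β ⁅x, u⁆ v + β u ⁅x, v⁆ = 0)
    (hβ1 : ∀ u, (∀ v, β u v = 0) → u = 0) (hβ2 : ∀ v, (∀ u, β u v = 0) → v = 0)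
    (hns : ∀ γ : V →ₗ[ℂ] V →ₗ[ℂ] ℂ, (∀ (x : L) u v, γ ⁅x, u⁆ v + γ u ⁅x, v⁆ = 0) → γ = 0) :
    LieModule.IsIrreducible ℂ L (W6 (repR (L := L) D)) := by
  have hn : Nontrivial (W6 (repR (L := L) D)) := by
    apply Module.nontrivial_of_finrank_pos (R := ℂ)
    rw [finrank_W6]; norm_num
  refine LieModule.IsIrreducible.mk fun N hN => ?_
  obtain ⟨w0, hw0, h0⟩ : ∃ w ∈ N, w ≠ 0 := by
    by_contra hcon
    push Not at hcon
    exact hN ((LieSubmodule.eq_bot_iff N).mpr hcon)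
  obtain ⟨T, c0, hT1, hT2, hc0, hT3⟩ := exists_equiv (repR (L := L) D) N w0 hw0 h0
  obtain ⟨T', hT'⟩ : ∃ T' : (Fin 6 → ℂ) →ₗ[ℂ] (Fin 6 → ℂ), T' = T := ⟨T, rfl⟩
  have hT3' : ∀ (x : L) w, T' (cpd (mx β b b' x) w) = cpd (mx β b b' x) (T' w) := by
    intro x w
    rw [hT']
    exact hT3 x w
  have hm : ∀ x : L, (repR (L := L) D).m x = mx β b b' x := fun x => rfl
  obtain ⟨c, hc⟩ := alt22_four (V := V) (V' := V') (by
    rw [Module.finrank_eq_card_basis b, Fintype.card_fin]) β hβ hβ1 hβ2 hns (PhT b b' T')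
    (fun u v u' v' => by
      rw [PhT_apply, PhT_apply, wdg_swap (b.equivFun u), map_neg, dot6_neg1])
    (fun u v u' v' => by
      rw [PhT_apply, PhT_apply, wdg_swap (b'.equivFun u'), dot6_neg2])
    (fun x u v u' v' => by
      simp only [PhT_apply, equivFun_lie D, equivFun_lie' D hβ]
      rw [← dot6_add1, ← map_add, ← cpd_wdg, hT3', add_assoc, ← dot6_add2]
      have h1 := cpd_wdg (fun a c => -mx β b b' x c a) (b'.equivFun u') (b'.equivFun v')
      rw [← h1, dot6_cpd]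
      have h2 := cpd_negT (mx β b b' x) (wdg (b'.equivFun u') (b'.equivFun v'))
      rw [h2, dot6_neg2, add_neg_cancel])
  have hs : ∀ r s : Fin 6, T' (Pi.single r 1) s = c * if r = s then 1 else 0 := by
    intro r s
    have h1 := hc (b (pa r)) (b (pb r)) (b' (pa s)) (b' (pb s))
    rw [PhT_apply] at h1
    have e1 : ∀ i, b.equivFun (b i) = Pi.single i 1 := by
      intro i
      funext j
      rw [Basis.equivFun_self, Pi.single_apply]
      simp only [eq_comm]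
    have e2 : ∀ i, b'.equivFun (b' i) = Pi.single i 1 := by
      intro i
      funext j
      rw [Basis.equivFun_self, Pi.single_apply]
      simp only [eq_comm]
    rw [e1, e1, e2, e2, wdg_pair, wdg_pair, dot6_single, D.eq, D.eq, D.eq, D.eq] at h1
    rw [h1, pair_delta]
  have hTc : ∀ w, T' w = c • w := by
    intro w
    have h1 : T' = c • LinearMap.id := by
      refine (Pi.basisFun ℂ (Fin 6)).ext fun r => ?_
      funext s
      rw [Pi.basisFun_apply, hs, LinearMap.smul_apply, LinearMap.id_apply, Pi.smul_apply,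
        Pi.single_apply, smul_eq_mul]
      simp only [eq_comm]
    rw [h1]; rfl
  have hcc : c ≠ 0 := by
    rintro rfl
    have h1 := hTc w0
    rw [hT'] at h1
    have h2 : T w0 = 0 := h1.trans (zero_smul ℂ _)
    rw [h2] at hT2
    rcases smul_eq_zero.mp hT2.symm with h3 | h3
    · exact hc0 h3
    · exact h0 h3
  rw [eq_top_iff]
  intro w _
  have h1 : T w = c • w := by
    have h2 := hTc w
    rw [hT'] at h2
    exact h2
  have h2 : w = c⁻¹ • T w := by rw [h1, smul_smul, inv_mul_cancel₀ hcc, one_smul]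
  rw [h2]
  exact N.smul_mem _ (hT1 w)

include D in
/-- the image is the full special linear Lie algebra -/
theorem sl_four (hβ : ∀ (x : L) u v, β ⁅x, u⁆ v + β u ⁅x, v⁆ = 0)
    (hβ1 : ∀ u, (∀ v, β u v = 0) → u = 0) (hβ2 : ∀ v, (∀ u, β u v = 0) → v = 0)
    (hns : ∀ γ : V →ₗ[ℂ] V →ₗ[ℂ] ℂ, (∀ (x : L) u v, γ ⁅x, u⁆ v + γ u ⁅x, v⁆ = 0) → γ = 0)
    (Z : Fin 4 → Fin 4 → ℂ) (hZ : Z 0 0 + Z 1 1 + Z 2 2 + Z 3 3 = 0) :
    ∃ g : L, ∀ a i, mx β b b' g a i = Z a i := by
  have hirr := W6_irr D hβ hβ1 hβ2 hns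
  have ho := bW_orth (repR (L := L) D) (fun g => trace_zero D g)
  obtain ⟨g, hg⟩ := orth_six ho (finrank_W6 (repR (L := L) D))
    { toFun := fun w => cpd Z w
      map_add' := fun v w => cpd_add' Z v w
      map_smul' := fun c w => cpd_smul' c Z w } (fun u v => by
      have h := b6_cpd Z u v
      rw [hZ, zero_mul] at h
      show b6 (cpd Z u) v = - b6 u (cpd Z v)
      linear_combination h)
  refine ⟨g, ?_⟩
  have h1 : ∀ r s : Fin 6, cpd (mx β b b' g) (Pi.single r 1) s = cpd Z (Pi.single r 1) s := by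
    intro r s
    exact congrFun (hg (Pi.single r 1 : Fin 6 → ℂ)) s
  obtain ⟨X, hX⟩ : ∃ X : Fin 4 → Fin 4 → ℂ, X = mx β b b' g := ⟨_, rfl⟩
  rw [← hX] at h1 ⊢
  have a10 := h1 1 3
  have a20 := h1 0 3
  have a30 := h1 0 4
  have a01 := h1 3 1
  have a21 := h1 0 1
  have a31 := h1 0 2
  have a02 := h1 3 0
  have a12 := h1 1 0
  have a32 := h1 1 2
  have a03 := h1 4 0
  have a13 := h1 2 0
  have a23 := h1 2 1
  have d01 := h1 0 0
  have d02 := h1 1 1
  have d03 := h1 2 2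
  have d12 := h1 3 3
  simp [cpd] at a10 a20 a30 a01 a21 a31 a02 a12 a32 a03 a13 a23 d01 d02 d03 d12
  have d0 : X 0 0 = Z 0 0 := by linear_combination (d01 + d02 - d12) / 2
  have d1 : X 1 1 = Z 1 1 := by linear_combination d01 - d0
  have d2 : X 2 2 = Z 2 2 := by linear_combination d02 - d0
  have d3 : X 3 3 = Z 3 3 := by linear_combination d03 - d0
  intro a i
  fin_cases a <;> fin_cases i <;> assumption

end main

end Pool.Agent.Helper64
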