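import Pool.Agent.Helper64.AF.Alt4

/-!
Alternating forms on `V ⊕ V'`, `dim V = 4`, which are invariant under the special linear Lie
algebra of `V`: powers of the pairing and the two determinants.
-/

namespace Pool.Agent.Helper64

open Module Finset Pool.Agent.Helper7

section op

variable {V : Type*} [AddCommGroup V] [Module ℂ V] (B : Basis Ix ℂ V)

/-- the action of a matrix on the sum of a vector space and its dual -/
noncomputable def glo (Z : Fin 4 → Fin 4 → ℂ) : Module.End ℂ V :=
  B.constr ℂ (fun c => if c.2 = 0 then ∑ a, Z a c.1 • B (a, 0) else - ∑ a, Z c.1 a • B (a, 1))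

lemma glo_zero (Z : Fin 4 → Fin 4 → ℂ) (i : Fin 4) :
    glo B Z (B (i, 0)) = ∑ a, Z a i • B (a, 0) := by
  rw [glo, Basis.constr_basis, if_pos rfl]

lemma glo_one (Z : Fin 4 → Fin 4 → ℂ) (i : Fin 4) :
    glo B Z (B (i, 1)) = - ∑ a, Z i a • B (a, 1) := by
  rw [glo, Basis.constr_basis, if_neg (show ¬ (1 : Fin 2) = 0 by decide)]

/-- elementary matrices -/
def eM (a b : Fin 4) (x y : Fin 4) : ℂ := if x = a ∧ y = b then 1 else 0

lemma glo_eM (a b : Fin 4) (c : Ix) : glo B (eM a b) (B c) =
    if c = (b, 0) then B (a, 0) else if c = (a, 1) then - B (b, 1) else 0 := by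
  obtain ⟨i, ε⟩ := c
  have hcase : ∀ x : Fin 2, x = 0 ∨ x = 1 := by decide
  rcases hcase ε with rfl | rfl
  · rw [glo_zero]
    have h2 : ¬ ((i, (0 : Fin 2)) = (a, 1)) := fun h => by
      have := (Prod.mk.inj h).2
      exact absurd this (by decide)
    rw [if_neg h2]
    by_cases h : i = b
    · subst h
      rw [if_pos rfl, Finset.sum_eq_single a]
      · rw [eM, if_pos ⟨rfl, rfl⟩, one_smul]
      · intro x _ hx
        rw [eM, if_neg (fun h => hx h.1), zero_smul]
      · intro h; exact absurd (Finset.mem_univ _) h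
    · rw [if_neg (fun e => h (Prod.mk.inj e).1)]
      exact Finset.sum_eq_zero fun x _ => by rw [eM, if_neg (fun e => h e.2), zero_smul]
  · rw [glo_one]
    have h2 : ¬ ((i, (1 : Fin 2)) = (b, 0)) := fun h => by
      have := (Prod.mk.inj h).2
      exact absurd this (by decide)
    rw [if_neg h2]
    by_cases h : i = a
    · subst h
      rw [if_pos rfl, Finset.sum_eq_single b]
      · rw [eM, if_pos ⟨rfl, rfl⟩, one_smul]
      · intro x _ hx
        rw [eM, if_neg (fun h => hx h.2), zero_smul]
      · intro h; exact absurd (Finset.mem_univ _) h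
    · rw [if_neg (fun e => h (Prod.mk.inj e).1), neg_eq_zero]
      exact Finset.sum_eq_zero fun x _ => by rw [eM, if_neg (fun e => h e.1), zero_smul]

/-- diagonal matrices -/
def dM (z : Fin 4 → ℂ) (x y : Fin 4) : ℂ := if x = y then z x else 0

/-- the sign of the second component -/
def sg (ε : Fin 2) : ℂ := if ε = 0 then 1 else -1

lemma glo_dM (z : Fin 4 → ℂ) (c : Ix) : glo B (dM z) (B c) = (z c.1 * sg c.2) • B c := by
  obtain ⟨i, ε⟩ := c
  have hcase : ∀ x : Fin 2, x = 0 ∨ x = 1 := by decide
  rcases hcase ε with rfl | rfl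
  · rw [glo_zero, Finset.sum_eq_single i]
    · rw [dM, if_pos rfl, sg, if_pos rfl, mul_one]
    · intro x _ hx
      rw [dM, if_neg hx, zero_smul]
    · intro h; exact absurd (Finset.mem_univ _) h
  · rw [glo_one, Finset.sum_eq_single i]
    · rw [dM, if_pos rfl, sg, if_neg (show ¬ (1 : Fin 2) = 0 by decide), mul_neg, mul_one, neg_smul]
    · intro x _ hx
      rw [dM, if_neg (Ne.symm hx), zero_smul]
    · intro h; exact absurd (Finset.mem_univ _) h

variable {m : ℕ} (α : V [⋀^Fin m]→ₗ[ℂ] ℂ)

/-- invariance under the special linear Lie algebra -/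
def SlInv : Prop := ∀ Z : Fin 4 → Fin 4 → ℂ, Z 0 0 + Z 1 1 + Z 2 2 + Z 3 3 = 0 →
  ∀ v : Fin m → V, ∑ r, α (Function.update v r (glo B Z (v r))) = 0

/-- number of slots with a given basis vector -/
def nn (t : Fin m → Ix) (c : Ix) : ℕ := (univ.filter fun r => t r = c).card

lemma nn_le (t : Fin m → Ix) (ht : Function.Injective t) (c : Ix) : nn t c ≤ 1 := by
  rw [nn, Finset.card_le_one]
  intro r hr s hs
  rw [Finset.mem_filter] at hr hs
  exact ht (hr.2.trans hs.2.symm)

lemma mul4_nn (t : Fin m → Ix) (a : Fin 4) : mul4 t a = nn t (a, 0) + nn t (a, 1) := by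
  classical
  rw [mul4, nn, nn, ← Finset.card_union_of_disjoint]
  · congr 1
    ext r
    rw [Finset.mem_union, Finset.mem_filter, Finset.mem_filter, Finset.mem_filter]
    have hcase : ∀ x : Fin 2, x = 0 ∨ x = 1 := by decide
    constructor
    · rintro ⟨-, h⟩
      rcases hcase (t r).2 with h1 | h1
      · exact Or.inl ⟨Finset.mem_univ _, Prod.ext h h1⟩
      · exact Or.inr ⟨Finset.mem_univ _, Prod.ext h h1⟩
    · rintro (⟨-, h⟩ | ⟨-, h⟩)
      · exact ⟨Finset.mem_univ _, by rw [h]⟩
      · exact ⟨Finset.mem_univ _, by rw [h]⟩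
  · rw [Finset.disjoint_filter]
    intro r _ h1 h2
    rw [h1] at h2
    exact absurd (Prod.mk.inj h2).2 (by decide)

variable {B α}

lemma upd_basis (t : Fin m → Ix) (r : Fin m) (c : Ix) :
    Function.update (fun r => B (t r)) r (B c) = fun r' => B (Function.update t r c r') := by
  funext r'
  by_cases hr : r' = r
  · subst hr; rw [Function.update_self, Function.update_self]
  · rw [Function.update_of_ne hr, Function.update_of_ne hr]

lemma SlInv.diag (h : SlInv B α) (t : Fin m → Ix) (a b : Fin 4) :
    (((nn t (a, 0) : ℂ) - nn t (a, 1)) - ((nn t (b, 0) : ℂ) - nn t (b, 1))) * vb B α t = 0 := by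
  classical
  obtain ⟨z, hz⟩ : ∃ z : Fin 4 → ℂ, z = Pi.single a 1 - Pi.single b 1 := ⟨_, rfl⟩
  have hz0 : ∑ i, z i = 0 := by
    rw [hz]
    simp only [Pi.sub_apply, Finset.sum_sub_distrib, Finset.sum_pi_single', Finset.mem_univ,
      if_true, sub_self]
  rw [Fin.sum_univ_four] at hz0
  have h1 := h (dM z) (by simpa [dM] using hz0) (fun r => B (t r))
  have h2 : ∀ r, α (Function.update (fun r => B (t r)) r (glo B (dM z) (B (t r)))) =
      (z (t r).1 * sg (t r).2) * vb B α t := by
    intro r
    rw [glo_dM, AlternatingMap.map_update_smul, smul_eq_mul, Function.update_eq_self]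
    rfl
  rw [Finset.sum_congr rfl fun r _ => h2 r, ← Finset.sum_mul] at h1
  have h3 : ∑ r, z (t r).1 * sg (t r).2 =
      ((nn t (a, 0) : ℂ) - nn t (a, 1)) - ((nn t (b, 0) : ℂ) - nn t (b, 1)) := by
    have h4 : ∑ r, z (t r).1 * sg (t r).2 = ∑ c : Ix, (nn t c : ℂ) * (z c.1 * sg c.2) := by
      rw [← Finset.sum_fiberwise_of_maps_to (s := univ) (t := (univ : Finset Ix)) (g := t)
        (fun _ _ => Finset.mem_univ _)]
      refine Finset.sum_congr rfl fun c _ => ?_
      rw [nn, ← nsmul_eq_mul, ← Finset.sum_const]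
      refine Finset.sum_congr rfl fun r hr => ?_
      rw [(Finset.mem_filter.mp hr).2]
    have e0 : sg 0 = 1 := rfl
    have e1 : sg 1 = -1 := by rw [sg, if_neg (show ¬ (1 : Fin 2) = 0 by decide)]
    rw [h4, Fintype.sum_prod_type]
    simp only [Fin.sum_univ_two, e0, e1]
    have h5 : ∀ x : Fin 4, (nn t (x, 0) : ℂ) * (z x * 1) + (nn t (x, 1) : ℂ) * (z x * -1) =
        (Pi.single a (1 : ℂ) : Fin 4 → ℂ) x * ((nn t (x, 0) : ℂ) - nn t (x, 1)) -
        (Pi.single b (1 : ℂ) : Fin 4 → ℂ) x * ((nn t (x, 0) : ℂ) - nn t (x, 1)) := by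
      intro x
      rw [hz, Pi.sub_apply]
      ring
    rw [Finset.sum_congr rfl fun x _ => h5 x, Finset.sum_sub_distrib]
    congr 1
    · rw [Finset.sum_eq_single a]
      · rw [Pi.single_eq_same, one_mul]
      · intro x _ hx; rw [Pi.single_eq_of_ne hx, zero_mul]
      · intro h; exact absurd (Finset.mem_univ _) h
    · rw [Finset.sum_eq_single b]
      · rw [Pi.single_eq_same, one_mul]
      · intro x _ hx; rw [Pi.single_eq_of_ne hx, zero_mul]
      · intro h; exact absurd (Finset.mem_univ _) h
  rw [h3] at h1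
  exact h1

lemma SlInv.wt (h : SlInv B α) (t : Fin m → Ix) (hv : vb B α t ≠ 0) (a b : Fin 4) :
    nn t (a, 0) + nn t (b, 1) = nn t (b, 0) + nn t (a, 1) := by
  have h1 := (mul_eq_zero.mp (h.diag t a b)).resolve_right hv
  have h2 : ((nn t (a, 0) + nn t (b, 1) : ℕ) : ℂ) = ((nn t (b, 0) + nn t (a, 1) : ℕ) : ℂ) := by
    push_cast
    linear_combination h1
  exact_mod_cast h2

end op

section move

variable {V : Type*} [AddCommGroup V] [Module ℂ V] {B : Basis Ix ℂ V}
  {k : ℕ} {α : V [⋀^Fin (2 * k)]→ₗ[ℂ] ℂ}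

lemma SlInv.move (h : SlInv B α) (f : Fin k → Fin 4) (hf : Function.Injective f) (c : Fin k)
    (a : Fin 4) (ha : ∀ c', f c' ≠ a) :
    vb B α (sI (Function.update f c a)) = vb B α (sI f) := by
  classical
  have hab : a ≠ f c := fun e => ha c e.symm
  obtain ⟨s, hs⟩ : ∃ s, s = Function.update (sI f) (hi c) (a, 1) := ⟨_, rfl⟩
  have h1 := h (eM a (f c)) (by
    simp only [eM]
    have h2 : ∀ x : Fin 4, ¬ (x = a ∧ x = f c) := fun x hx => hab (hx.1.symm.trans hx.2)
    rw [if_neg (h2 0), if_neg (h2 1), if_neg (h2 2), if_neg (h2 3)]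
    ring) (fun r => B (s r))
  have hslo : s (lo c) = (f c, 0) := by
    rw [hs, Function.update_of_ne (lo_ne_hi c c), sI_lo]
  have hshi : s (hi c) = (a, 1) := by rw [hs, Function.update_self]
  rw [Finset.sum_eq_add (lo c) (hi c) (lo_ne_hi c c)] at h1
  · have h2 : (a, (1 : Fin 2)) ≠ (f c, 0) := fun e => absurd (Prod.mk.inj e).2 (by decide)
    have h3 : Function.update (fun r => B (s r)) (hi c) (-B (f c, 1)) =
        Function.update (fun r => B (s r)) (hi c) ((-1 : ℂ) • B (f c, 1)) := by
      rw [neg_one_smul]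
    rw [glo_eM, glo_eM, hslo, hshi, if_pos rfl, if_neg h2, if_pos rfl, h3,
      AlternatingMap.map_update_smul, upd_basis, upd_basis] at h1
    have e1 : Function.update s (lo c) (a, 0) = sI (Function.update f c a) := by
      rw [hs, sI_update]
    have e2 : Function.update s (hi c) (f c, 1) = sI f := by
      rw [hs, Function.update_idem, ← sI_hi, Function.update_eq_self]
    rw [e1, e2] at h1
    have h4 : vb B α (sI (Function.update f c a)) + (-1 : ℂ) • vb B α (sI f) = 0 := h1
    rw [smul_eq_mul] at h4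
    linear_combination h4
  · rintro r _ ⟨h2, h3⟩
    have h4 : s r = sI f r := by rw [hs, Function.update_of_ne h3]
    have h5 : glo B (eM a (f c)) (B (s r)) = 0 := by
      rw [glo_eM, h4]
      obtain ⟨b, rfl | rfl⟩ := eq_lo_or_hi r
      · rw [sI_lo, if_neg, if_neg]
        · exact fun e => absurd (Prod.mk.inj e).2 (by decide)
        · exact fun e => h2 (by rw [hf (Prod.mk.inj e).1])
      · rw [sI_hi, if_neg, if_neg]
        · exact fun e => ha b (Prod.mk.inj e).1
        · exact fun e => absurd (Prod.mk.inj e).2 (by decide)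
    show α (Function.update (fun r => B (s r)) r (glo B (eM a (f c)) (B (s r)))) = 0
    rw [h5]
    exact α.map_coord_zero r (Function.update_self r 0 (fun r => B (s r)))
  · intro h; exact absurd (Finset.mem_univ _) h
  · intro h; exact absurd (Finset.mem_univ _) h

/-- the values on tuples of pairs are all the same -/
lemma SlInv.sI_eq (h : SlInv B α) (g : Fin k → Fin 4) (hg : Function.Injective g) :
    ∀ (N : ℕ) (f : Fin k → Fin 4), Function.Injective f →
      (univ.filter fun c => f c ≠ g c).card ≤ N → vb B α (sI f) = vb B α (sI g) := by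
  intro N
  induction N with
  | zero =>
    intro f _ hN
    have h1 : f = g := by
      funext c
      by_contra hc
      have h2 : c ∈ univ.filter fun c => f c ≠ g c := by simp [hc]
      rw [Nat.le_zero, Finset.card_eq_zero] at hN
      rw [hN] at h2
      exact absurd h2 (Finset.notMem_empty c)
    rw [h1]
  | succ N ih =>
    intro f hf hN
    by_cases hfg : f = g
    · rw [hfg]
    obtain ⟨c, hc⟩ := Function.ne_iff.mp hfg
    have hcm : c ∈ univ.filter fun c => f c ≠ g c := by simp [hc]
    by_cases hex : ∃ c', f c' = g c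
    · obtain ⟨c', hc'⟩ := hex
      have hcc : c ≠ c' := by rintro rfl; exact hc hc'
      rw [← vb_swap B α f c c' hcc]
      refine ih _ (hf.comp (Equiv.injective _)) ?_
      have hsub : (univ.filter fun b => (f ∘ Equiv.swap c c') b ≠ g b) ⊆
          (univ.filter fun b => f b ≠ g b).erase c := by
        intro b hb
        rw [Finset.mem_filter] at hb
        rw [Finset.mem_erase, Finset.mem_filter]
        have hbc : b ≠ c := by
          rintro rfl
          apply hb.2
          rw [Function.comp_apply, Equiv.swap_apply_left, hc']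
        refine ⟨hbc, Finset.mem_univ _, ?_⟩
        by_cases hbc' : b = c'
        · subst hbc'
          rw [hc']
          exact fun e => hcc (hg e)
        · have h3 := hb.2
          rwa [Function.comp_apply, Equiv.swap_apply_of_ne_of_ne hbc hbc'] at h3
      have h4 := Finset.card_le_card hsub
      rw [Finset.card_erase_of_mem hcm] at h4
      omega
    · push Not at hex
      rw [← h.move f hf c (g c) hex]
      refine ih _ ?_ ?_
      · intro x y hxy
        by_cases hx : x = c
        · by_cases hy : y = c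
          · rw [hx, hy]
          · rw [hx, Function.update_self, Function.update_of_ne hy] at hxy
            exact absurd hxy.symm (hex y)
        · by_cases hy : y = c
          · rw [hy, Function.update_self, Function.update_of_ne hx] at hxy
            exact absurd hxy (hex x)
          · rw [Function.update_of_ne hx, Function.update_of_ne hy] at hxy
            exact hf hxy
      · have hsub : (univ.filter fun b => Function.update f c (g c) b ≠ g b) ⊆
            (univ.filter fun b => f b ≠ g b).erase c := by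
          intro b hb
          rw [Finset.mem_filter] at hb
          rw [Finset.mem_erase, Finset.mem_filter]
          have hbc : b ≠ c := by
            rintro rfl
            apply hb.2
            rw [Function.update_self]
          refine ⟨hbc, Finset.mem_univ _, ?_⟩
          have h3 := hb.2
          rwa [Function.update_of_ne hbc] at h3
        have h4 := Finset.card_le_card hsub
        rw [Finset.card_erase_of_mem hcm] at h4
        omega

variable {ω : V →ₗ[ℂ] V →ₗ[ℂ] ℂ} {w : ℂ}

/-- the tuples which are not given by one of the two determinants -/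
theorem SlInv.common (h : SlInv B α) (hω : IsStd B ω w) (hw : w ≠ 0) : ∃ c : ℂ,
    ∀ t, Function.Injective t →
      (vb B α t = c * vb B (wedge fun _ : Fin k => ω) t ∧ ∃ r s, (t r).2 ≠ (t s).2) ∨
      (vb B α t = c * vb B (wedge fun _ : Fin k => ω) t ∧
        ¬ Function.Bijective (fun r => (t r).1)) ∨
      ∃ ε, (∀ r, (t r).2 = ε) ∧ Function.Bijective (fun r => (t r).1) := by
  obtain ⟨N, hN, hNf⟩ := wedge_pairs hω k
  have hne : ((N : ℂ) * w ^ k) ≠ 0 := mul_ne_zero (by exact_mod_cast hN) (pow_ne_zero _ hw)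
  by_cases hk : k ≤ 4
  · have hf0 : Function.Injective (Fin.castLE hk) := Fin.castLE_injective hk
    refine ⟨vb B α (sI (Fin.castLE hk)) / (N * w ^ k), fun t ht => ?_⟩
    by_cases h1 : ∃ a, mul4 t a = 1
    · obtain ⟨a, ha⟩ := h1
      by_cases hv : vb B α t = 0
      · by_cases hb : Function.Bijective (fun r => (t r).1)
        · by_cases hex : ∃ r s, (t r).2 ≠ (t s).2
          · left
            exact ⟨by rw [wedge_single hω t a ha, mul_zero, hv], hex⟩
          · right; right
            push Not at hex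
            obtain ⟨r0, -⟩ := hb.2 0
            exact ⟨(t r0).2, fun r => hex r r0, hb⟩
        · right; left
          exact ⟨by rw [wedge_single hω t a ha, mul_zero, hv], hb⟩
      · right; right
        have hall : ∀ b, nn t (b, 0) = nn t (a, 0) ∧ nn t (b, 1) = nn t (a, 1) := by
          intro b
          have h2 := h.wt t hv a b
          have h3 := nn_le t ht (b, 0)
          have h4 := nn_le t ht (b, 1)
          have h5 := nn_le t ht (a, 0)
          have h6 := nn_le t ht (a, 1)
          rw [mul4_nn] at ha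
          omega
        have hm : ∀ b, mul4 t b = 1 := by
          intro b
          rw [mul4_nn, (hall b).1, (hall b).2, ← mul4_nn, ha]
        have hb := bijective_of_mul4 t hm
        obtain ⟨r0, hr0⟩ := hb.2 a
        refine ⟨(t r0).2, fun r => ?_, hb⟩
        have hcase : ∀ x : Fin 2, x = 0 ∨ x = 1 := by decide
        have hpos : ∀ r, 1 ≤ nn t (t r) := by
          intro r
          rw [nn, Nat.one_le_iff_ne_zero, Finset.card_ne_zero]
          exact ⟨r, by simp⟩
        have p1 := hpos r
        have p2 := hpos r0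
        have e1 : t r = ((t r).1, (t r).2) := rfl
        have e2 : t r0 = (a, (t r0).2) := Prod.ext hr0 rfl
        rw [e1] at p1
        rw [e2] at p2
        rw [mul4_nn] at ha
        have h7 := hall (t r).1
        rcases hcase (t r).2 with h2 | h2 <;> rcases hcase (t r0).2 with h3 | h3
        · rw [h2, h3]
        · rw [h2] at p1; rw [h3] at p2; omega
        · rw [h2] at p1; rw [h3] at p2; omega
        · rw [h2, h3]
    · push Not at h1
      obtain ⟨f, π, hf, rfl⟩ := exists_pairs t ht h1
      have hval : vb B α (sI f ∘ π) = vb B α (sI (Fin.castLE hk)) / (N * w ^ k) *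
          vb B (wedge fun _ : Fin k => ω) (sI f ∘ π) := by
        rw [vb_perm, vb_perm, hNf f hf, h.sI_eq _ hf0 _ f hf le_rfl]
        field_simp
      right; left
      refine ⟨hval, fun hb => ?_⟩
      exact h1 0 (mul4_of_bijective _ hb 0)
  · refine ⟨0, fun t ht => ?_⟩
    have h1 := Fintype.card_le_of_injective t ht
    rw [Fintype.card_fin, Fintype.card_prod, Fintype.card_fin, Fintype.card_fin] at h1
    omega

/-- invariant forms in the degrees different from four -/
theorem SlInv.span_of_ne (h : SlInv B α) (hω : IsStd B ω w) (hw : w ≠ 0) (hk : k ≠ 2) :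
    ∃ c : ℂ, α = c • wedge fun _ : Fin k => ω := by
  obtain ⟨c, hc⟩ := h.common hω hw
  refine ⟨c, Basis.ext_alternating B fun t ht => ?_⟩
  have h2 : vb B α t = c * vb B (wedge fun _ : Fin k => ω) t := by
    rcases hc t ht with h1 | h1 | ⟨ε, -, hb⟩
    · exact h1.1
    · exact h1.1
    · exfalso
      apply hk
      have h1 := Fintype.card_of_bijective hb
      rw [Fintype.card_fin, Fintype.card_fin] at h1
      omega
  exact h2

end move

section det

variable {V : Type*} [AddCommGroup V] [Module ℂ V] (B : Basis Ix ℂ V)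

/-- the coordinates in one of the two parts -/
noncomputable def LP (ε : Fin 2) : V →ₗ[ℂ] (Fin 4 → ℂ) :=
  B.constr ℂ (fun c => if c.2 = ε then Pi.single c.1 1 else 0)

lemma LP_apply (ε : Fin 2) (c : Ix) : LP B ε (B c) = if c.2 = ε then Pi.single c.1 1 else 0 := by
  rw [LP, Basis.constr_basis]

lemma vb_LP_zero (ε : Fin 2) (t : Fin (2 * 2) → Ix) (r : Fin (2 * 2)) (h : (t r).2 ≠ ε) :
    vb B (dtL (LP B ε)) t = 0 := by
  rw [vb, dtL_apply]
  refine AlternatingMap.map_coord_zero _ (e0.symm r) ?_
  rw [Equiv.apply_symm_apply, LP_apply, if_neg h]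

lemma vb_LP_bij (ε : Fin 2) (t : Fin (2 * 2) → Ix) (h : ¬ Function.Bijective fun r => (t r).1) :
    vb B (dtL (LP B ε)) t = 0 := by
  have h1 : ¬ Function.Injective fun r => (t r).1 := fun h2 =>
    h ((Fintype.bijective_iff_injective_and_card _).mpr ⟨h2, by simp⟩)
  rw [Function.Injective] at h1
  push Not at h1
  obtain ⟨r, s, hrs, hne⟩ := h1
  by_cases h2 : (t r).2 = ε
  · by_cases h3 : (t s).2 = ε
    · rw [vb, dtL_apply]
      refine AlternatingMap.map_eq_zero_of_eq _ _ (i := e0.symm r) (j := e0.symm s) ?_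
        (fun e => hne (e0.symm.injective e))
      rw [Equiv.apply_symm_apply, Equiv.apply_symm_apply, LP_apply, LP_apply, if_pos h2,
        if_pos h3, hrs]
    · exact vb_LP_zero B ε t s h3
  · exact vb_LP_zero B ε t r h2

lemma vb_LP_tE (ε : Fin 2) : vb B (dtL (LP B ε)) (tE fun _ => ε) = 1 := by
  rw [vb, dtL_apply]
  have h2 : (fun i => LP B ε (B (tE (fun _ => ε) (e0 i)))) = (1 : Matrix (Fin 4) (Fin 4) ℂ) := by
    funext i
    rw [LP_apply, tE, if_pos rfl, Equiv.symm_apply_apply]
    funext j
    rw [Matrix.one_apply, Pi.single_apply]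
    by_cases hij : i = j
    · rw [if_pos hij, if_pos hij.symm]
    · rw [if_neg hij, if_neg (Ne.symm hij)]
  rw [h2]
  exact Matrix.det_one

variable {B} {α : V [⋀^Fin (2 * 2)]→ₗ[ℂ] ℂ} {ω : V →ₗ[ℂ] V →ₗ[ℂ] ℂ} {w : ℂ}

/-- invariant forms of degree four -/
theorem SlInv.span_of_four (h : SlInv B α) (hω : IsStd B ω w) (hw : w ≠ 0) :
    ∃ c c0 c1 : ℂ, α = c • (wedge fun _ : Fin 2 => ω) + (c0 • dtL (LP B 0) + c1 • dtL (LP B 1)) := by
  obtain ⟨c, hc⟩ := h.common hω hw
  refine ⟨c, vb B α (tE fun _ => 0), vb B α (tE fun _ => 1),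
    Basis.ext_alternating B fun t ht => ?_⟩
  have hsum : (c • (wedge fun _ : Fin 2 => ω) + (vb B α (tE fun _ => 0) • dtL (LP B 0) +
      vb B α (tE fun _ => 1) • dtL (LP B 1))) (fun r => B (t r)) =
      c * vb B (wedge fun _ : Fin 2 => ω) t + (vb B α (tE fun _ => 0) * vb B (dtL (LP B 0)) t +
        vb B α (tE fun _ => 1) * vb B (dtL (LP B 1)) t) := rfl
  rw [hsum]
  show vb B α t = _
  have hcase : ∀ x : Fin 2, x = 0 ∨ x = 1 := by decide
  rcases hc t ht with ⟨h1, r, s, hrs⟩ | ⟨h1, hb⟩ | ⟨ε, hε, hb⟩
  · rw [h1]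
    have h2 : ∀ ε, vb B (dtL (LP B ε)) t = 0 := by
      intro ε
      by_cases h3 : (t r).2 = ε
      · exact vb_LP_zero B ε t s (fun h4 => hrs (h3.trans h4.symm))
      · exact vb_LP_zero B ε t r h3
    rw [h2, h2]
    ring
  · rw [h1, vb_LP_bij B 0 t hb, vb_LP_bij B 1 t hb]
    ring
  · rw [wedge_single hω t 0 (mul4_of_bijective t hb 0)]
    obtain ⟨p, π, rfl⟩ := exists_tE t hb
    have hp : p = fun _ => ε := by
      funext a
      have h2 := hε (π.symm (e0 a))
      rw [Function.comp_apply, Equiv.apply_symm_apply, tE, Equiv.symm_apply_apply] at h2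
      exact h2
    subst hp
    rw [vb_perm, vb_perm, vb_perm]
    rcases hcase ε with rfl | rfl
    · rw [vb_LP_tE, vb_LP_zero B 1 (tE fun _ => 0) 0 (by
        show (0 : Fin 2) ≠ 1
        decide)]
      ring
    · rw [vb_LP_tE, vb_LP_zero B 0 (tE fun _ => 1) 0 (by
        show (1 : Fin 2) ≠ 0
        decide)]
      ring

/-- the determinants are eigenvectors of endomorphisms which act by scalars on the two parts -/
lemma LP_eigen (ε : Fin 2) (J : Module.End ℂ V) (μ : ℂ)
    (hJ : ∀ c : Ix, c.2 = ε → J (B c) = μ • B c) (ν : ℂ)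
    (hJ' : ∀ c : Ix, c.2 ≠ ε → J (B c) = ν • B c) (v : V) :
    LP B ε (J v) = μ • LP B ε v := by
  have key : (LP B ε) ∘ₗ J = μ • LP B ε := by
    refine B.ext fun c => ?_
    rw [LinearMap.comp_apply, LinearMap.smul_apply]
    by_cases hc : c.2 = ε
    · rw [hJ c hc, map_smul]
    · rw [hJ' c hc, map_smul, LP_apply, if_neg hc, smul_zero, smul_zero]
  exact congrArg (fun g => g v) key

end det

end Pool.Agent.Helper64
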