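import Pool.Agent.Helper7.AF.Q31
import Pool.Agent.Helper64.AF.Sl4
import Pool.Agent.Helper64.AF.SlAlt
import Pool.Agent.Helper64.AF.Quat5

/-!
A fourfold with an imaginary quadratic field of endomorphisms: the symmetries of a class and of a
Weil class contain the special linear Lie algebra.
-/

namespace Pool.Agent.Helper64

open Module NumberField LieAlgebra Pool.Agent.Helper7 Pool.Agent.Helper24
open Pool.Agent.GPC (Emb)

attribute [local instance 100] LieRing.ofAssociativeRing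

set_option linter.unusedSectionVars false

section family

variable {I : Type} [Fintype I] [DecidableEq I] (n : I → ℕ)
  {κ : I → Type} [∀ i, Fintype (κ i)] [∀ i, DecidableEq (κ i)] {ϖ : ℂ}
  (P : ∀ i, PData (κ i) ϖ)
  {K : Type} [Field K] [NumberField K]
  (F : ∀ i, UF (P i) K 4)
  (i : I) (hI : ∀ j, j = i) (m : Fin (n i)) (hm : ∀ m', m' = m)

section weil

/-- the vectors of a place -/
noncomputable def E4 (σ : K →+* ℂ) (j : Fin 4) : HW κ n := slotL n i m ((F i).e σ j)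

variable {l : ℕ} (M : MultilinearMap ℂ (fun _ : Fin (2 * l) => HW κ n) ℂ)

lemma lift_E4 (σ : K →+* ℂ) (X : GG κ) (hX : IsInv n P M X) (t : Fin 4) :
    lift n X.1 (E4 n P F i m σ t) =
      ∑ s, (F i).co σ s (X.1 i ((F i).e σ t)) • E4 n P F i m σ s := by
  rw [E4, lift_slot, comm_e (F i) (X.1 i) (commK n P F M hX i) σ t, map_sum]
  refine Finset.sum_congr rfl fun s _ => ?_
  rw [map_smul, ← comm_e (F i) (X.1 i) (commK n P F M hX i) σ t, E4]

lemma trace_E4 (σ : K →+* ℂ) (X : GG κ) :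
    ∑ t, (F i).co σ t (X.1 i ((F i).e σ t)) = 4 * ch P F ⟨i, σ⟩ X := by
  have h1 : ch P F ⟨i, σ⟩ X = (∑ j, (F i).co σ j (X.1 i ((F i).e σ j))) / (4 : ℕ) := rfl
  rw [h1]
  push_cast
  ring

variable (J : Module.End ℂ (HW κ n)) {z : ℂ} (hz : z ≠ 0) (x : K)
  (hJ : ∀ u, J (slotL n i m u) = slotL n i m ((F i).ρ x u))
  (σ : K →+* ℂ) (hσ : ∀ σ', σ' = σ ∨ σ' = ComplexEmbedding.conjugate σ)
  (hx : σ x = z) (hx' : ComplexEmbedding.conjugate σ x = -z)

include hJ in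
lemma J_proj4 (ν : K →+* ℂ) (u : κ i → ℂ) :
    J (slotL n i m (proj (F i).ρ ν u)) = ν x • slotL n i m (proj (F i).ρ ν u) := by
  rw [hJ, ← Module.End.mul_apply, rho_mul_proj, LinearMap.smul_apply, map_smul]

lemma proj4_mem (ν : K →+* ℂ) (u : κ i → ℂ) :
    slotL n i m (proj (F i).ρ ν u) ∈ Submodule.span ℂ (Set.range (E4 n P F i m ν)) := by
  rw [(F i).proj_eq, map_sum]
  refine Submodule.sum_mem _ fun j _ => ?_
  rw [map_smul]
  exact Submodule.smul_mem _ _ (Submodule.subset_span ⟨j, rfl⟩)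

include hI hm hz hJ hσ hx hx' in
lemma prJ4_mem (u : HW κ n) :
    prJ J z u ∈ Submodule.span ℂ (Set.range (E4 n P F i m σ)) := by
  have h1 : u = ∑ ν : K →+* ℂ, slotL n i m (proj (F i).ρ ν (u i m)) := by
    rw [← map_sum, ← sum_proj_apply (F i).ρ (u i m)]
    exact (slot_all n i hI m hm u).symm
  rw [h1, map_sum]
  refine Submodule.sum_mem _ fun ν _ => ?_
  rcases hσ ν with rfl | rfl
  · rw [prJ_of_eigen hz (by rw [J_proj4 n P F i m J x hJ, hx])]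
    exact proj4_mem n P F i m _ _
  · rw [prJ_of_eigen' hz (by rw [J_proj4 n P F i m J x hJ, hx'])]
    exact Submodule.zero_mem _

variable (hJJ : ∀ u, J (J u) = z ^ 2 • u) (d : ℚ) (hd : 0 < d) (hzd : z ^ 2 = -(d : ℂ))
  (hJQ : ∀ u, IsRatP n P u → IsRatP n P (J u))
  (w : (HW κ n) [⋀^Fin (2 * 2)]→ₗ[ℂ] ℂ)
  (hbal : ∀ v r s, w (Function.update v r (J (v r))) = w (Function.update v s (J (v s))))
  (hw0 : w ≠ 0) (c : ℂ) (hc : c ≠ 0)
  (hBw : ∀ v : Fin (2 * 2) → HW κ n, (∀ r, IsRatP n P (v r)) → ∃ q : ℚ, w v = c * q)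

include hI hm hz hJ hσ hx hx' hJJ hd hzd hJQ hbal hw0 hc hBw in
/-- a non-zero balanced rational form does not vanish on the vectors of a place -/
lemma weil_ne4 : w (fun s => E4 n P F i m σ (e0.symm s)) ≠ 0 := by
  intro h0
  apply hw0
  refine rat_zero n P w c hc hBw J hJQ z d hd hzd 0 (fun v => bal_neg hz hJJ w hbal
    (fun v hv => alt_span_zero w _ h0 v (fun s => ?_)) v 0)
  have h1 := prJ4_mem n P F i hI m hm J hz x hJ σ hσ hx hx' (v s)
  rw [prJ_of_eigen hz (hv s)] at h1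
  have h2 : Set.range (fun s => E4 n P F i m σ (e0.symm s)) = Set.range (E4 n P F i m σ) :=
    e0.symm.surjective.range_comp (E4 n P F i m σ)
  rw [h2]
  exact h1

include hI hm hz hJ hσ hx hx' hJJ hd hzd hJQ hbal hw0 hc hBw in
/-- the multiplier of a balanced rational form -/
lemma weil_mult4 (X : GG κ) (hX : IsInv n P M X) (b : ℂ)
    (hb : actForm (lift n X.1) (w : MultilinearMap ℂ (fun _ : Fin (2 * 2) => HW κ n) ℂ) = b •
      (w : MultilinearMap ℂ (fun _ : Fin (2 * 2) => HW κ n) ℂ)) :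
    b = 4 * ch P F ⟨i, σ⟩ X := by
  rw [← trace_E4 P F i σ X]
  exact eigen_trace e0.symm w (E4 n P F i m σ) (lift n X.1)
    (fun s t => (F i).co σ s (X.1 i ((F i).e σ t)))
    (fun t => lift_E4 n P F i m M σ X hX t) b hb
    (weil_ne4 n P F i hI m hm J hz x hJ σ hσ hx hx' hJJ d hd hzd hJQ w hbal hw0 c hc hBw)

end weil

section dual

variable {l : ℕ} (M : MultilinearMap ℂ (fun _ : Fin (2 * l) => HW κ n) ℂ)
  (hϖ : ϖ ≠ 0)
  (hB : ∀ v : Fin (2 * l) → HW κ n, (∀ r, IsRatP n P (v r)) → ∃ q : ℚ, M v = ϖ ^ l * q)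
  (hA : ∀ v : Fin (2 * l) → HW κ n, (∀ r i m j, IsAlgebraic ℚ (v r i m j)) →
      IsAlgebraic ℚ (M v))

include hϖ hB hA in
/-- the eigenspaces are not self-dual -/
theorem not_selfdual (σ : K →+* ℂ) (hσ' : ComplexEmbedding.conjugate σ ≠ σ)
    (hch : ∀ X, IsInv n P M X → 2 * ch P F ⟨i, σ⟩ X = X.2)
    (hsimple : ∀ f, IsDRB (P i) (P i) f → ∃ x, ∀ v, f v = (F i).ρ x v)
    (γ : Vs n P F M ⟨i, σ⟩ →ₗ[ℂ] Vs n P F M ⟨i, σ⟩ →ₗ[ℂ] ℂ)
    (hγ : ∀ (a : LL n P F M) u v, γ ⁅a, u⁆ v + γ u ⁅a, v⁆ = 0) : γ = 0 := by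
  obtain ⟨m, c, g, hg, hβg⟩ := bilin_of_inv n P M hϖ hB hA i i
    (γ.compl₁₂ (toVs n P F M ⟨i, σ⟩) (toVs n P F M ⟨i, σ⟩)) (by
      intro X hX u v
      simp only [LinearMap.compl₁₂_apply]
      have e1 : ∀ w, toVs n P F M ⟨i, σ⟩ (X.1 i w) = ⁅elL n P F M X hX,
          toVs n P F M ⟨i, σ⟩ w⁆ + ch P F ⟨i, σ⟩ X • toVs n P F M ⟨i, σ⟩ w :=
        fun w => toVs_act n P F M X hX ⟨i, σ⟩ w
      rw [e1 u, e1 v]
      simp only [map_add, map_smul, LinearMap.add_apply, LinearMap.smul_apply, smul_eq_mul]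
      have h1 := hγ (elL n P F M X hX) (toVs n P F M ⟨i, σ⟩ u) (toVs n P F M ⟨i, σ⟩ v)
      linear_combination h1 + γ (toVs n P F M ⟨i, σ⟩ u) (toVs n P F M ⟨i, σ⟩ v) * hch X hX)
  simp only [LinearMap.compl₁₂_apply] at hβg
  refine LinearMap.ext fun x => LinearMap.ext fun y => ?_
  have hval : γ x y = ∑ l, c l * (P i).ψ (g l ((x : MM κ) i)) ((y : MM κ) i) := by
    rw [← hβg]
    have h1 : toVs n P F M ⟨i, σ⟩ ((x : MM κ) i) = x := toVs_ofVs n P F M ⟨i, σ⟩ x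
    have h2 : toVs n P F M ⟨i, σ⟩ ((y : MM κ) i) = y := toVs_ofVs n P F M ⟨i, σ⟩ y
    rw [h1, h2]
  rw [hval]
  refine Finset.sum_eq_zero fun l _ => ?_
  obtain ⟨t, ht⟩ := hsimple (g l) (hg l)
  have hx : proj (F i).ρ σ ((x : MM κ) i) = (x : MM κ) i := Vs_proj n P F M ⟨i, σ⟩ x
  have hy : proj (F i).ρ σ ((y : MM κ) i) = (y : MM κ) i := Vs_proj n P F M ⟨i, σ⟩ y
  rw [ht, ← hx, ← hy, ← Module.End.mul_apply, rho_mul_proj, LinearMap.smul_apply, map_smul,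
    LinearMap.smul_apply, psi_proj (F i) σ σ _ _ (Ne.symm hσ'), smul_zero, mul_zero]

end dual

end family

end Pool.Agent.Helper64
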