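import Pool.Agent.Helper64.AF.Quad1

/-!
A fourfold with an imaginary quadratic field of endomorphisms: adapted basis, and the invariance of
the class under the special linear Lie algebra.
-/

namespace Pool.Agent.Helper64

open Module NumberField LieAlgebra Pool.Agent.Helper7 Pool.Agent.Helper24 Pool.Agent.Helper30.AF
open Pool.Agent.GPC (Emb)

attribute [local instance 100] LieRing.ofAssociativeRing

set_option linter.unusedSectionVars false

section family

variable {I : Type} [Fintype I] [DecidableEq I] (n : I → ℕ)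
  {κ : I → Type} [∀ i, Fintype (κ i)] [∀ i, DecidableEq (κ i)] {ϖ : ℂ}
  (P : ∀ i, PData (κ i) ϖ)
  {K : Type} [Field K] [NumberField K]
  (F : ∀ i, UF (P i) K 4)
  (i : I) (hI : ∀ j, j = i) (m : Fin (n i)) (hm : ∀ m', m' = m)
  {l : ℕ} (M : MultilinearMap ℂ (fun _ : Fin (2 * l) => HW κ n) ℂ)
  (σ : K →+* ℂ) (hσ' : ComplexEmbedding.conjugate σ ≠ σ)
  (hκ : Fintype.card (κ i) = 8)
  (b' : Basis (Fin 4) ℂ (Vs n P F M ⟨i, ComplexEmbedding.conjugate σ⟩))
  (D : DB (bp n P F M i σ (ComplexEmbedding.conjugate σ)) (bV n P F M ⟨i, σ⟩) b')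

/-- the adapted vectors -/
noncomputable def ua (c : Ix) : κ i → ℂ :=
  if c.2 = 0 then (F i).e σ c.1 else ((b' c.1 : Vs n P F M ⟨i, ComplexEmbedding.conjugate σ⟩) :
    MM κ) i

lemma ua_zero (a : Fin 4) : ua n P F i M σ b' (a, 0) = (F i).e σ a := if_pos rfl

lemma ua_one (a : Fin 4) : ua n P F i M σ b' (a, 1) =
    ((b' a : Vs n P F M ⟨i, ComplexEmbedding.conjugate σ⟩) : MM κ) i :=
  if_neg (show ¬ (1 : Fin 2) = 0 by decide)

lemma ua_one_proj (a : Fin 4) : proj (F i).ρ (ComplexEmbedding.conjugate σ)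
    (ua n P F i M σ b' (a, 1)) = ua n P F i M σ b' (a, 1) := by
  rw [ua_one]
  exact Vs_proj n P F M ⟨i, ComplexEmbedding.conjugate σ⟩ (b' a)

include D in
lemma psi_ua01 (a b : Fin 4) :
    (P i).ψ (ua n P F i M σ b' (a, 0)) (ua n P F i M σ b' (b, 1)) = if a = b then 1 else 0 := by
  have h1 := D.eq a b
  rw [bp_apply] at h1
  have h2 : ((bV n P F M ⟨i, σ⟩ a : Vs n P F M ⟨i, σ⟩) : MM κ) i = (F i).e σ a :=
    bV_coe n P F M ⟨i, σ⟩ a
  rw [h2] at h1
  rw [ua_zero, ua_one]
  exact h1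

include hσ' D in
lemma psi_ua (c d : Ix) : (P i).ψ (ua n P F i M σ b' c) (ua n P F i M σ b' d) =
    if c.1 = d.1 then (J2 c.2 d.2 : ℂ) * 1 else 0 := by
  obtain ⟨a, ε⟩ := c
  obtain ⟨b, δ⟩ := d
  have h00 : J2 0 0 = 0 := by decide
  have h11 : J2 1 1 = 0 := by decide
  have h01 : J2 0 1 = 1 := by decide
  have h10 : J2 1 0 = -1 := by decide
  have hcase : ∀ x : Fin 2, x = 0 ∨ x = 1 := by decide
  rcases hcase ε with rfl | rfl <;> rcases hcase δ with rfl | rfl
  · rw [ua_zero, ua_zero, (F i).psi_e σ σ a b (Ne.symm hσ')]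
    simp [h00]
  · rw [psi_ua01 n P F i M σ b' D]
    simp only [h01]
    split_ifs <;> simp
  · rw [(P i).hψalt, psi_ua01 n P F i M σ b' D]
    simp only [h10]
    by_cases h : a = b
    · rw [if_pos h, if_pos h.symm]; simp
    · rw [if_neg h, if_neg (Ne.symm h)]; simp
  · have h2 := psi_proj (F i) (ComplexEmbedding.conjugate σ) (ComplexEmbedding.conjugate σ)
      (ua n P F i M σ b' (a, 1)) (ua n P F i M σ b' (b, 1)) (by
        rw [Helper24.conj_conj]; exact hσ')
    rw [ua_one_proj, ua_one_proj] at h2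
    rw [h2]
    simp [h11]

include hσ' D in
lemma ua_indep : LinearIndependent ℂ (ua n P F i M σ b') := by
  classical
  rw [Fintype.linearIndependent_iff]
  intro g hg c
  have h2 : ∀ d, ∑ c, g c * (P i).ψ (ua n P F i M σ b' c) (ua n P F i M σ b' d) = 0 := by
    intro d
    have h3 := congrArg (fun v => (P i).ψ v (ua n P F i M σ b' d)) hg
    simp only [map_sum, map_smul, LinearMap.sum_apply, LinearMap.smul_apply, smul_eq_mul,
      map_zero, LinearMap.zero_apply] at h3
    exact h3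
  simp only [psi_ua n P F i M σ hσ' b' D] at h2
  obtain ⟨a, ε⟩ := c
  have h3 := h2 (a, 1 - ε)
  rw [Finset.sum_eq_single (a, ε)] at h3
  · have hcase : ∀ x : Fin 2, J2 x (1 - x) = 1 ∨ J2 x (1 - x) = -1 := by decide
    rw [if_pos rfl] at h3
    rcases hcase ε with h4 | h4
    · simp only [h4] at h3
      push_cast at h3
      linear_combination h3
    · simp only [h4] at h3
      push_cast at h3
      linear_combination -h3
  · rintro ⟨b, δ⟩ _ hne
    by_cases hb : b = a
    · subst hb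
      have h4 : δ ≠ ε := fun e => hne (by rw [e])
      have hcase : ∀ x y : Fin 2, x ≠ y → J2 x (1 - y) = 0 := by decide
      simp only [hcase δ ε h4]
      simp
    · simp only [if_neg hb, mul_zero]
  · intro h; exact absurd (Finset.mem_univ _) h

/-- the adapted basis -/
noncomputable def BQ : Basis Ix ℂ (HW κ n) :=
  basisOfLinearIndependentOfCardEqFinrank
    (b := fun c => slotL n i m (ua n P F i M σ b' c))
    ((ua_indep n P F i M σ hσ' b' D).map' (slotL n i m) (LinearMap.ker_eq_bot.mpr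
      (Function.LeftInverse.injective (prL_slotL n i m))))
    (by rw [finrank_HW n i hI m hm hκ]; rfl)

lemma BQ_apply (c : Ix) : BQ n P F i hI m hm M σ hσ' hκ b' D c =
    slotL n i m (ua n P F i M σ b' c) := by
  rw [BQ, coe_basisOfLinearIndependentOfCardEqFinrank]

lemma omQ_std : IsStd (BQ n P F i hI m hm M σ hσ' hκ b' D) (om n P i m) 1 := by
  intro c d
  rw [BQ_apply, BQ_apply, om, LinearMap.compl₁₂_apply, prL_slotL, prL_slotL,
    psi_ua n P F i M σ hσ' b' D]

/-- a symmetry without multiplier and weights acts through its matrix -/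
lemma lift_BQ (hr : ∀ i : I, 0 < (fun _ : I => 4) i) (X : GG κ) (hX : IsInv n P M X)
    (hX0 : ∀ s, ch P F s X = 0) :
    lift n X.1 = glo (BQ n P F i hI m hm M σ hσ' hκ b' D)
      (mx (bp n P F M i σ (ComplexEmbedding.conjugate σ)) (bV n P F M ⟨i, σ⟩) b'
        (elL n P F M X hX)) := by
  obtain ⟨B, hB⟩ : ∃ B, B = BQ n P F i hI m hm M σ hσ' hκ b' D := ⟨_, rfl⟩
  have hBa : ∀ c, B c = slotL n i m (ua n P F i M σ b' c) := fun c => by rw [hB, BQ_apply]
  rw [← hB]
  refine B.ext fun c => ?_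
  obtain ⟨a, ε⟩ := c
  have hcase : ∀ x : Fin 2, x = 0 ∨ x = 1 := by decide
  have e1 : ∀ (τ : K →+* ℂ) (y : Vs n P F M ⟨i, τ⟩), X.1 i (ofVs n P F M ⟨i, τ⟩ y) =
      ofVs n P F M ⟨i, τ⟩ ⁅elL n P F M X hX, y⁆ := by
    intro τ y
    have h1 : ofVs n P F M ⟨i, τ⟩ ⁅elL n P F M X hX, y⁆ =
        X.1 i (ofVs n P F M ⟨i, τ⟩ y) - ch P F ⟨i, τ⟩ X • ofVs n P F M ⟨i, τ⟩ y :=
      elL_act n P F M X hX ⟨i, τ⟩ y
    rw [h1, hX0, zero_smul, sub_zero]
  rcases hcase ε with rfl | rfl
  · rw [glo_zero, hBa, lift_slot]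
    have h2 : ∀ a, ua n P F i M σ b' (a, 0) = ofVs n P F M ⟨i, σ⟩ (bV n P F M ⟨i, σ⟩ a) := by
      intro a
      rw [ua_zero]
      exact (bV_coe n P F M ⟨i, σ⟩ a).symm
    rw [h2, e1, D.lie, map_sum, map_sum]
    refine Finset.sum_congr rfl fun c _ => ?_
    rw [map_smul, map_smul, hBa, h2]
  · rw [glo_one, hBa, lift_slot]
    have h2 : ∀ a, ua n P F i M σ b' (a, 1) =
        ofVs n P F M ⟨i, ComplexEmbedding.conjugate σ⟩ (b' a) := by
      intro a
      rw [ua_one]
      rfl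
    rw [h2, e1, D.lie' (bp_inv n P F M hr i σ), map_neg, map_sum, map_neg, map_sum]
    congr 1
    refine Finset.sum_congr rfl fun c _ => ?_
    rw [map_smul, map_smul, hBa, h2]

end family

end Pool.Agent.Helper64
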