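import Pool.Agent.Helper8.D.Pieces
import Pool.Agent.Helper7.PreFrames
import Pool.Agent.Helper64.AF.Alt4

/-!
A factor of type III and rank four: the symmetries of a class contain the orthogonal Lie algebra.
-/

namespace Pool.Agent.Helper64

open Module NumberField Pool.Agent.Helper7 Pool.Agent.Helper24 Pool.Agent.Helper36 Matrix
open Pool.Agent.Helper8.D
open Pool.Agent.GPC (Emb)

set_option linter.unusedSectionVars false

section family

variable {I : Type} [Fintype I] [DecidableEq I] (n : I → ℕ)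
  {κ : I → Type} [∀ i, Fintype (κ i)] [∀ i, DecidableEq (κ i)] {ϖ : ℂ}
  (P : ∀ i, PData (κ i) ϖ)
  {K : Type} [Field K] [NumberField K]
  {k : ℕ} (α : MultilinearMap ℂ (fun _ : Fin (2 * k) => HW κ n) ℂ)
  (F : ∀ i, QF (P i) K 4)
  (hϖ : ϖ ≠ 0)
  (hB : ∀ v : Fin (2 * k) → HW κ n, (∀ r, IsRatP n P (v r)) → ∃ q : ℚ, α v = ϖ ^ k * q)
  (hA : ∀ v : Fin (2 * k) → HW κ n, (∀ r i m j, IsAlgebraic ℚ (v r i m j)) →
      IsAlgebraic ℚ (α v))

include hϖ hB hA in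
/-- every element of the orthogonal Lie algebra at a place comes from a symmetry -/
theorem exists_sym (i : I) (σ : K →+* ℂ) (Z : Matrix (Fin 4) (Fin 4) ℂ)
    (hZ : GSO ((F i).sf σ) Z 0) :
    ∃ X, IsInv n P α X ∧ X.2 = 0 ∧ ent (F i).toUF σ (X.1 i) = Z := by
  classical
  let F3 : ∀ i, Fac3 (P i) ((fun _ => K) i) := fun i => .Q (F i)
  let s : Emb (fun _ : I => K) := ⟨i, σ⟩
  have hQ : ∀ t : Emb (fun _ : I => K) × Fin 2, (F3 t.1.1).isS ∨ (F3 t.1.1).isQ :=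
    fun t => Or.inr trivial
  have hsurj : ∀ (t : Emb (fun _ : I => K) × Fin 2) (Z : Matrix (Fin 2) (Fin 2) ℂ),
      Z.trace = 0 → ∃ X, AS n P α F3 t X = Z :=
    fun t Z hZ => AS_surj n P α hϖ hB hA F3 t (hQ t) Z hZ
  have hnc : ¬ ConjRep (AS n P α F3) (s, (0 : Fin 2)) (s, (1 : Fin 2)) :=
    AS_not_conj n P α hϖ hB hA F3 s trivial
  have hz : ∀ ε, (((F i).sp σ).a ε (Z, 0)).trace = 0 := fun ε => ((F i).sp σ).tr ε Z 0
  obtain ⟨X0, h00, h01⟩ := goursat_pair (brS n P α) (AS n P α F3) (cS n P α)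
    (AS_br n P α F3) (AS_tr n P α F3) hsurj (s, 0) (s, 1) hnc _ (hz 0)
  obtain ⟨X1, h11, h10⟩ := goursat_pair (brS n P α) (AS n P α F3) (cS n P α)
    (AS_br n P α F3) (AS_tr n P α F3) hsurj (s, 1) (s, 0) (fun h => hnc (ConjRep.symm _ h)) _
    (hz 1)
  have hA0 : ∀ ε, AS n P α F3 (s, ε) (X0 + X1) = ((F i).sp σ).a ε (Z, 0) := by
    intro ε
    fin_cases ε
    · show AS n P α F3 (s, 0) (X0 + X1) = _
      rw [map_add, h00, h10, add_zero]
      rfl
    · show AS n P α F3 (s, 1) (X0 + X1) = _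
      rw [map_add, h01, h11, zero_add]
      rfl
  have hc : (vl n P α (X0 + X1)).2 = 0 := by
    have h1 := AS_tr n P α F3 (s, 0) (X0 + X1)
    rw [hA0, hz] at h1
    exact h1.symm
  refine ⟨vl n P α (X0 + X1), vl_inv n P α _, hc, ?_⟩
  have hS := symI n P α (vl_inv n P α (X0 + X1)) i
  rw [hc] at hS
  refine ((F i).sp σ).uniq _ _ 0 ((F i).gso σ hS) hZ fun ε => ?_
  have h1 := hA0 ε
  have h2 : AS n P α F3 (s, ε) (X0 + X1) =
      ((F i).sp σ).a ε (ent (F i).toUF σ ((vl n P α (X0 + X1)).1 i), (vl n P α (X0 + X1)).2) := rfl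
  rw [h2, hc] at h1
  exact h1

end family

section ortho

/-- a non-degenerate symmetric matrix is `Qᵀ Q` -/
lemma exists_sqrt (S : Matrix (Fin 4) (Fin 4) ℂ) (hS : Sᵀ = S) (hdet : S.det ≠ 0) :
    ∃ Q Q' : Matrix (Fin 4) (Fin 4) ℂ, Q * Q' = 1 ∧ Q' * Q = 1 ∧ S = Qᵀ * Q := by
  obtain ⟨P, P', h1, h2, h3⟩ := exists_congr S hS hdet
  obtain ⟨R, R', h4, h5, h6⟩ := exists_congr (1 : Matrix (Fin 4) (Fin 4) ℂ) (by simp) (by simp)
  have h4t : R'ᵀ * Rᵀ = 1 := by rw [← transpose_mul, h4, transpose_one]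
  have h7 : S0 = R'ᵀ * R' := by
    calc S0 = (R'ᵀ * Rᵀ) * S0 * (R * R') := by rw [h4t, h4, one_mul, mul_one]
      _ = R'ᵀ * (Rᵀ * S0 * R) * R' := by simp only [mul_assoc]
      _ = R'ᵀ * R' := by rw [← h6, mul_one]
  refine ⟨R' * P, P' * R, ?_, ?_, ?_⟩
  · calc R' * P * (P' * R) = R' * (P * P') * R := by simp only [mul_assoc]
      _ = 1 := by rw [h1, mul_one, h5]
  · calc P' * R * (R' * P) = P' * (R * R') * P := by simp only [mul_assoc]
      _ = 1 := by rw [h4, mul_one, h2]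
  · rw [h3, h7, transpose_mul]
    simp only [mul_assoc]

end ortho

end Pool.Agent.Helper64
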