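import Pool.Agent.Helper64.AF.Quat1
import Pool.Agent.Helper7.Family3

/-!
A factor of type III and rank four over an imaginary quadratic field: adapted basis, and the
invariance of the class under the rotations.
-/

namespace Pool.Agent.Helper64

open Module NumberField Pool.Agent.Helper7 Pool.Agent.Helper24 Pool.Agent.Helper36 Matrix
open Pool.Agent.Helper8.D

set_option linter.unusedSectionVars false

/-- the elementary skew matrix -/
def rotM (a b : Fin 4) : Matrix (Fin 4) (Fin 4) ℂ :=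
  Matrix.of fun x y => if y = a then (if x = b then 1 else 0) else
    if y = b then (if x = a then -1 else 0) else 0

lemma rotM_skew (a b : Fin 4) (hab : a ≠ b) : (rotM a b)ᵀ + rotM a b = 0 := by
  ext x y
  simp only [Matrix.add_apply, Matrix.transpose_apply, rotM, Matrix.of_apply, Matrix.zero_apply]
  by_cases h1 : x = a <;> by_cases h2 : x = b <;> by_cases h3 : y = a <;> by_cases h4 : y = b <;>
    simp_all

section single

variable {κ : Type} [Fintype κ] [DecidableEq κ] {ϖ : ℂ} {P : PData κ ϖ} {K : Type} [Field K]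
    [NumberField K] (F : QF P K 4) (σ : K →+* ℂ)

/-- an orthonormal basis of the eigenspace -/
noncomputable def uu (Q' : Matrix (Fin 4) (Fin 4) ℂ) (a : Fin 4) : κ → ℂ :=
  ∑ c, Q' c a • F.e σ c

/-- the adapted vectors -/
noncomputable def ub (Q' : Matrix (Fin 4) (Fin 4) ℂ) (c : Ix) : κ → ℂ :=
  if c.2 = 0 then uu F σ Q' c.1 else F.j (uu F σ Q' c.1)

lemma ub_zero (Q' : Matrix (Fin 4) (Fin 4) ℂ) (a : Fin 4) : ub F σ Q' (a, 0) = uu F σ Q' a :=
  if_pos rfl

lemma ub_one (Q' : Matrix (Fin 4) (Fin 4) ℂ) (a : Fin 4) : ub F σ Q' (a, 1) = F.j (uu F σ Q' a) :=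
  if_neg (show ¬ (1 : Fin 2) = 0 by decide)

lemma rho_uu (Q' : Matrix (Fin 4) (Fin 4) ℂ) (x : K) (a : Fin 4) :
    F.ρ x (uu F σ Q' a) = σ x • uu F σ Q' a := by
  rw [uu, map_sum, Finset.smul_sum]
  refine Finset.sum_congr rfl fun c _ => ?_
  rw [map_smul, F.toUF.rho_e, smul_comm]

lemma psi_uu (Q' : Matrix (Fin 4) (Fin 4) ℂ) (a c : Fin 4) :
    P.ψ (uu F σ Q' a) (uu F σ Q' c) = 0 := by
  rw [uu, map_sum, LinearMap.sum_apply]
  refine Finset.sum_eq_zero fun x _ => ?_
  rw [map_smul, LinearMap.smul_apply, uu, map_sum, Finset.sum_eq_zero, smul_zero]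
  intro y _
  rw [map_smul, F.toUF.psi_e σ σ x y (fun h => F.cplx σ h.symm), smul_zero]

lemma psi_juu (Q Q' : Matrix (Fin 4) (Fin 4) ℂ) (h1 : Q * Q' = 1) (hS : F.sf σ = Qᵀ * Q)
    (a c : Fin 4) : P.ψ (F.j (uu F σ Q' a)) (uu F σ Q' c) = if a = c then 1 else 0 := by
  have h2 : Q'ᵀ * F.sf σ * Q' = 1 := by
    have h3 : Q'ᵀ * Qᵀ = 1 := by rw [← transpose_mul, h1, transpose_one]
    rw [hS]
    calc Q'ᵀ * (Qᵀ * Q) * Q' = (Q'ᵀ * Qᵀ) * (Q * Q') := by simp only [mul_assoc]
      _ = 1 := by rw [h3, h1, one_mul]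
  have h3 : P.ψ (F.j (uu F σ Q' a)) (uu F σ Q' c) = (Q'ᵀ * F.sf σ * Q') a c := by
    rw [Matrix.mul_apply, uu, uu, map_sum]
    refine Finset.sum_congr rfl fun y _ => ?_
    rw [map_smul, smul_eq_mul, mul_comm, Matrix.mul_apply, map_sum, map_sum,
      LinearMap.sum_apply]
    congr 1
    refine Finset.sum_congr rfl fun x _ => ?_
    rw [map_smul, map_smul, LinearMap.smul_apply, smul_eq_mul]
    rfl
  rw [h3, h2, Matrix.one_apply]

lemma psi_ub (Q Q' : Matrix (Fin 4) (Fin 4) ℂ) (h1 : Q * Q' = 1) (hS : F.sf σ = Qᵀ * Q)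
    (c d : Ix) : P.ψ (ub F σ Q' c) (ub F σ Q' d) =
      if c.1 = d.1 then (J2 c.2 d.2 : ℂ) * (-1) else 0 := by
  obtain ⟨a, ε⟩ := c
  obtain ⟨b, δ⟩ := d
  have h00 : J2 0 0 = 0 := by decide
  have h11 : J2 1 1 = 0 := by decide
  have h01 : J2 0 1 = 1 := by decide
  have h10 : J2 1 0 = -1 := by decide
  have hj := psi_juu F σ Q Q' h1 hS
  have hjj : ∀ a, F.j (F.j (uu F σ Q' a)) = σ F.b • uu F σ Q' a := fun a => by
    rw [F.jj, rho_uu]
  have hcase : ∀ x : Fin 2, x = 0 ∨ x = 1 := by decide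
  rcases hcase ε with rfl | rfl <;> rcases hcase δ with rfl | rfl
  · rw [ub_zero, ub_zero, psi_uu]
    simp [h00]
  · rw [ub_zero, ub_one]
    have h2 : P.ψ (uu F σ Q' a) (F.j (uu F σ Q' b)) = - P.ψ (F.j (uu F σ Q' a)) (uu F σ Q' b) := by
      rw [F.jψ, neg_neg]
    rw [h2, hj]
    simp only [h01]
    split_ifs <;> simp
  · rw [ub_one, ub_zero, hj]
    simp only [h10]
    split_ifs <;> simp
  · rw [ub_one, ub_one, F.jψ, hjj, map_smul, psi_uu]
    simp [h11]

/-- the symmetries act on the adapted vectors -/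
lemma act_ub (Q Q' : Matrix (Fin 4) (Fin 4) ℂ) (h1 : Q * Q' = 1) (a b : Fin 4)
    (X : Module.End ℂ (κ → ℂ)) {z : ℂ} (hX : Sym P X z)
    (hZ : ent F.toUF σ X = Q' * rotM a b * Q) (c : Ix) : X (ub F σ Q' c) =
      if c.1 = a then ub F σ Q' (b, c.2) else if c.1 = b then - ub F σ Q' (a, c.2) else 0 := by
  have h2 : ∀ c, X (uu F σ Q' c) = ∑ d, rotM a b d c • uu F σ Q' d := by
    intro c
    have h3 : X (uu F σ Q' c) = ∑ d, (ent F.toUF σ X * Q') d c • F.e σ d := by
      rw [uu, map_sum]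
      simp only [map_smul, ent_act F.toUF σ X (hX.commF F.toUF), Finset.smul_sum, smul_smul]
      rw [Finset.sum_comm]
      refine Finset.sum_congr rfl fun d _ => ?_
      rw [← Finset.sum_smul, Matrix.mul_apply]
      congr 1
      exact Finset.sum_congr rfl fun x _ => mul_comm _ _
    rw [h3, hZ]
    have h4 : Q' * rotM a b * Q * Q' = Q' * rotM a b := by rw [mul_assoc, h1, mul_one]
    rw [h4]
    simp only [uu, Finset.smul_sum, smul_smul]
    rw [Finset.sum_comm]
    refine Finset.sum_congr rfl fun d _ => ?_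
    rw [← Finset.sum_smul, Matrix.mul_apply]
    congr 1
    exact Finset.sum_congr rfl fun x _ => mul_comm _ _
  have h5 : ∀ c, X (uu F σ Q' c) =
      if c = a then uu F σ Q' b else if c = b then - uu F σ Q' a else 0 := by
    intro c
    rw [h2]
    simp only [rotM, Matrix.of_apply]
    split_ifs with h6 h7
    · simp
    · simp
    · simp
  obtain ⟨c, ε⟩ := c
  have hcase : ∀ x : Fin 2, x = 0 ∨ x = 1 := by decide
  rcases hcase ε with rfl | rfl
  · rw [ub_zero, h5, ub_zero, ub_zero]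
  · rw [ub_one, hX.comm F.j F.hj, h5, ub_one, ub_one]
    split_ifs
    · rfl
    · rw [map_neg]
    · rw [map_zero]

end single

section family

variable {I : Type} [Fintype I] [DecidableEq I] (n : I → ℕ)
  {κ : I → Type} [∀ i, Fintype (κ i)] [∀ i, DecidableEq (κ i)] {ϖ : ℂ}
  (P : ∀ i, PData (κ i) ϖ)
  {K : Type} [Field K] [NumberField K]
  {k : ℕ} (α : (HW κ n) [⋀^Fin (2 * k)]→ₗ[ℂ] ℂ)
  (F : ∀ i, QF (P i) K 4)
  (i : I) (hI : ∀ j, j = i) (m : Fin (n i)) (hm : ∀ m', m' = m)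
  (hκ : Fintype.card (κ i) = 8)

include hI hm in
lemma slot_all (v : HW κ n) : slotL n i m (v i m) = v := by
  conv_rhs => rw [← sum_slot n v]
  rw [Finset.sum_eq_single i (fun j _ hj => absurd (hI j) hj)
    (fun h => absurd (Finset.mem_univ _) h), Finset.sum_eq_single m (fun j _ hj => absurd (hm j) hj)
    (fun h => absurd (Finset.mem_univ _) h)]

include hI hm hκ in
lemma finrank_HW : finrank ℂ (HW κ n) = 8 := by
  have e : (κ i → ℂ) ≃ₗ[ℂ] HW κ n :=
    { slotL n i m with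
      invFun := fun v => v i m
      left_inv := fun v => prL_slotL n i m v
      right_inv := fun v => slot_all n i hI m hm v }
  rw [← e.finrank_eq, Module.finrank_fintype_fun_eq_card, hκ]

variable (σ : K →+* ℂ) (Q Q' : Matrix (Fin 4) (Fin 4) ℂ) (h1 : Q * Q' = 1)
  (hS : (F i).sf σ = Qᵀ * Q)

include h1 hS in
lemma ub_indep : LinearIndependent ℂ (ub (F i) σ Q') := by
  classical
  rw [Fintype.linearIndependent_iff]
  intro g hg c
  have h2 : ∀ d, ∑ c, g c * (P i).ψ (ub (F i) σ Q' c) (ub (F i) σ Q' d) = 0 := by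
    intro d
    have h3 := congrArg (fun v => (P i).ψ v (ub (F i) σ Q' d)) hg
    simp only [map_sum, map_smul, LinearMap.sum_apply, LinearMap.smul_apply, smul_eq_mul,
      map_zero, LinearMap.zero_apply] at h3
    exact h3
  simp only [psi_ub (F i) σ Q Q' h1 hS] at h2
  obtain ⟨a, ε⟩ := c
  have h3 := h2 (a, 1 - ε)
  rw [Finset.sum_eq_single (a, ε)] at h3
  · have hcase : ∀ x : Fin 2, J2 x (1 - x) = 1 ∨ J2 x (1 - x) = -1 := by decide
    rw [if_pos rfl] at h3
    rcases hcase ε with h4 | h4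
    · simp only [h4] at h3
      push_cast at h3
      linear_combination -h3
    · simp only [h4] at h3
      push_cast at h3
      linear_combination h3
  · rintro ⟨b, δ⟩ _ hne
    by_cases hb : b = a
    · subst hb
      have h4 : δ ≠ ε := fun e => hne (by rw [e])
      have hcase : ∀ x y : Fin 2, x ≠ y → J2 x (1 - y) = 0 := by decide
      simp only [hcase δ ε h4]
      simp
    · simp only [if_neg hb, mul_zero]
  · intro h; exact absurd (Finset.mem_univ _) h

/-- the adapted basis -/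
noncomputable def BB : Basis Ix ℂ (HW κ n) :=
  basisOfLinearIndependentOfCardEqFinrank
    (b := fun c => slotL n i m (ub (F i) σ Q' c))
    ((ub_indep P F i σ Q Q' h1 hS).map' (slotL n i m) (LinearMap.ker_eq_bot.mpr
      (Function.LeftInverse.injective (prL_slotL n i m))))
    (by rw [finrank_HW n i hI m hm hκ]; rfl)

lemma BB_apply (c : Ix) : BB n P F i hI m hm hκ σ Q Q' h1 hS c =
    slotL n i m (ub (F i) σ Q' c) := by
  rw [BB, coe_basisOfLinearIndependentOfCardEqFinrank]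

/-- the two-form of the polarisation -/
noncomputable def om : HW κ n →ₗ[ℂ] HW κ n →ₗ[ℂ] ℂ := (P i).ψ.compl₁₂ (prL n i m) (prL n i m)

lemma om_std : IsStd (BB n P F i hI m hm hκ σ Q Q' h1 hS) (om n P i m) (-1) := by
  intro c d
  rw [BB_apply, BB_apply, om, LinearMap.compl₁₂_apply, prL_slotL, prL_slotL,
    psi_ub (F i) σ Q Q' h1 hS]

lemma om_mem : om n P i m ∈ GW n P := by
  refine ⟨i, prL n i m, ?_, rfl⟩
  have h2 := drbW_comp n P i i m LinearMap.id (IsDRB.id P i)
  rwa [LinearMap.id_comp] at h2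

variable (hϖ : ϖ ≠ 0)
  (hB : ∀ v : Fin (2 * k) → HW κ n, (∀ r, IsRatP n P (v r)) → ∃ q : ℚ, α v = ϖ ^ k * q)
  (hA : ∀ v : Fin (2 * k) → HW κ n, (∀ r i m j, IsAlgebraic ℚ (v r i m j)) →
      IsAlgebraic ℚ (α v))

include hϖ hB hA in
theorem rotInv : RotInv (BB n P F i hI m hm hκ σ Q Q' h1 hS) α := by
  intro a b hab v
  have h2 : GSO ((F i).sf σ) (Q' * rotM a b * Q) 0 := by
    have h3 : Q'ᵀ * Qᵀ = 1 := by rw [← transpose_mul, h1, transpose_one]
    have h4 : Q' * Q = 1 := mul_eq_one_comm.mp h1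
    have h5 : Qᵀ * Q'ᵀ = 1 := by rw [← transpose_mul, h4, transpose_one]
    unfold GSO
    rw [hS, transpose_mul, transpose_mul, zero_smul]
    calc Qᵀ * ((rotM a b)ᵀ * Q'ᵀ) * (Qᵀ * Q) + Qᵀ * Q * (Q' * rotM a b * Q) =
        Qᵀ * (rotM a b)ᵀ * (Q'ᵀ * Qᵀ) * Q + Qᵀ * (Q * Q') * rotM a b * Q := by
          simp only [mul_assoc]
      _ = Qᵀ * ((rotM a b)ᵀ + rotM a b) * Q := by
          rw [h3, h1, mul_one, mul_one, mul_add, add_mul]
      _ = 0 := by rw [rotM_skew a b hab, mul_zero, zero_mul]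
  obtain ⟨X, hX, hX2, hXZ⟩ := exists_sym n P (α : MultilinearMap ℂ (fun _ : Fin (2 * k) => HW κ n) ℂ)
    F hϖ hB hA i σ _ h2
  have h3 : lift n X.1 = rot (BB n P F i hI m hm hκ σ Q Q' h1 hS) a b := by
    refine (BB n P F i hI m hm hκ σ Q Q' h1 hS).ext fun c => ?_
    rw [rot_apply, BB_apply, BB_apply, BB_apply, lift_slot]
    rw [act_ub (F i) σ Q Q' h1 a b (X.1 i) (symI n P _ hX i) hXZ]
    split_ifs
    · rfl
    · rw [map_neg]
    · rw [map_zero]
  have h4 := congrArg (fun g => g v) hX.form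
  simp only [actForm_apply, hX2, mul_zero, zero_smul, _root_.zero_apply] at h4
  rw [h3] at h4
  exact h4

end family

end Pool.Agent.Helper64
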