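import Pool.Agent.Helper24.AF.QuadElem
import Pool.Agent.Helper24.PT.PMain
import Pool.Agent.Helper64.AF.Quat2
import Pool.Agent.Helper7.AF.Defs
import Pool.Agent.Helper8.D.Build

/-!
Type III fourfolds over an imaginary quadratic field: the field, the endomorphisms, and the Weil
structures.
-/

namespace Pool.Agent.Helper64

open Module NumberField Pool.Agent.Helper7 Pool.Agent.Helper24 Pool.Agent.Helper8.D
open Pool.Agent.GPC

set_option linter.unusedSectionVars false

section field

variable {K : Type} [Field K] [NumberField K] [IsCMField K]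

/-- real elements of an imaginary quadratic field are rational -/
lemma real_rat (hd : finrank ℚ K = 2) (y : K) (hy : cmConj K y = y) : ∃ q : ℚ, y = q := by
  obtain ⟨σ⟩ : Nonempty (K →+* ℂ) := inferInstance
  have halg : IsAlgebraic ℚ (σ y) :=
    (Algebra.IsAlgebraic.isAlgebraic (R := ℚ) y).algHom (σ.toRatAlgHom)
  obtain ⟨q, hq⟩ := Helper84.rational_of_fixed _ halg fun g => by
    have h1 : g (σ y) = ((g : ℂ →+* ℂ).comp σ) y := rfl
    rcases emb_two hd σ ((g : ℂ →+* ℂ).comp σ) with h | h
    · rw [h1, h]
    · rw [h1, h, ComplexEmbedding.conjugate_coe_eq,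
        ← IsCMField.complexEmbedding_complexConj K σ y]
      exact congrArg σ hy
  refine ⟨q, σ.injective ?_⟩
  rw [← hq, map_ratCast]

lemma exists_sqrt_neg (hd : finrank ℚ K = 2) (σ : K →+* ℂ) : ∃ (x : K) (d : ℚ) (c : ℂ), 0 < d ∧
    x * x = -(d : K) ∧ c * c = -(d : ℂ) ∧ σ x = c ∧ cmConj K x = -x := by
  classical
  have hne : ComplexEmbedding.conjugate σ ≠ σ := fun h =>
    IsTotallyComplex.complexEmbedding_not_isReal σ (ComplexEmbedding.isReal_iff.mpr h)
  have htwo : ∀ τ : K →+* ℂ, τ = σ ∨ τ = ComplexEmbedding.conjugate σ := fun τ => emb_two hd σ τ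
  have hcc : ComplexEmbedding.conjugate (ComplexEmbedding.conjugate σ) = σ := Helper24.conj_conj σ
  obtain ⟨x, d, c, h1, h2, h3, h4⟩ := exists_quad (I := Unit) () (fun _ => K)
    (fun t => if t.2 = σ then 1 else -1) (fun t => by split_ifs <;> norm_num)
    (fun i τ => by
      rcases htwo τ with h | h
      · subst h
        simp only [if_neg hne, if_true]
      · subst h
        simp only [hcc, if_neg hne, if_true]
        norm_num) (fun g => by
      refine ⟨if (g : ℂ →+* ℂ).comp σ = σ then 1 else -1, by split_ifs <;> norm_num, fun i τ => ?_⟩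
      have hinj : ∀ τ τ' : K →+* ℂ, (g : ℂ →+* ℂ).comp τ = (g : ℂ →+* ℂ).comp τ' → τ = τ' := by
        intro τ τ' h
        ext y
        have h5 := congrArg (fun f => f y) h
        exact g.injective h5
      rcases htwo ((g : ℂ →+* ℂ).comp σ) with hg | hg
      · rcases htwo τ with h | h
        · subst h
          simp only [hg, if_true, one_mul]
        · have h6 : (g : ℂ →+* ℂ).comp τ ≠ σ := fun h7 => by
            rw [← hg] at h7
            exact hne (h.symm.trans (hinj _ _ h7))
          have h8 : τ ≠ σ := by rw [h]; exact hne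
          simp only [if_neg h6, hg, if_true, if_neg h8, one_mul]
      · rcases htwo τ with h | h
        · subst h
          simp only [hg, if_neg hne, if_true]
          norm_num
        · have h6 : (g : ℂ →+* ℂ).comp τ = σ := by
            rcases htwo ((g : ℂ →+* ℂ).comp τ) with h7 | h7
            · exact h7
            · rw [← hg] at h7
              exact absurd (h.symm.trans (hinj _ _ h7)) hne
          have h8 : τ ≠ σ := by rw [h]; exact hne
          simp only [h6, hg, if_true, if_neg h8, if_neg hne]
          norm_num)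
  have h5 : σ (x ()) = c := by
    rw [h4 () σ]
    simp
  refine ⟨x (), d, c, h1, h2 (), h3, h5, σ.injective ?_⟩
  have h6 : σ (cmConj K (x ())) = starRingEnd ℂ (σ (x ())) :=
    IsCMField.complexEmbedding_complexConj K σ (x ())
  have h7 := h4 () (ComplexEmbedding.conjugate σ)
  rw [ComplexEmbedding.conjugate_coe_eq, ← h6] at h7
  rw [h7, map_neg, h5]
  simp only [if_neg hne]
  push_cast
  ring

end field

section QFs

variable {K : Type} [Field K] [NumberField K] [IsCMField K]

/-- the action as ring homomorphism -/
noncomputable def qmRho {A : AbVar} {ρ : K → A.H1 → A.H1} {j : A.H1 → A.H1} {b : K}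
    (C : A.IsQuatMult K ρ j b) : K →+* Module.End ℂ A.H1 where
  toFun x := IsLinearMap.mk' _ (C.endo x).linear
  map_one' := LinearMap.ext C.one
  map_mul' x y := LinearMap.ext (C.mul x y)
  map_add' x y := LinearMap.ext (C.add x y)
  map_zero' := LinearMap.ext fun v => by
    have h := C.add 0 0 v
    rw [add_zero] at h
    have h2 : ρ 0 v = 0 := by
      have h3 := congrArg (fun w => w - ρ 0 v) h
      simp only [sub_self, add_sub_cancel_right] at h3
      exact h3.symm
    exact h2

theorem exists_QF4 (A : AbVar) (ρ : K → A.H1 → A.H1) (j : A.H1 → A.H1) (b : K)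
    (C : A.IsQuatMult K ρ j b) (hK : finrank ℚ K = 2) (hg : A.g = 4) :
    Nonempty (QF (pData A) K 4) := by
  have hQ : ∀ x, ∀ v ∈ (pData A).Q, qmRho C x v ∈ (pData A).Q :=
    fun x v hv => (isDRB_of_isEnd A _ (C.endo x)).rat v hv
  obtain ⟨lam, h1, h2, eb, h3⟩ := exists_Kbasis (pData A) (qmRho C) hQ 4
    (by rw [card_index, hK, hg])
  obtain ⟨jj, hjj⟩ : ∃ jj : Module.End ℂ A.H1, ∀ v, jj v = j v :=
    ⟨IsLinearMap.mk' _ C.endo_j.linear, fun v => rfl⟩
  have hr : ∀ (x : K) v, qmRho C x v = ρ x v := fun x v => rfl
  have hjE : A.IsEnd jj := by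
    have h4 : (jj : A.H1 → A.H1) = j := funext hjj
    rw [h4]; exact C.endo_j
  have hend : ∀ f : Module.End ℂ A.H1, IsDRB (pData A) (pData A) f →
      ∃ x y, ∀ v, f v = qmRho C x v + qmRho C y (jj v) := by
    intro f hf
    obtain ⟨x, y, hxy⟩ := C.centralizer f (isEnd_of_isDRB A f hf) (fun x hx v => by
      obtain ⟨q, rfl⟩ := real_rat hK x hx
      have h5 : ∀ w, ρ (q : K) w = (q : ℂ) • w := by
        intro w
        have h6 := rho_ratsmul (qmRho C) q (1 : K)
        rw [map_one, Rat.smul_one_eq_cast] at h6
        have h7 := congrArg (fun g => g w) h6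
        exact h7
      rw [h5, h5, map_smul])
    exact ⟨x, y, fun v => by rw [hxy v, hjj]; rfl⟩
  exact ⟨{  ρ := qmRho C
            hρ := fun x => isDRB_of_isEnd A _ (C.endo x)
            cc := cmConj K
            hcc := fun σ x => IsCMField.complexEmbedding_complexConj K σ x
            hros := fun x u v => C.rosati x u v
            hcen := fun f hf hc => by
              obtain ⟨x, y, hxy⟩ := hend f hf
              obtain ⟨z, hz⟩ := exists_conj_ne K
              refine ⟨x, fun v => ?_⟩
              have h5 : ∀ v, qmRho C ((cmConj K z - z) * y) (jj v) = 0 := by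
                intro v
                have h6 := hc z v
                have h7 : jj (qmRho C z v) = qmRho C (cmConj K z) (jj v) := by
                  rw [hjj, hjj]; exact C.conj_j z v
                have h8 : ∀ a b w, qmRho C a (qmRho C b w) = qmRho C (a * b) w := fun a b w =>
                  (C.mul a b w).symm
                rw [hxy, hxy, map_add, h7, h8, h8, h8, h8, mul_comm x z, add_right_inj] at h6
                rw [sub_mul, map_sub, LinearMap.sub_apply, mul_comm (cmConj K z) y, h6, sub_self]
              have h8 : qmRho C y (jj v) = 0 := by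
                have h9 := congrArg (qmRho C (cmConj K z - z)⁻¹) (h5 v)
                rw [map_zero, ← Module.End.mul_apply, ← map_mul, ← mul_assoc,
                  inv_mul_cancel₀ (sub_ne_zero.mpr hz), one_mul] at h9
                exact h9
              rw [hxy, h8, add_zero]
            hnd := hnd_pData A
            lam := lam
            lam_rat := h1
            gen := h2
            eb := eb
            heb := h3
            j := jj
            hj := isDRB_of_isEnd A _ hjE
            b := b
            b_ne := C.ne_zero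
            jj := fun v => by rw [hjj, hjj]; exact C.sq_j v
            jρ := fun x v => by rw [hjj, hjj]; exact C.conj_j x v
            jψ := fun u v => by rw [hjj, hjj]; exact C.rosati_j u v
            hend := hend
            cplx := fun σ hσ => IsTotallyComplex.complexEmbedding_not_isReal σ
              (ComplexEmbedding.isReal_iff.mpr hσ) }⟩

end QFs

section algebra

variable {κ : Type} [Fintype κ] [DecidableEq κ] {ϖ : ℂ} {P : PData κ ϖ} {K : Type} [Field K]
    [NumberField K] (F : QF P K 4)

/-- the sum `K + K j` is direct -/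
lemma qf_direct (s t : K) (h : ∀ v, F.ρ s v + F.ρ t (F.j v) = 0) : s = 0 ∧ t = 0 := by
  classical
  obtain ⟨σ⟩ : Nonempty (K →+* ℂ) := inferInstance
  have hs : s = 0 := by
    have h1 := congrArg (proj F.ρ σ) (h (F.e σ 0))
    have h2 : proj F.ρ σ (F.j (F.e σ 0)) = 0 := by
      have h3 : F.e σ 0 = proj F.ρ σ (F.lam 0) := F.toUF.e_eq σ 0
      rw [h3, F.j_proj]
      have h4 := proj_mul_proj F.ρ σ (ComplexEmbedding.conjugate σ)
      rw [if_neg (fun e => F.cplx σ e.symm)] at h4
      exact congrArg (fun g => g (F.j (F.lam 0))) h4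
    rw [map_add, map_zero, F.toUF.rho_e, map_smul, F.toUF.proj_e, if_pos rfl, F.toUF.proj_rho, h2,
      smul_zero, add_zero] at h1
    rcases smul_eq_zero.mp h1 with h5 | h5
    · exact σ.injective (by rw [h5, map_zero])
    · exact absurd h5 (e_ne F.toUF σ 0)
  refine ⟨hs, ?_⟩
  obtain ⟨w, hw⟩ := F.exists_j (F.e σ 0)
  have h1 := h w
  rw [hs, map_zero, LinearMap.zero_apply, zero_add, hw, F.toUF.rho_e] at h1
  rcases smul_eq_zero.mp h1 with h5 | h5
  · exact σ.injective (by rw [h5, map_zero])
  · exact absurd h5 (e_ne F.toUF σ 0)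

lemma isDRB_add {f g : Module.End ℂ (κ → ℂ)} (hf : IsDRB P P f) (hg : IsDRB P P g) :
    IsDRB P P (f + g) where
  rat v hv := P.Q.add_mem (hf.rat v hv) (hg.rat v hv)
  alg i j := by
    rw [LinearMap.add_apply]
    exact (hf.alg i j).add (hg.alg i j)

lemma isDRB_smul (q : ℚ) {f : Module.End ℂ (κ → ℂ)} (hf : IsDRB P P f) :
    IsDRB P P ((q : ℂ) • f) where
  rat v hv := P.rat_smul_mem q _ (hf.rat v hv)
  alg i j := by
    rw [LinearMap.smul_apply]
    exact (isAlgebraic_ratCast ℚ q).mul (hf.alg i j)

end algebra

end Pool.Agent.Helper64
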