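import Pool.Agent.Helper64.AF.Quat3

/-!
Type III fourfolds over an imaginary quadratic field: every Grothendieck class is in the complex
span of the powers of the polarisation and of the Weil forms.
-/

namespace Pool.Agent.Helper64

open Module NumberField Pool.Agent.Helper7 Pool.Agent.Helper24 Pool.Agent.Helper8.D
open Pool.Agent.GPC

set_option linter.unusedSectionVars false

variable {I : Type} [Fintype I] [DecidableEq I] (A : I → AbVar) (n : I → ℕ)
  {K : Type} [Field K] [NumberField K] [IsCMField K]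
  (F : ∀ i, QF (pData (A i)) K 4)

/-- Weil forms, with complex coefficients -/
def WeilForms (k : ℕ) : Set (Form A n (2 * k)) :=
  {w | (k = 2 ∧ ∑ i, n i * (A i).g = 4) ∧ ∃ (d : ℚ) (J : H1 A n → H1 A n),
    IsWeilStructure A n d J ∧
      ∀ v r s, w (Function.update v r (J (v r))) = w (Function.update v s (J (v s)))}

/-- the endomorphism `p x + q x j` of the factors -/
noncomputable def NJ (x : K) (p q : ℚ) (i : I) : Module.End ℂ (A i).H1 :=
  (p : ℂ) • (F i).ρ x + (q : ℂ) • ((F i).ρ x * (F i).j)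

omit [Fintype I] [DecidableEq I] in
lemma NJ_apply (x : K) (p q : ℚ) (i : I) (v : (A i).H1) : NJ A F x p q i v =
    (p : ℂ) • (F i).ρ x v + (q : ℂ) • (F i).ρ x ((F i).j v) := rfl

omit [Fintype I] [DecidableEq I] in
lemma NJ_drb (x : K) (p q : ℚ) (i : I) : IsDRB (pData (A i)) (pData (A i)) (NJ A F x p q i) := by
  have h1 : IsDRB (pData (A i)) (pData (A i)) ((F i).ρ x * (F i).j) :=
    (isDRB_iff _ _ _).mpr ⟨fun v hv => ((isDRB_iff _ _ _).mp ((F i).hρ x)).1 _
      (((isDRB_iff _ _ _).mp (F i).hj).1 v hv), fun v hv =>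
      ((isDRB_iff _ _ _).mp ((F i).hρ x)).2 _ (((isDRB_iff _ _ _).mp (F i).hj).2 v hv)⟩
  exact isDRB_add (isDRB_smul p ((F i).hρ x)) (isDRB_smul q h1)

omit [Fintype I] [DecidableEq I] in
lemma rho_rho (i : I) (x y : K) (v : (A i).H1) : (F i).ρ x ((F i).ρ y v) = (F i).ρ (x * y) v := by
  rw [map_mul]; rfl

omit [Fintype I] [DecidableEq I] in
lemma rho_neg (i : I) (x : K) (v : (A i).H1) : (F i).ρ (-x) v = -(F i).ρ x v := by
  rw [map_neg]; rfl

omit [Fintype I] [DecidableEq I] in
lemma rho_cast (i : I) (q : ℚ) (v : (A i).H1) : (F i).ρ (q : K) v = (q : ℂ) • v := by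
  have h6 := rho_ratsmul (F i).ρ q (1 : K)
  rw [map_one, Rat.smul_one_eq_cast] at h6
  exact congrArg (fun g => g v) h6

omit [Fintype I] [DecidableEq I] in
lemma NJ_sq (x : K) (d b0 p q : ℚ) (hx : x * x = -(d : K)) (i : I) (hcx : (F i).cc x = -x)
    (hb : (F i).b = (b0 : K)) (hpq : p ^ 2 - b0 * q ^ 2 = 1) (v : (A i).H1) :
    NJ A F x p q i (NJ A F x p q i v) = (-(d : ℂ)) • v := by
  have hxx : ∀ w, (F i).ρ x ((F i).ρ x w) = (-(d : ℂ)) • w := by
    intro w
    rw [rho_rho, hx, rho_neg, rho_cast, neg_smul]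
  have hjx : ∀ w, (F i).j ((F i).ρ x w) = - (F i).ρ x ((F i).j w) := by
    intro w
    rw [(F i).jρ, hcx, rho_neg]
  have hjj : ∀ w, (F i).j ((F i).j w) = (b0 : ℂ) • w := by
    intro w
    rw [(F i).jj, hb, rho_cast]
  rw [NJ_apply, NJ_apply]
  simp only [map_add, map_smul, hxx, hjx, hjj, smul_neg, map_neg, smul_add, smul_smul]
  have h1 : ((p : ℂ) ^ 2 - b0 * q ^ 2) = 1 := by exact_mod_cast hpq
  have h2 : (-(d : ℂ)) • v = (-(d : ℂ) * ((p : ℂ) ^ 2 - b0 * q ^ 2)) • v := by rw [h1, mul_one]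
  rw [h2]
  module

omit [Fintype I] [DecidableEq I] in
lemma NJ_j (x : K) (p q : ℚ) (i : I) (hcx : (F i).cc x = -x) (v : (A i).H1) :
    (F i).j (NJ A F x p q i v) = - NJ A F x p q i ((F i).j v) := by
  have hjx : ∀ w, (F i).j ((F i).ρ x w) = - (F i).ρ x ((F i).j w) := by
    intro w
    rw [(F i).jρ, hcx, rho_neg]
  rw [NJ_apply, NJ_apply, map_add, map_smul, map_smul, hjx, hjx, smul_neg, smul_neg, neg_add]

omit [Fintype I] [DecidableEq I] in
/-- self-adjoint endomorphisms are rational -/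
lemma selfadj_rat (hd : finrank ℚ K = 2) (i : I) (hcc : ∀ x, (F i).cc x = cmConj K x)
    (f : (A i).H1 → (A i).H1) (hf : (A i).IsEnd f) (hs : (A i).IsAdjoint f f) :
    ∃ q : ℚ, ∀ v, f v = (q : ℂ) • v := by
  obtain ⟨g, hg⟩ : ∃ g : Module.End ℂ (A i).H1, ∀ v, g v = f v :=
    ⟨IsLinearMap.mk' _ hf.linear, fun v => rfl⟩
  have hgE : (A i).IsEnd g := by
    have h4 : (g : (A i).H1 → (A i).H1) = f := funext hg
    rw [h4]; exact hf
  obtain ⟨x, y, hxy⟩ := (F i).hend g (isDRB_of_isEnd _ g hgE)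
  have hadj : ∀ u v, (pData (A i)).ψ (g u) v = (pData (A i)).ψ u (g v) := by
    intro u v
    rw [pData_ψ, pData_ψ, hg, hg]
    exact hs u v
  have h1 : ∀ v, (F i).ρ (x - (F i).cc x) v + (F i).ρ (2 * y) ((F i).j v) = 0 := by
    intro v
    apply (pData (A i)).hψnd
    intro u
    rw [(pData (A i)).hψalt, neg_eq_zero]
    have h2 := hadj u v
    have h3 : (pData (A i)).ψ (g u) v = (pData (A i)).ψ u ((F i).ρ ((F i).cc x) v) -
        (pData (A i)).ψ u ((F i).ρ y ((F i).j v)) := by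
      rw [hxy, map_add, LinearMap.add_apply, (F i).hros, (F i).hros, (F i).jψ, (F i).jρ,
        (F i).cc_cc]
      ring
    rw [h3, hxy v, map_add] at h2
    have h4 : (F i).ρ (2 * y) ((F i).j v) = (2 : ℂ) • (F i).ρ y ((F i).j v) := by
      have h5 := rho_cast A F i 2 ((F i).ρ y ((F i).j v))
      rw [rho_rho] at h5
      push_cast at h5
      exact h5
    rw [h4, map_add, map_smul, map_sub, LinearMap.sub_apply, map_sub, smul_eq_mul]
    linear_combination -h2
  obtain ⟨h2, h3⟩ := qf_direct (F i) _ _ h1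
  obtain ⟨q, rfl⟩ := real_rat hd x (by
    rw [← hcc]; exact (sub_eq_zero.mp h2).symm)
  have hy : y = 0 := by
    rcases mul_eq_zero.mp h3 with h4 | h4
    · exact absurd h4 two_ne_zero
    · exact h4
  refine ⟨q, fun v => ?_⟩
  rw [← hg, hxy, hy, map_zero, LinearMap.zero_apply, add_zero, rho_cast]

omit [Fintype I] in
lemma slotL_self (i : I) (m : Fin (n i)) (w : (A i).H1) :
    (slotL (κ := fun i => Fin (A i).g ⊕ Fin (A i).g) n i m w) i m = w :=
  prL_slotL (κ := fun i => Fin (A i).g ⊕ Fin (A i).g) n i m w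

/-- the Weil structures of a type III fourfold -/
theorem isWeilStructure_NJ (hd : finrank ℚ K = 2) (i : I) (hI : ∀ j, j = i) (hn : n i = 1)
    (hg : (A i).g = 4) (hcc : ∀ x, (F i).cc x = cmConj K x) (x : K) (d b0 p q : ℚ) (hd0 : 0 < d)
    (hx : x * x = -(d : K)) (hcx : (F i).cc x = -x)
    (hb : (F i).b = (b0 : K)) (hpq : p ^ 2 - b0 * q ^ 2 = 1) :
    IsWeilStructure A n d (lift n (NJ A F x p q)) := by
  have hE : ∀ i, (A i).IsEnd (NJ A F x p q i) := fun i => isEnd_of_isDRB _ _ (NJ_drb A F x p q i)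
  refine ⟨hd0, ⟨(lift n (NJ A F x p q)).isLinear, fun v hv j m => (hE j).betti _ (hv j m),
    fun v hv j m => (hE j).deRham _ (hv j m), fun v hv j m => (hE j).hodge _ (hv j m)⟩, ?_, ?_,
    Or.inr ⟨i, hI, hn, fun f hf hs => selfadj_rat A F hd i hcc f hf hs⟩⟩
  · intro v
    funext j m
    obtain rfl := hI j
    exact NJ_sq A F x d b0 p q hx j hcx hb hpq (v j m)
  · rintro ⟨c, hc⟩
    obtain ⟨m⟩ : Nonempty (Fin (n i)) := ⟨⟨0, by omega⟩⟩
    have hc' : ∀ w : (A i).H1, (A i).IsFil w → NJ A F x p q i w = c • w := by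
      intro w hw
      have h1 := hc (slotL n i m w) (fun j m' => by
        obtain rfl := hI j
        have h2 : m' = m := by
          apply Fin.ext
          have h3 := m'.2
          have h4 := m.2
          omega
        subst h2
        rw [slotL_self]; exact hw)
      have h2 := congrFun (congrFun h1 i) m
      rw [lift_apply, slotL_self] at h2
      rw [h2]
      show c • (slotL (κ := fun i => Fin (A i).g ⊕ Fin (A i).g) n i m w) i m = c • w
      rw [slotL_self]
    obtain ⟨w, hw⟩ : ∃ w : (A i).H1, w = Pi.single (.inr ⟨0, by omega⟩) 1 := ⟨_, rfl⟩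
    have hwF : (A i).IsFil w := by
      intro a
      rw [hw, Pi.single_eq_of_ne]
      exact fun h => by cases h
    have hw0 : w ≠ 0 := by
      intro h0
      have h1 := congrFun h0 (.inr ⟨0, by omega⟩)
      rw [hw, Pi.single_eq_same, Pi.zero_apply] at h1
      exact one_ne_zero h1
    have hjE : (A i).IsEnd (F i).j := isEnd_of_isDRB _ _ (F i).hj
    have h1 := hc' _ (hjE.hodge w hwF)
    have h2 := congrArg (F i).j (hc' w hwF)
    rw [NJ_j A F x p q i hcx, h1, map_smul] at h2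
    have h3 : (2 * c) • (F i).j w = 0 := by
      rw [mul_smul, two_smul]
      nth_rewrite 1 [← h2]
      exact neg_add_cancel _
    have h4 : c = 0 := by
      rcases smul_eq_zero.mp h3 with h5 | h5
      · linear_combination h5 / 2
      · exfalso
        apply hw0
        have h6 := (F i).jj w
        rw [h5, map_zero] at h6
        have h7 := congrArg ((F i).ρ ((F i).b)⁻¹) h6
        rw [map_zero, rho_rho, inv_mul_cancel₀ (F i).b_ne, map_one] at h7
        exact h7.symm
    have h5 := NJ_sq A F x d b0 p q hx i hcx hb hpq w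
    rw [hc' w hwF, h4, zero_smul, map_zero] at h5
    rcases smul_eq_zero.mp h5.symm with h6 | h6
    · have h7 : (d : ℂ) ≠ 0 := by exact_mod_cast hd0.ne'
      exact h7 (neg_eq_zero.mp h6)
    · exact hw0 h6

end Pool.Agent.Helper64
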